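import Pool.Agent.H88.SW.Cls

/-!
# [H88 SW ITM] Items, discriminants (75 min)

`nfd`: `F` of degree 3 over `K`: finite-dimensional (`Module.finite_of_finrank_pos`), `NumberField.of_module_finite K F`.
`dsc_eq`: `H38.ML.relDisc K x.1 = absNorm (differentIdeal (𝓞 K) (𝓞 F))` (`dif_pos`; all `NumberField` instances are equal, it is a Prop), `NumberField.natAbs_discr_eq_absNorm_differentIdeal_mul_natAbs_discr_pow`-type theorem in `Mathlib.NumberTheory.NumberField.Discriminant.Different`: `|disc F| = relDisc * |disc K| ^ 3`.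
`isq`: `Sel.even` gives an ideal square root: `(a) = ∏ P ^ (ord P a)`; see `H38/WM/CoA.lean` or wherever `Dat.isq` of `H88/A4/Iface` is derived from `Sel` (grep `isq`), copy it.
`items_ex`: for every `c ∈ T`: `selg c.F = Nat.card (Quot ..)` (`dif_pos`). If the quotient is infinite, `Nat.card = 0`, take `∅`; otherwise representatives (`Quot.out`) `a : c.Fˣ` with `Sel`, mapped to `(c.F, a) : It K`. Model: `sm_core` in `H48/KV/SmB.lean`. Different `c ∈ T` may have the same field? `Cu` is determined by `F` (`structure` with two proofs): `c = c'` iff `c.F = c'.F`. So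
the items are different, `Ine`: same field and `a = b e ^ 2` (`e ≠ 0`): the same class (`Quot.sound`). `card S = ∑ selg`.
`cu_fin`: `c ↦ c.F.restrictScalars ℚ : IntermediateField ℚ QBar` is injective; `NumberField.finite_of_discr_bdd QBar N` with `|disc| ≤ R |disc K| ^ 3` (`dsc_eq`), `Set.Finite.of_injOn` or `Set.Finite.preimage`; `discr` of the same field as an `IntermediateField` over `ℚ` (`NumberField.discr_eq_discr_of_algEquiv`/ring equiv).
-/

set_option autoImplicit false

open scoped NumberField nonZeroDivisors Matrix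
open H88.A4 Pool.Agent.H67.WA H38.ML H63.MA H67.SX

noncomputable section

namespace H88.SW

variable {K : IntermediateField ℚ QBar} [NumberField K]

theorem nfd {F : IntermediateField K QBar} (h : Module.finrank K F = 3) : NumberField F := by
  have h1 : FiniteDimensional K F := Module.finite_of_finrank_pos (by rw [h]; norm_num)
  exact NumberField.of_module_finite K F

theorem dsc_eq (x : It K) (h : Module.finrank K x.1 = 3) [NumberField x.1] :
    |(NumberField.discr x.1 : ℝ)| = dsc x * |(NumberField.discr K : ℝ)| ^ 3 := by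
  have h1 : H38.ML.relDisc K x.1 = Ideal.absNorm (differentIdeal (𝓞 K) (𝓞 x.1)) := by
    rw [H38.ML.relDisc, dif_pos (show NumberField x.1 from inferInstance)]
  have h2 := NumberField.natAbs_discr_eq_absNorm_differentIdeal_mul_natAbs_discr_pow K (𝓞 K) x.1
    (𝓞 x.1)
  rw [h, ← h1] at h2
  have h3 : |(NumberField.discr x.1 : ℝ)| = ((NumberField.discr x.1).natAbs : ℝ) := by
    rw [Nat.cast_natAbs, Int.cast_abs]
  have h4 : |(NumberField.discr K : ℝ)| = ((NumberField.discr K).natAbs : ℝ) := by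
    rw [Nat.cast_natAbs, Int.cast_abs]
  rw [h3, h4, h2]
  push_cast
  rfl

private theorem exists_pow_ideal {B : Type} [CommRing B] [IsDedekindDomain B] (n : ℕ) (J : Ideal B) (hJ : J ≠ ⊥)
    (h : ∀ w : IsDedekindDomain.HeightOneSpectrum B, n ∣ multiplicity w.asIdeal J) :
    ∃ I : Ideal B, I ^ n = J ∧ I ≠ ⊥ := by
  classical
  have hfin : (Function.mulSupport fun w : IsDedekindDomain.HeightOneSpectrum B =>
      w.asIdeal ^ (multiplicity w.asIdeal J / n)).Finite := by
    refine (Ideal.finite_factors hJ).subset ?_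
    intro w hw
    rw [Function.mem_mulSupport] at hw
    show w.asIdeal ∣ J
    by_contra hd
    apply hw
    rw [multiplicity_eq_zero.2 hd]
    simp
  refine ⟨∏ᶠ w : IsDedekindDomain.HeightOneSpectrum B, w.asIdeal ^ (multiplicity w.asIdeal J / n), ?_, ?_⟩
  · rw [finprod_pow hfin]
    conv_rhs => rw [← Ideal.finprod_heightOneSpectrum_pow_multiplicity hJ]
    refine finprod_congr fun w => ?_
    rw [← pow_mul]
    congr 1
    exact Nat.div_mul_cancel (h w)
  · rw [finprod_eq_prod _ hfin]
    rw [← Ideal.zero_eq_bot, Finset.prod_ne_zero_iff]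
    intro w _
    exact pow_ne_zero _ w.ne_bot

private theorem dvd_of_exp_eq_pow {n : ℕ} {m : ℕ} {s : WithZero (Multiplicative ℤ)}
    (h : (WithZero.exp (-(m : ℤ)) : WithZero (Multiplicative ℤ)) = s ^ n)
    (hn : n ≠ 0) : n ∣ m := by
  have hr0 : s ≠ 0 := by
    rintro rfl
    rw [zero_pow hn] at h
    exact WithZero.exp_ne_zero h
  rw [← WithZero.exp_log hr0, ← WithZero.exp_nsmul, WithZero.exp_inj, nsmul_eq_mul] at h
  have h1 : (n : ℤ) ∣ (m : ℤ) := ⟨-WithZero.log s, by linear_combination -h⟩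
  exact_mod_cast h1

theorem isq {F : IntermediateField K QBar} [NumberField F] (a : Fˣ) (h : ∀ P : Pl F, Even (ord P a)) :
    ∃ J : FractionalIdeal (𝓞 F)⁰ F, FractionalIdeal.spanSingleton (𝓞 F)⁰ (a : F) = J ^ 2 := by
  obtain ⟨x, y, hy, hxy⟩ := IsFractionRing.div_surjective (A := 𝓞 F) (a : F)
  have hy0 : y ≠ 0 := nonZeroDivisors.ne_zero hy
  have hyF : algebraMap (𝓞 F) F y ≠ 0 := by
    rw [Ne, FaithfulSMul.algebraMap_eq_zero_iff]; exact hy0
  have hx0 : x ≠ 0 := by
    rintro rfl
    rw [map_zero, zero_div] at hxy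
    exact a.ne_zero hxy.symm
  have hxyn : x * y ≠ 0 := mul_ne_zero hx0 hy0
  have hJ0 : Ideal.span {x * y} ≠ ⊥ := by
    rw [Ne, Ideal.span_singleton_eq_bot]
    exact hxyn
  have hmul : algebraMap (𝓞 F) F (x * y) = (a : F) * algebraMap (𝓞 F) F y ^ 2 := by
    rw [← hxy, map_mul]
    field_simp
  obtain ⟨I, hI, -⟩ := exists_pow_ideal 2 (Ideal.span {x * y}) hJ0 (by
    intro w
    obtain ⟨m, hm⟩ := h w
    have h1 : w.valuation F (a : F) = (WithZero.exp (-m)) ^ 2 := by
      have h2 : WithZero.log (w.valuation F (a : F)) = -(m + m) := by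
        have h3 : ord w a = -WithZero.log (w.valuation F (a : F)) := rfl
        rw [h3] at hm
        linarith
      have h4 : w.valuation F (a : F) ≠ 0 := by
        rw [Ne, map_eq_zero]
        exact a.ne_zero
      rw [← WithZero.exp_log h4, h2, ← WithZero.exp_nsmul]
      congr 1
      ring
    refine dvd_of_exp_eq_pow (s := WithZero.exp (-m) * w.valuation F
      (algebraMap (𝓞 F) F y)) ?_ two_ne_zero
    have h5 : w.valuation F (algebraMap (𝓞 F) F (x * y)) = w.intValuation (x * y) :=
      w.valuation_of_algebraMap (x * y)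
    rw [← w.intValuation_eq_exp_neg_multiplicity hxyn, ← h5, hmul, map_mul, h1, map_pow, mul_pow])
  refine ⟨(I : FractionalIdeal (𝓞 F)⁰ F) * FractionalIdeal.spanSingleton (𝓞 F)⁰
    (algebraMap (𝓞 F) F y)⁻¹, ?_⟩
  rw [mul_pow, ← FractionalIdeal.coeIdeal_pow, hI, FractionalIdeal.coeIdeal_span_singleton,
    FractionalIdeal.spanSingleton_pow, FractionalIdeal.spanSingleton_mul_spanSingleton, hmul]
  congr 1
  field_simp

/-- the classes of one field -/
private abbrev Qt (K : IntermediateField ℚ QBar) [NumberField K] (c : Cu K) : Type :=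
  Quot fun a b : {a : (c.F)ˣ // H38.WM.Sel K c.F a} => ∃ e : (c.F)ˣ, a.1 = b.1 * e ^ 2

private theorem selg_eq (c : Cu K) : H48.KV.selg c.F = Nat.card (Qt K c) := by
  unfold H48.KV.selg
  rw [dif_pos (inferInstance : NumberField c.F)]
  rfl

theorem items_ex (T : Finset (Cu K)) : ∃ S : Finset (It K), Ine S ∧ (∀ x ∈ S, IsIt x ∧ SqI x ∧ ∃ c ∈ T, x.1 = c.F) ∧
    ∑ c ∈ T, (H48.KV.selg c.F : ℝ) = (S.card : ℝ) := by
  classical
  -- only the fields with finitely many classes
  obtain ⟨T', hT'⟩ : ∃ T' : Finset (Cu K), T' = T.filter fun c => Finite (Qt K c) := ⟨_, rfl⟩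
  have hsum : ∑ c ∈ T, (H48.KV.selg c.F : ℝ) = ∑ c ∈ T', (H48.KV.selg c.F : ℝ) := by
    rw [hT', Finset.sum_filter]
    refine Finset.sum_congr rfl fun c _ => ?_
    split_ifs with hc
    · rfl
    · have hinf : Infinite (Qt K c) := not_finite_iff_infinite.1 hc
      rw [selg_eq, Nat.card_eq_zero_of_infinite, Nat.cast_zero]
  let I : Type := Σ c : T', Qt K c.1
  have hfq : ∀ c : T', Finite (Qt K c.1) := by
    rintro ⟨c, hc⟩
    rw [hT', Finset.mem_filter] at hc
    exact hc.2
  have hfinI : Finite I := inferInstance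
  have hftI : Fintype I := Fintype.ofFinite I
  let f : I → It K := fun i => (i.1.1.F, (((Quot.out i.2).1 : i.1.1.F) : QBar))
  have hcF : ∀ c c' : Cu K, c.F = c'.F → c = c' := by
    rintro ⟨F, h1, h2⟩ ⟨F', h3, h4⟩ h
    dsimp only at h
    subst h
    rfl
  have hkey : ∀ i j : I, (f i).1 = (f j).1 → (∃ e ∈ (f i).1, (f i).2 = (f j).2 * e ^ 2) → i = j := by
    rintro ⟨⟨c, hc⟩, q⟩ ⟨⟨c', hc'⟩, q'⟩ h1 h2
    have h3 : c.F = c'.F := h1
    obtain rfl := hcF c c' h3
    obtain ⟨e, heF, he⟩ := h2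
    have h4 : (((Quot.out q).1 : c.F) : QBar) = (((Quot.out q').1 : c.F) : QBar) * e ^ 2 := he
    have he0 : e ≠ 0 := by
      rintro rfl
      rw [zero_pow (by norm_num), mul_zero] at h4
      exact (Quot.out q).1.ne_zero (Subtype.ext h4)
    have heF' : e ∈ c.F := heF
    have he0' : (⟨e, heF'⟩ : c.F) ≠ 0 := fun h => he0 (congrArg Subtype.val h)
    have h5 : (Quot.out q).1 = (Quot.out q').1 * (Units.mk0 (⟨e, heF'⟩ : c.F) he0') ^ 2 := by
      apply Units.ext
      apply Subtype.ext
      rw [Units.val_mul, Units.val_pow_eq_pow_val, Units.val_mk0]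
      exact h4
    have h6 : q = q' := by
      rw [← Quot.out_eq q, ← Quot.out_eq q']
      exact Quot.sound ⟨_, h5⟩
    rw [h6]
  have hinj : Function.Injective f := by
    intro i j hij
    exact hkey i j (congrArg Prod.fst hij) ⟨1, one_mem _, by rw [congrArg Prod.snd hij, one_pow, mul_one]⟩
  refine ⟨Finset.univ.image f, ?_, ?_, ?_⟩
  · intro x hx y hy h1 h2
    obtain ⟨i, -, rfl⟩ := Finset.mem_image.1 hx
    obtain ⟨j, -, rfl⟩ := Finset.mem_image.1 hy
    rw [hkey i j h1 h2]
  · intro x hx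
    obtain ⟨i, -, rfl⟩ := Finset.mem_image.1 hx
    refine ⟨⟨i.1.1.deg, ((Quot.out i.2).1 : i.1.1.F), rfl, (Quot.out i.2).1.ne_zero, (Quot.out i.2).2.nsq⟩,
      ⟨inferInstanceAs (NumberField i.1.1.F), (Quot.out i.2).1, rfl, (Quot.out i.2).2.even⟩, i.1.1, ?_, rfl⟩
    have h1 := i.1.2
    have h2 : i.1.1 ∈ T.filter fun c => Finite (Qt K c) := by
      rw [← hT']
      exact h1
    exact (Finset.mem_filter.1 h2).1
  · rw [hsum, Finset.card_image_of_injective _ hinj, Finset.card_univ, ← Nat.card_eq_fintype_card]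
    have h1 : Nat.card I = ∑ c : T', Nat.card (Qt K c.1) := Nat.card_sigma
    rw [h1, Nat.cast_sum, ← Finset.sum_coe_sort T' fun c => (H48.KV.selg c.F : ℝ)]
    refine Finset.sum_congr rfl fun c _ => ?_
    rw [selg_eq]

theorem cu_fin (R : ℝ) : {c : Cu K | c.D ≤ R}.Finite := by
  classical
  obtain ⟨N, hN⟩ := exists_nat_ge (R * |(NumberField.discr K : ℝ)| ^ 3)
  have hfd : ∀ c : Cu K, FiniteDimensional ℚ (c.F.restrictScalars ℚ) := by
    intro c
    have h1 : FiniteDimensional ℚ c.F := Module.Finite.trans (R := ℚ) K c.F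
    exact h1
  have h := NumberField.finite_of_discr_bdd QBar N
  refine Set.Finite.of_finite_image (f := fun c : Cu K =>
    (⟨c.F.restrictScalars ℚ, hfd c⟩ : {F : IntermediateField ℚ QBar // FiniteDimensional ℚ F})) ?_ ?_
  · refine h.subset ?_
    rintro _ ⟨c, hc, rfl⟩
    have hnf : NumberField (c.F.restrictScalars ℚ) := @NumberField.mk _ _ inferInstance (hfd c)
    show |NumberField.discr (c.F.restrictScalars ℚ)| ≤ N
    have hc' : c.D ≤ R := hc
    have h1 := @dsc_eq K _ (c.F, 0) c.deg (inferInstanceAs (NumberField c.F))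
    let e : c.F ≃+* (c.F.restrictScalars ℚ) :=
      { toFun := fun x => ⟨x.1, x.2⟩
        invFun := fun x => ⟨x.1, x.2⟩
        left_inv := fun _ => rfl
        right_inv := fun _ => rfl
        map_mul' := fun _ _ => rfl
        map_add' := fun _ _ => rfl }
    have h2 : NumberField.discr c.F = NumberField.discr (c.F.restrictScalars ℚ) :=
      NumberField.discr_eq_discr_of_ringEquiv c.F e
    rw [← h2]
    have h3 : |(NumberField.discr c.F : ℝ)| = c.D * |(NumberField.discr K : ℝ)| ^ 3 := h1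
    have h4 : |(NumberField.discr c.F : ℝ)| ≤ N := by
      rw [h3]
      exact (mul_le_mul_of_nonneg_right hc' (by positivity)).trans hN
    exact_mod_cast h4
  · intro c _ c' _ hcc
    have h1 : c.F.restrictScalars ℚ = c'.F.restrictScalars ℚ := congrArg Subtype.val hcc
    have h2 : c.F = c'.F := IntermediateField.restrictScalars_injective ℚ h1
    obtain ⟨F, h3, h4⟩ := c
    obtain ⟨F', h5, h6⟩ := c'
    dsimp only at h2
    subst h2
    rfl

end H88.SW
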