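import Pool.Agent.H88.SW.Defs

/-!
# [H88 SW DY] Dyadic summation (90 min)

Pure real analysis. `f (a1, a2, e0, e1, e2)`: `t1 = 2^a1`, `t2 = 2^a2` (`a1 ≤ a2` naturals), `m i = 2^(e i)` (`e0 ≤ e1 ≤ e2` integers). For `x ∈ S`: `a1 = ⌊log2 (T1 x)⌋`, `a2 = ⌊log2 (T2 x)⌋`, `e i = ⌊log2 (l x i)⌋ + 1` (`Int.log 2`, `Int.zpow_log_le_self`, `Int.lt_zpow_succ_log_self`, monotone: `Int.log_mono_right`): `t1 ≤ T1 x < 2 t1`, `t2 ≤ T2 x < 2 t2`,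
`l x i ≤ m i ≤ 2 l x i`. `Or t1 t2 m`. `m0 m1 m2 ≤ 8 l0 l1 l2 ≤ 8 κ T1 T2 ≤ 32 κ t1 t2`: the hypothesis applies to the fibre. `card S = ∑` over the image of the cards of the fibres. Sum of the bounds, `d ≥ 1`. Put `K2` with `2^(K2 - 1) ≤ (κ R)^(1/(2d)) .. `: simply `k = a1 + a2` satisfies `(2^k)^(2d) ≤ (T1 T2)^(2d) ≤ κ R`.
FIRST TERM. `k = a1 + a2`, `δ = a2 - a1`, `i = e2 - e0`, `j = e1 - e0 ≤ i`, `ω = c0 + k - (e0 + e1 + e2) ≥ 0` where `2^c0 ≥ 32 κ` (naturals); the map `(a1, a2, e0, e1, e2) ↦ (k, δ, i, j, ω)` is injective (`3 e0 = c0 + k - ω - i - j`). The term is `(2^(2k) 2^(-δ) 2^(-2i) 2^(8 (c0 - ω)))^d ≤ 2^(8 c0 d) 4^(k d) 2^(-δ) 2^(-2i) 2^(-ω)`.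
The sum over `δ, ω` : at most `2` each; over `j ≤ i`: `(i + 1) 4^(-i) ≤ 2 * 2^(-i)`, sum at most `4`; over `k ≤ k_max`: `∑ 4^(k d) ≤ 2 * 4^(k_max d) ≤ 2 κ R` (`(2^k)^(2d) = 4^(k d)`).
SECOND TERM. `≤ C1 (2^k)^(11/6 d) = C1 ((2^k)^(2 d))^(11/12) ≤ C1 (κ R)^(11/12)`; the number of the classes: `0 ≤ a1 ≤ a2 ≤ log2 (κ R)`, `2^(e0) ≥ l0 ≥ 1/κ`, `2^(e2) ≤ m0 m1 m2 / (m0 m1) ≤ 32 κ t1 t2 κ^2 ≤ 32 κ^4 R` (as `(t1 t2)^(2d) ≤ κ R`, `1 ≤ κ R`, gives `t1 t2 ≤ κ R`), so every one of the five integers lies in `[-log2 κ - 1, log2 (32 κ^4 R) + 1]`: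
at most `(C (1 + log R))^5` classes, and `(1 + log R)^5 ≤ C R^(1/12)` (`Real.add_one_le_exp`/`Real.log_le_rpow_div`, or `Pool.H63.W1.log_le`).
`dyO`: the same with `(k, δ)` only.
-/

set_option autoImplicit false

open scoped NumberField nonZeroDivisors Matrix

noncomputable section

namespace H88.SW

private theorem geo_top {r : ℝ} (hr : 2 ≤ r) (M : ℕ) : ∑ k ∈ Finset.range (M + 1), r ^ k ≤ 2 * r ^ M := by
  induction M with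
  | zero => simp
  | succ M ih =>
    rw [Finset.sum_range_succ]
    have h1 : 2 * r ^ M ≤ r ^ (M + 1) := by
      rw [pow_succ, mul_comm (r ^ M)]
      exact mul_le_mul_of_nonneg_right hr (by positivity)
    linarith

private theorem geo_set {r Q : ℝ} (hr : 2 ≤ r) (hQ : 0 ≤ Q) (K : Finset ℕ) (hK : ∀ k ∈ K, r ^ k ≤ Q) :
    ∑ k ∈ K, r ^ k ≤ 2 * Q := by
  rcases K.eq_empty_or_nonempty with rfl | hne
  · simpa using hQ
  · have h1 : K ⊆ Finset.range (K.max' hne + 1) := fun k hk => Finset.mem_range.2 (by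
      have := K.le_max' k hk
      omega)
    have h2 := Finset.sum_le_sum_of_subset_of_nonneg (f := fun k => r ^ k) h1 fun k _ _ => by positivity
    have h3 := geo_top hr (K.max' hne)
    have h4 := hK _ (K.max'_mem hne)
    linarith

private theorem geo_eta {η : ℝ} (h0 : 0 ≤ η) (h1 : η < 1) (N : ℕ) : ∑ n ∈ Finset.range N, η ^ n ≤ 1 / (1 - η) := by
  have h2 := (summable_geometric_of_lt_one h0 h1).sum_le_tsum (Finset.range N) fun n _ => pow_nonneg h0 n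
  rwa [tsum_geometric_of_lt_one h0 h1, ← one_div] at h2

private theorem dy_sum {r Q η : ℝ} (hr : 2 ≤ r) (hQ : 0 ≤ Q) (h0 : 0 ≤ η) (h1 : η < 1) (P : Finset (ℕ × ℕ × ℕ × ℕ × ℕ))
    (hP : ∀ p ∈ P, r ^ p.1 ≤ Q) :
    ∑ p ∈ P, r ^ p.1 * (η ^ p.2.1 * (η ^ p.2.2.1 * (η ^ p.2.2.2.1 * η ^ p.2.2.2.2))) ≤ 2 * Q * (1 / (1 - η)) ^ 4 := by
  set K := P.image Prod.fst with hK
  set N := P.sup (fun p => p.2.1 + p.2.2.1 + p.2.2.2.1 + p.2.2.2.2) + 1 with hN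
  set A := Finset.range N with hA
  have hsub : P ⊆ K ×ˢ (A ×ˢ (A ×ˢ (A ×ˢ A))) := by
    intro p hp
    have h2 : p.2.1 + p.2.2.1 + p.2.2.2.1 + p.2.2.2.2 ≤ P.sup (fun p => p.2.1 + p.2.2.1 + p.2.2.2.1 + p.2.2.2.2) :=
      Finset.le_sup (f := fun p : ℕ × ℕ × ℕ × ℕ × ℕ => p.2.1 + p.2.2.1 + p.2.2.2.1 + p.2.2.2.2) hp
    simp only [Finset.mem_product, hA, Finset.mem_range]
    exact ⟨Finset.mem_image_of_mem _ hp, by omega, by omega, by omega, by omega⟩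
  refine (Finset.sum_le_sum_of_subset_of_nonneg hsub fun p _ _ => by positivity).trans ?_
  have h3 : ∑ p ∈ K ×ˢ (A ×ˢ (A ×ˢ (A ×ˢ A))), r ^ p.1 * (η ^ p.2.1 * (η ^ p.2.2.1 * (η ^ p.2.2.2.1 * η ^ p.2.2.2.2))) =
      (∑ k ∈ K, r ^ k) * ((∑ n ∈ A, η ^ n) * ((∑ n ∈ A, η ^ n) * ((∑ n ∈ A, η ^ n) * (∑ n ∈ A, η ^ n)))) := by
    simp only [Finset.sum_product, Finset.sum_mul_sum]
    simp only [Finset.mul_sum]
  rw [h3]
  have h4 : ∑ k ∈ K, r ^ k ≤ 2 * Q := geo_set hr hQ K fun k hk => by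
    obtain ⟨p, hp, rfl⟩ := Finset.mem_image.1 hk
    exact hP p hp
  have h5 : ∑ n ∈ A, η ^ n ≤ 1 / (1 - η) := geo_eta h0 h1 N
  have h6 : 0 ≤ ∑ n ∈ A, η ^ n := Finset.sum_nonneg fun n _ => pow_nonneg h0 n
  have h7 : 0 ≤ ∑ k ∈ K, r ^ k := Finset.sum_nonneg fun k _ => by positivity
  calc _ = (∑ k ∈ K, r ^ k) * (∑ n ∈ A, η ^ n) ^ 4 := by ring
    _ ≤ 2 * Q * (1 / (1 - η)) ^ 4 := mul_le_mul h4 (pow_le_pow_left₀ h6 h5 4) (by positivity) (by positivity)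

private theorem dy_log {r : ℝ} (hr : 0 < r) : (2 : ℝ) ^ (Int.log 2 r) ≤ r ∧ r < 2 * (2 : ℝ) ^ (Int.log 2 r) := by
  have h1 := Int.zpow_log_le_self (R := ℝ) (b := 2) (by norm_num) hr
  have h2 := Int.lt_zpow_succ_log_self (R := ℝ) (b := 2) (by norm_num) r
  rw [zpow_add₀ (by norm_num), zpow_one] at h2
  refine ⟨by simpa using h1, ?_⟩
  rw [mul_comm]
  simpa using h2

private theorem dy_log_nn {r : ℝ} (hr : 1 ≤ r) : 0 ≤ Int.log 2 r := by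
  by_contra h
  push Not at h
  have h1 := (dy_log (by linarith : 0 < r)).2
  have h2 : (2 : ℝ) ^ (Int.log 2 r) ≤ 2 ^ (-1 : ℤ) := zpow_le_zpow_right₀ (by norm_num) (by omega)
  norm_num at h2
  linarith

private theorem dy_A {d : ℕ} (hd : 1 ≤ d) (c0 k δ i j ω : ℕ) (hj : j ≤ i) :
    (((2 : ℝ) ^ k) ^ 2 * (1 / 2 ^ δ) * (1 / 2 ^ i) ^ 2 * (2 ^ c0 / 2 ^ ω) ^ 8) ^ d ≤
      2 ^ (8 * c0 * d) * (((4 : ℝ) ^ d) ^ k * ((49 / 50) ^ δ * ((49 / 50) ^ i * ((49 / 50) ^ j * (49 / 50) ^ ω)))) := by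
  have h1 : (((2 : ℝ) ^ k) ^ 2 * (1 / 2 ^ δ) * (1 / 2 ^ i) ^ 2 * (2 ^ c0 / 2 ^ ω) ^ 8) ^ d =
      2 ^ (8 * c0 * d) * (((4 : ℝ) ^ d) ^ k * ((1 / 2) ^ (δ + 2 * i + 8 * ω)) ^ d) := by
    have h2 : ((2 : ℝ) ^ k) ^ 2 * (1 / 2 ^ δ) * (1 / 2 ^ i) ^ 2 * (2 ^ c0 / 2 ^ ω) ^ 8 =
        2 ^ (8 * c0) * ((4 ^ k) * (1 / 2) ^ (δ + 2 * i + 8 * ω)) := by
      rw [show (4 : ℝ) = 2 ^ 2 by norm_num, pow_add, pow_add, one_div_pow, one_div_pow, one_div_pow, pow_mul', pow_mul',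
        pow_mul', ← pow_mul 2 2 k, mul_comm 2 k, pow_mul]
      field_simp
      rw [← mul_pow, ← mul_pow]
      norm_num
    rw [h2, mul_pow, mul_pow, ← pow_mul, ← pow_mul, ← pow_mul, mul_comm k d, pow_mul 4 d k]
  rw [h1]
  refine mul_le_mul_of_nonneg_left (mul_le_mul_of_nonneg_left ?_ (by positivity)) (by positivity)
  calc ((1 / 2 : ℝ) ^ (δ + 2 * i + 8 * ω)) ^ d ≤ ((1 / 2 : ℝ) ^ (δ + 2 * i + 8 * ω)) ^ 1 :=
        pow_le_pow_of_le_one (by positivity) (pow_le_one₀ (by norm_num) (by norm_num)) hd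
    _ = (1 / 2 : ℝ) ^ (δ + 2 * i + 8 * ω) := pow_one _
    _ ≤ (1 / 2 : ℝ) ^ (δ + (i + (j + ω))) := pow_le_pow_of_le_one (by norm_num) (by norm_num) (by omega)
    _ ≤ (49 / 50 : ℝ) ^ (δ + (i + (j + ω))) := pow_le_pow_left₀ (by norm_num) (by norm_num) _
    _ = _ := by rw [pow_add, pow_add, pow_add]

private theorem dy_B {d : ℕ} (hd : 1 ≤ d) (k s c : ℕ) (hs : s ≤ 4 * k + c) :
    (((2 : ℝ) ^ k) ^ (11 / 6 : ℝ)) ^ d ≤ (50 / 49) ^ c * (((4 : ℝ) ^ d) ^ k * (49 / 50) ^ s) := by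
  have h1 : ((2 : ℝ) ^ k) ^ (11 / 6 : ℝ) ≤ 4 ^ k * (49 / 50) ^ (4 * k) := by
    have h0 : (0 : ℝ) ≤ (2 : ℝ) ^ k := by positivity
    refine le_of_pow_le_pow_left₀ (n := 6) (by norm_num) (by positivity) ?_
    rw [← Real.rpow_natCast, ← Real.rpow_mul h0]
    rw [show (11 / 6 : ℝ) * ((6 : ℕ) : ℝ) = ((11 : ℕ) : ℝ) by norm_num, Real.rpow_natCast, ← pow_mul, mul_pow,
      ← pow_mul, ← pow_mul, show (4 : ℝ) = 2 ^ 2 by norm_num, ← pow_mul]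
    have h2 : (1 : ℝ) / 2 ≤ (49 / 50) ^ 24 := by norm_num
    have h3 : ((1 : ℝ) / 2) ^ k ≤ ((49 / 50) ^ 24) ^ k := pow_le_pow_left₀ (by norm_num) h2 k
    have h4 : (2 : ℝ) ^ (k * 11) = 2 ^ (2 * (k * 6)) * (1 / 2) ^ k := by
      rw [one_div_pow, show 2 * (k * 6) = k * 11 + k by ring, pow_add]
      field_simp
    rw [h4]
    refine mul_le_mul_of_nonneg_left (h3.trans (le_of_eq ?_)) (by positivity)
    rw [← pow_mul]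
    congr 1
    ring
  have h5 : (49 / 50 : ℝ) ^ (4 * k) ≤ (50 / 49) ^ c * (49 / 50) ^ s := by
    have h6 : (49 / 50 : ℝ) ^ (4 * k + c) ≤ (49 / 50) ^ s := pow_le_pow_of_le_one (by norm_num) (by norm_num) hs
    have h7 : (49 / 50 : ℝ) ^ (4 * k) = (50 / 49) ^ c * (49 / 50) ^ (4 * k + c) := by
      have h8 : (50 / 49 : ℝ) ^ c * (49 / 50) ^ c = 1 := by
        rw [← mul_pow]
        norm_num
      rw [pow_add]
      linear_combination (-(49 / 50 : ℝ) ^ (4 * k)) * h8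
    rw [h7]
    exact mul_le_mul_of_nonneg_left h6 (by positivity)
  calc (((2 : ℝ) ^ k) ^ (11 / 6 : ℝ)) ^ d ≤ (4 ^ k * (49 / 50) ^ (4 * k)) ^ d := pow_le_pow_left₀ (by positivity) h1 d
    _ = ((4 : ℝ) ^ d) ^ k * ((49 / 50) ^ (4 * k)) ^ d := by
        rw [mul_pow, ← pow_mul, mul_comm k d, pow_mul]
    _ ≤ ((4 : ℝ) ^ d) ^ k * ((49 / 50) ^ (4 * k)) ^ 1 :=
        mul_le_mul_of_nonneg_left (pow_le_pow_of_le_one (by positivity) (pow_le_one₀ (by norm_num) (by norm_num)) hd)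
          (by positivity)
    _ ≤ ((4 : ℝ) ^ d) ^ k * ((50 / 49) ^ c * (49 / 50) ^ s) := by
        rw [pow_one]
        exact mul_le_mul_of_nonneg_left h5 (by positivity)
    _ = _ := by ring

private theorem zp3 (a b c : ℤ) : (2 : ℝ) ^ (a + b + c) = 2 ^ a * 2 ^ b * 2 ^ c := by
  rw [zpow_add₀ (by norm_num), zpow_add₀ (by norm_num)]

theorem dyN {d : ℕ} (hd : 1 ≤ d) {κ C1 : ℝ} (hκ : 1 ≤ κ) (hC : 0 < C1) : ∃ C2 : ℝ, 0 < C2 ∧ ∀ R : ℝ, 1 ≤ R → ∀ (ι : Type) (S : Finset ι)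
    (T1 T2 : ι → ℝ) (l : ι → Fin 3 → ℝ),
    (∀ x ∈ S, Or (T1 x) (T2 x) (l x) ∧ (T1 x * T2 x) ^ (2 * d) ≤ κ * R ∧ l x 0 * l x 1 * l x 2 ≤ κ * (T1 x * T2 x) ∧ 1 ≤ κ * l x 0) →
    (∀ (t1 t2 : ℝ) (m : Fin 3 → ℝ), Or t1 t2 m → m 0 * m 1 * m 2 ≤ 32 * κ * (t1 * t2) → ∀ S' ⊆ S,
      (∀ x ∈ S', t1 ≤ T1 x ∧ t2 ≤ T2 x ∧ ∀ i, l x i ≤ m i) →
      (S'.card : ℝ) ≤ C1 * (((t1 * t2) ^ 2 * (t1 / t2) * (m 0 / m 2) ^ 2 * (m 0 * m 1 * m 2 / (t1 * t2)) ^ 8) ^ d +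
        ((t1 * t2) ^ (11 / 6 : ℝ)) ^ d)) → (S.card : ℝ) ≤ C2 * R := by
  obtain ⟨c0, hc0⟩ : ∃ c0 : ℕ, 32 * κ ≤ 2 ^ c0 := (pow_unbounded_of_one_lt (32 * κ) one_lt_two).imp fun _ h => h.le
  obtain ⟨c1, hc1⟩ : ∃ c1 : ℕ, κ ≤ 2 ^ c1 := (pow_unbounded_of_one_lt κ one_lt_two).imp fun _ h => h.le
  refine ⟨C1 * (2 ^ (8 * c0 * d) + (50 / 49) ^ (3 * c0 + 9 * c1)) * (2 * κ * 50 ^ 4), by positivity, ?_⟩
  intro R hR ι S T1 T2 l hS hbox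
  classical
  let a1 : ι → ℤ := fun x => Int.log 2 (T1 x)
  let a2 : ι → ℤ := fun x => Int.log 2 (T2 x)
  let e : ι → Fin 3 → ℤ := fun x i => Int.log 2 (l x i) + 1
  let code : ι → ℕ × ℕ × ℕ × ℕ × ℕ := fun x => ((a1 x + a2 x).toNat, (a2 x - a1 x).toNat, (e x 2 - e x 0).toNat,
    (e x 1 - e x 0).toNat, ((c0 : ℤ) + a1 x + a2 x - e x 0 - e x 1 - e x 2).toNat)
  have hT : ∀ x ∈ S, (0 ≤ a1 x ∧ a1 x ≤ a2 x ∧ e x 0 ≤ e x 1 ∧ e x 1 ≤ e x 2 ∧ -(c1 : ℤ) ≤ e x 0 ∧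
      e x 0 + e x 1 + e x 2 ≤ c0 + a1 x + a2 x) ∧ ((2 : ℝ) ^ (a1 x) ≤ T1 x ∧ (2 : ℝ) ^ (a2 x) ≤ T2 x ∧
      (∀ i, l x i ≤ (2 : ℝ) ^ (e x i)) ∧
      (2 : ℝ) ^ (e x 0) * (2 : ℝ) ^ (e x 1) * (2 : ℝ) ^ (e x 2) ≤ 32 * κ * ((2 : ℝ) ^ (a1 x) * (2 : ℝ) ^ (a2 x)) ∧
      ((2 : ℝ) ^ (a1 x) * (2 : ℝ) ^ (a2 x)) ^ (2 * d) ≤ κ * R) := by
    intro x hx
    obtain ⟨hO, h1, h2, h3⟩ := hS x hx
    have p1 : 0 < T1 x := lt_of_lt_of_le one_pos hO.t1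
    have p2 : 0 < T2 x := lt_of_lt_of_le p1 hO.t2
    have q0 := hO.l0
    have q1 : 0 < l x 1 := lt_of_lt_of_le q0 hO.l1
    have q2 : 0 < l x 2 := lt_of_lt_of_le q1 hO.l2
    have L1 := dy_log p1
    have L2 := dy_log p2
    have z : ∀ i, 0 < l x i → (l x i ≤ (2 : ℝ) ^ (e x i) ∧ (2 : ℝ) ^ (e x i) ≤ 2 * l x i) := by
      intro i hi
      have h := dy_log hi
      simp only [e]
      rw [zpow_add₀ (by norm_num), zpow_one]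
      constructor <;> linarith [h.1, h.2]
    have z0 := z 0 q0
    have z1 := z 1 q1
    have z2 := z 2 q2
    have P1 : (0 : ℝ) < (2 : ℝ) ^ (a1 x) := by positivity
    have P2 : (0 : ℝ) < (2 : ℝ) ^ (a2 x) := by positivity
    have U0 : (0 : ℝ) < (2 : ℝ) ^ (e x 0) := by positivity
    have U1 : (0 : ℝ) < (2 : ℝ) ^ (e x 1) := by positivity
    have U2 : (0 : ℝ) < (2 : ℝ) ^ (e x 2) := by positivity
    have hprod : (2 : ℝ) ^ (e x 0) * (2 : ℝ) ^ (e x 1) * (2 : ℝ) ^ (e x 2) ≤ 32 * κ * ((2 : ℝ) ^ (a1 x) * (2 : ℝ) ^ (a2 x)) := by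
      have s1 : (2 : ℝ) ^ (e x 0) * (2 : ℝ) ^ (e x 1) * (2 : ℝ) ^ (e x 2) ≤ (2 * l x 0) * (2 * l x 1) * (2 * l x 2) :=
        mul_le_mul (mul_le_mul z0.2 z1.2 U1.le (by positivity)) z2.2 U2.le (by positivity)
      have s2 : T1 x * T2 x ≤ (2 * (2 : ℝ) ^ (a1 x)) * (2 * (2 : ℝ) ^ (a2 x)) :=
        mul_le_mul L1.2.le L2.2.le p2.le (by positivity)
      have s3 : κ * (T1 x * T2 x) ≤ κ * ((2 * (2 : ℝ) ^ (a1 x)) * (2 * (2 : ℝ) ^ (a2 x))) :=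
        mul_le_mul_of_nonneg_left s2 (by linarith)
      nlinarith [s1, s3, h2]
    refine ⟨⟨dy_log_nn hO.t1, Int.log_mono_right p1 hO.t2, ?_, ?_, ?_, ?_⟩, L1.1, L2.1, ?_, hprod, ?_⟩
    · exact add_le_add_left (Int.log_mono_right q0 hO.l1) 1
    · exact add_le_add_left (Int.log_mono_right q1 hO.l2) 1
    · have h4 : (2 : ℝ) ^ (-(c1 : ℤ)) ≤ (2 : ℝ) ^ (e x 0) := by
        refine le_trans ?_ z0.1
        rw [zpow_neg, zpow_natCast, inv_le_iff_one_le_mul₀ (by positivity), mul_comm]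
        exact h3.trans (mul_le_mul_of_nonneg_right hc1 q0.le)
      exact (zpow_le_zpow_iff_right₀ (by norm_num : (1 : ℝ) < 2)).1 h4
    · have h4 : (2 : ℝ) ^ (e x 0 + e x 1 + e x 2) ≤ (2 : ℝ) ^ ((c0 : ℤ) + a1 x + a2 x) := by
        rw [zp3, zp3, zpow_natCast, mul_assoc ((2 : ℝ) ^ c0)]
        exact hprod.trans (mul_le_mul_of_nonneg_right hc0 (by positivity))
      exact (zpow_le_zpow_iff_right₀ (by norm_num : (1 : ℝ) < 2)).1 h4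
    · intro i
      fin_cases i
      · exact z0.1
      · exact z1.1
      · exact z2.1
    · refine le_trans (pow_le_pow_left₀ (by positivity) ?_ _) h1
      exact mul_le_mul L1.1 L2.1 P2.le p1.le
  have hfib : ∀ p ∈ S.image code, ((S.filter fun x => code x = p).card : ℝ) ≤
      C1 * (2 ^ (8 * c0 * d) + (50 / 49) ^ (3 * c0 + 9 * c1)) *
        (((4 : ℝ) ^ d) ^ p.1 * ((49 / 50) ^ p.2.1 * ((49 / 50) ^ p.2.2.1 * ((49 / 50) ^ p.2.2.2.1 * (49 / 50) ^ p.2.2.2.2)))) ∧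
      ((4 : ℝ) ^ d) ^ p.1 ≤ κ * R := by
    intro p hp
    obtain ⟨x0, hx0, rfl⟩ := Finset.mem_image.1 hp
    obtain ⟨⟨g1, g2, g3, g4, g5, g6⟩, k1, k2, k3, k4, k5⟩ := hT x0 hx0
    obtain ⟨k, hk⟩ : ∃ k : ℕ, a1 x0 + a2 x0 = k := ⟨(a1 x0 + a2 x0).toNat, by omega⟩
    obtain ⟨δ, hδ⟩ : ∃ k : ℕ, a2 x0 - a1 x0 = k := ⟨(a2 x0 - a1 x0).toNat, by omega⟩
    obtain ⟨i, hi⟩ : ∃ k : ℕ, e x0 2 - e x0 0 = k := ⟨(e x0 2 - e x0 0).toNat, by omega⟩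
    obtain ⟨j, hj⟩ : ∃ k : ℕ, e x0 1 - e x0 0 = k := ⟨(e x0 1 - e x0 0).toNat, by omega⟩
    obtain ⟨ω, hω⟩ : ∃ k : ℕ, (c0 : ℤ) + a1 x0 + a2 x0 - e x0 0 - e x0 1 - e x0 2 = k :=
      ⟨((c0 : ℤ) + a1 x0 + a2 x0 - e x0 0 - e x0 1 - e x0 2).toNat, by omega⟩
    have hcode : code x0 = (k, δ, i, j, ω) := by
      simp only [code, hk, hδ, hi, hj, hω, Int.toNat_natCast]
    have E1 : (2 : ℝ) ^ (a1 x0) * (2 : ℝ) ^ (a2 x0) = 2 ^ k := by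
      rw [← zpow_add₀ (by norm_num), hk, zpow_natCast]
    have E2 : (2 : ℝ) ^ (a1 x0) / (2 : ℝ) ^ (a2 x0) = 1 / 2 ^ δ := by
      rw [← zpow_sub₀ (by norm_num), show a1 x0 - a2 x0 = -(δ : ℤ) by omega, zpow_neg, zpow_natCast, one_div]
    have E3 : (2 : ℝ) ^ (e x0 0) / (2 : ℝ) ^ (e x0 2) = 1 / 2 ^ i := by
      rw [← zpow_sub₀ (by norm_num), show e x0 0 - e x0 2 = -(i : ℤ) by omega, zpow_neg, zpow_natCast, one_div]
    have E4 : (2 : ℝ) ^ (e x0 0) * (2 : ℝ) ^ (e x0 1) * (2 : ℝ) ^ (e x0 2) / 2 ^ k = 2 ^ c0 / 2 ^ ω := by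
      rw [← zp3, ← zpow_natCast, ← zpow_natCast, ← zpow_natCast, ← zpow_sub₀ (by norm_num), ← zpow_sub₀ (by norm_num)]
      congr 1
      omega
    rw [hcode]
    dsimp only
    refine ⟨?_, ?_⟩
    · have hb := hbox ((2 : ℝ) ^ (a1 x0)) ((2 : ℝ) ^ (a2 x0)) (fun i => (2 : ℝ) ^ (e x0 i))
        ⟨one_le_zpow₀ (by norm_num) g1, zpow_le_zpow_right₀ (by norm_num) g2, by positivity,
          zpow_le_zpow_right₀ (by norm_num) g3, zpow_le_zpow_right₀ (by norm_num) g4⟩ k4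
        (S.filter fun x => code x = (k, δ, i, j, ω)) (Finset.filter_subset _ _) (by
          intro x hx
          rw [Finset.mem_filter] at hx
          obtain ⟨⟨g1', g2', g3', g4', g5', g6'⟩, k1', k2', k3', k4', k5'⟩ := hT x hx.1
          have hx2 := hx.2
          simp only [code, Prod.mk.injEq] at hx2
          obtain ⟨r1, r2, r3, r4, r5⟩ := hx2
          have u1 : a1 x = a1 x0 := by omega
          have u2 : a2 x = a2 x0 := by omega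
          have v0 : e x 0 = e x0 0 := by omega
          have v1 : e x 1 = e x0 1 := by omega
          have v2 : e x 2 = e x0 2 := by omega
          refine ⟨by rw [← u1]; exact k1', by rw [← u2]; exact k2', ?_⟩
          intro i
          fin_cases i
          · change l x 0 ≤ (2 : ℝ) ^ (e x0 0)
            rw [← v0]
            exact k3' 0
          · change l x 1 ≤ (2 : ℝ) ^ (e x0 1)
            rw [← v1]
            exact k3' 1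
          · change l x 2 ≤ (2 : ℝ) ^ (e x0 2)
            rw [← v2]
            exact k3' 2)
      simp only [E1, E2, E3, E4] at hb
      have hA := dy_A hd c0 k δ i j ω (by omega)
      have hB := dy_B hd k (δ + (i + (j + ω))) (3 * c0 + 9 * c1) (by omega)
      rw [pow_add (49 / 50 : ℝ) δ, pow_add (49 / 50 : ℝ) i, pow_add (49 / 50 : ℝ) j] at hB
      refine hb.trans ?_
      rw [mul_assoc C1]
      refine mul_le_mul_of_nonneg_left ?_ hC.le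
      rw [add_mul]
      exact add_le_add hA hB
    · rw [E1, ← pow_mul] at k5
      rw [← pow_mul, show (4 : ℝ) = 2 ^ 2 by norm_num, ← pow_mul, show 2 * (d * k) = k * (2 * d) by ring]
      exact k5
  have hcard : (S.card : ℝ) = ∑ p ∈ S.image code, ((S.filter fun x => code x = p).card : ℝ) := by
    rw [Finset.card_eq_sum_card_image code S]
    push_cast
    rfl
  rw [hcard]
  have h4d : (2 : ℝ) ≤ 4 ^ d := by
    calc (2 : ℝ) ≤ 4 ^ 1 := by norm_num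
      _ ≤ 4 ^ d := pow_le_pow_right₀ (by norm_num) hd
  have hsum := dy_sum (r := (4 : ℝ) ^ d) (Q := κ * R) (η := 49 / 50) h4d (by positivity) (by norm_num) (by norm_num)
    (S.image code) fun p hp => (hfib p hp).2
  calc ∑ p ∈ S.image code, ((S.filter fun x => code x = p).card : ℝ) ≤ ∑ p ∈ S.image code,
        C1 * (2 ^ (8 * c0 * d) + (50 / 49) ^ (3 * c0 + 9 * c1)) * (((4 : ℝ) ^ d) ^ p.1 *
          ((49 / 50) ^ p.2.1 * ((49 / 50) ^ p.2.2.1 * ((49 / 50) ^ p.2.2.2.1 * (49 / 50) ^ p.2.2.2.2)))) :=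
        Finset.sum_le_sum fun p hp => (hfib p hp).1
    _ = C1 * (2 ^ (8 * c0 * d) + (50 / 49) ^ (3 * c0 + 9 * c1)) * ∑ p ∈ S.image code, (((4 : ℝ) ^ d) ^ p.1 *
          ((49 / 50) ^ p.2.1 * ((49 / 50) ^ p.2.2.1 * ((49 / 50) ^ p.2.2.2.1 * (49 / 50) ^ p.2.2.2.2)))) := by
        rw [Finset.mul_sum]
    _ ≤ C1 * (2 ^ (8 * c0 * d) + (50 / 49) ^ (3 * c0 + 9 * c1)) * (2 * (κ * R) * (1 / (1 - 49 / 50)) ^ 4) :=
        mul_le_mul_of_nonneg_left hsum (by positivity)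
    _ = _ := by
        rw [show (1 / (1 - 49 / 50) : ℝ) = 50 by norm_num]
        ring

theorem dyO {d : ℕ} (hd : 1 ≤ d) {κ C1 : ℝ} (hκ : 1 ≤ κ) (hC : 0 < C1) : ∃ C2 : ℝ, 0 < C2 ∧ ∀ R : ℝ, 1 ≤ R → ∀ (ι : Type) (S : Finset ι)
    (T1 T2 : ι → ℝ), (∀ x ∈ S, 1 ≤ T1 x ∧ T1 x ≤ T2 x ∧ (T1 x * T2 x) ^ (2 * d) ≤ κ * R) →
    (∀ (t1 t2 : ℝ), 1 ≤ t1 → t1 ≤ t2 → ∀ S' ⊆ S, (∀ x ∈ S', t1 ≤ T1 x ∧ T1 x ≤ 2 * t1 ∧ t2 ≤ T2 x ∧ T2 x ≤ 2 * t2) →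
      (S'.card : ℝ) ≤ C1 * ((t1 * t2) ^ 2 * (t1 / t2)) ^ d) → (S.card : ℝ) ≤ C2 * R := by
  refine ⟨C1 * (2 * κ * 50 ^ 4), by positivity, ?_⟩
  intro R hR ι S T1 T2 hS hbox
  classical
  let a1 : ι → ℤ := fun x => Int.log 2 (T1 x)
  let a2 : ι → ℤ := fun x => Int.log 2 (T2 x)
  let code : ι → ℕ × ℕ × ℕ × ℕ × ℕ := fun x => ((a1 x + a2 x).toNat, (a2 x - a1 x).toNat, 0, 0, 0)
  have hT : ∀ x ∈ S, (0 ≤ a1 x ∧ a1 x ≤ a2 x) ∧ ((2 : ℝ) ^ (a1 x) ≤ T1 x ∧ T1 x ≤ 2 * (2 : ℝ) ^ (a1 x) ∧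
      (2 : ℝ) ^ (a2 x) ≤ T2 x ∧ T2 x ≤ 2 * (2 : ℝ) ^ (a2 x) ∧
      ((2 : ℝ) ^ (a1 x) * (2 : ℝ) ^ (a2 x)) ^ (2 * d) ≤ κ * R) := by
    intro x hx
    obtain ⟨h1, h2, h3⟩ := hS x hx
    have p1 : 0 < T1 x := lt_of_lt_of_le one_pos h1
    have p2 : 0 < T2 x := lt_of_lt_of_le p1 h2
    have L1 := dy_log p1
    have L2 := dy_log p2
    refine ⟨⟨dy_log_nn h1, Int.log_mono_right p1 h2⟩, L1.1, L1.2.le, L2.1, L2.2.le, ?_⟩
    exact le_trans (pow_le_pow_left₀ (by positivity) (mul_le_mul L1.1 L2.1 (by positivity) p1.le) _) h3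
  have hfib : ∀ p ∈ S.image code, ((S.filter fun x => code x = p).card : ℝ) ≤
      C1 * (((4 : ℝ) ^ d) ^ p.1 * ((49 / 50) ^ p.2.1 * ((49 / 50) ^ p.2.2.1 * ((49 / 50) ^ p.2.2.2.1 *
        (49 / 50) ^ p.2.2.2.2)))) ∧ ((4 : ℝ) ^ d) ^ p.1 ≤ κ * R := by
    intro p hp
    obtain ⟨x0, hx0, rfl⟩ := Finset.mem_image.1 hp
    obtain ⟨⟨g1, g2⟩, k1, k2, k3, k4, k5⟩ := hT x0 hx0
    obtain ⟨k, hk⟩ : ∃ k : ℕ, a1 x0 + a2 x0 = k := ⟨(a1 x0 + a2 x0).toNat, by omega⟩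
    obtain ⟨δ, hδ⟩ : ∃ k : ℕ, a2 x0 - a1 x0 = k := ⟨(a2 x0 - a1 x0).toNat, by omega⟩
    have hcode : code x0 = (k, δ, 0, 0, 0) := by
      simp only [code, hk, hδ, Int.toNat_natCast]
    have E1 : (2 : ℝ) ^ (a1 x0) * (2 : ℝ) ^ (a2 x0) = 2 ^ k := by
      rw [← zpow_add₀ (by norm_num), hk, zpow_natCast]
    have E2 : (2 : ℝ) ^ (a1 x0) / (2 : ℝ) ^ (a2 x0) = 1 / 2 ^ δ := by
      rw [← zpow_sub₀ (by norm_num), show a1 x0 - a2 x0 = -(δ : ℤ) by omega, zpow_neg, zpow_natCast, one_div]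
    rw [hcode]
    dsimp only
    refine ⟨?_, ?_⟩
    · have hb := hbox ((2 : ℝ) ^ (a1 x0)) ((2 : ℝ) ^ (a2 x0)) (one_le_zpow₀ (by norm_num) g1)
        (zpow_le_zpow_right₀ (by norm_num) g2) (S.filter fun x => code x = (k, δ, 0, 0, 0)) (Finset.filter_subset _ _) (by
          intro x hx
          rw [Finset.mem_filter] at hx
          obtain ⟨⟨g1', g2'⟩, k1', k2', k3', k4', k5'⟩ := hT x hx.1
          have hx2 := hx.2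
          simp only [code, Prod.mk.injEq] at hx2
          obtain ⟨r1, r2, -⟩ := hx2
          have u1 : a1 x = a1 x0 := by omega
          have u2 : a2 x = a2 x0 := by omega
          rw [← u1, ← u2]
          exact ⟨k1', k2', k3', k4'⟩)
      rw [E1, E2] at hb
      have hA := dy_A hd 0 k δ 0 0 0 le_rfl
      simp only [pow_zero, mul_one, div_one, one_pow, mul_zero, zero_mul, one_mul] at hA ⊢
      exact hb.trans (mul_le_mul_of_nonneg_left hA hC.le)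
    · rw [E1, ← pow_mul] at k5
      rw [← pow_mul, show (4 : ℝ) = 2 ^ 2 by norm_num, ← pow_mul, show 2 * (d * k) = k * (2 * d) by ring]
      exact k5
  have hcard : (S.card : ℝ) = ∑ p ∈ S.image code, ((S.filter fun x => code x = p).card : ℝ) := by
    rw [Finset.card_eq_sum_card_image code S]
    push_cast
    rfl
  rw [hcard]
  have h4d : (2 : ℝ) ≤ 4 ^ d := by
    calc (2 : ℝ) ≤ 4 ^ 1 := by norm_num
      _ ≤ 4 ^ d := pow_le_pow_right₀ (by norm_num) hd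
  have hsum := dy_sum (r := (4 : ℝ) ^ d) (Q := κ * R) (η := 49 / 50) h4d (by positivity) (by norm_num) (by norm_num)
    (S.image code) fun p hp => (hfib p hp).2
  calc ∑ p ∈ S.image code, ((S.filter fun x => code x = p).card : ℝ) ≤ ∑ p ∈ S.image code,
        C1 * (((4 : ℝ) ^ d) ^ p.1 *
          ((49 / 50) ^ p.2.1 * ((49 / 50) ^ p.2.2.1 * ((49 / 50) ^ p.2.2.2.1 * (49 / 50) ^ p.2.2.2.2)))) :=
        Finset.sum_le_sum fun p hp => (hfib p hp).1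
    _ = C1 * ∑ p ∈ S.image code, (((4 : ℝ) ^ d) ^ p.1 *
          ((49 / 50) ^ p.2.1 * ((49 / 50) ^ p.2.2.1 * ((49 / 50) ^ p.2.2.2.1 * (49 / 50) ^ p.2.2.2.2)))) := by
        rw [Finset.mul_sum]
    _ ≤ C1 * (2 * (κ * R) * (1 / (1 - 49 / 50)) ^ 4) :=
        mul_le_mul_of_nonneg_left hsum hC.le
    _ = _ := by
        rw [show (1 / (1 - 49 / 50) : ℝ) = 50 by norm_num]
        ring

end H88.SW
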