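import Pool.Agent.H88.SW.TbC

/-!
# [H88 SW RED] Reduction of an item (75 min)

Model: `red_data` in `H88/A4/RFin.lean`. `tb_ex`: `T1, T2, t1, t2, p, q, m` with `κ0`. `(a) = J ^ 2`, `L = J⁻¹`, weights `w φ = √‖φ a‖` (positive, invariant under conjugation). `mink K`: `x`, `l 0 ≤ l 1 ≤ l 2`, `x i ∈ L`, `w φ ‖φ (x i)‖ ≤ l i`, `(l 0 l 1 l 2) ^ d ≤ C √|disc F| N(L) ∏ w = C √|disc F|` (`∏ w = √|N a|`, `|N a| = N(J) ^ 2`,
as `prod_one` in RFin.lean). `y i j = a x i x j`: integral (`x i x j ∈ J⁻²`, `a J⁻² = 1`), `‖φ (y i j)‖ ≤ l i l j`. `B i j`, `C i j` the elements of `𝓞 K` with values `m p (y i j)`, `m q (y i j)` (`Tb.int`), sizes `m κ0 l i l j / T1 ≤ κ0 ^ 2 l i l j / T1` (`Tb.siz` with `Y = l i l j`). `Rp a`: functionals `m • p`, `m • q` (vanish at `1`, linearly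
independent: values `(m, 0)`, `(0, m)` at `t1`, `t2`), basis `x`. `l 0 l 1 l 2 ≤ κ T1 T2`: `(l 0 l 1 l 2) ^ d ≤ C √|disc F| ≤ C √κ0 (T1 T2) ^ d` (`Tb.du`), `d`-th roots (`C √κ0 ≤ (C √κ0 + 1) ^ d`). `(T1 T2) ^ (2 d) ≤ κ |disc F|`: `Tb.dl`.
-/

set_option autoImplicit false

open scoped NumberField nonZeroDivisors Matrix
open H88.A4 Pool.Agent.H67.WA

noncomputable section

namespace H88.SW

private theorem red_prod_norm {F : Type} [Field F] [NumberField F] (x : F) :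
    ∏ φ : F →+* ℂ, ‖φ x‖ = |((Algebra.norm ℚ x : ℚ) : ℝ)| := by
  have h := Algebra.norm_eq_prod_embeddings ℚ ℂ x
  have h2 : ‖(algebraMap ℚ ℂ) (Algebra.norm ℚ x)‖ = ∏ σ : F →ₐ[ℚ] ℂ, ‖σ x‖ := by
    rw [h, norm_prod]
  have h3 : ∏ φ : F →+* ℂ, ‖φ x‖ = ∏ σ : F →ₐ[ℚ] ℂ, ‖σ x‖ :=
    Fintype.prod_equiv (RingHom.equivRatAlgHom F ℂ) _ _ (fun φ => rfl)
  rw [h3, ← h2, eq_ratCast, Complex.norm_ratCast]

private theorem red_prod_one {F : Type} [Field F] [NumberField F] {a : F} (ha : a ≠ 0)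
    {J : FractionalIdeal (𝓞 F)⁰ F} (h : FractionalIdeal.spanSingleton (𝓞 F)⁰ a = J ^ 2) :
    ((FractionalIdeal.absNorm J⁻¹ : ℚ) : ℝ) * ∏ φ : F →+* ℂ, Real.sqrt ‖φ a‖ = 1 := by
  have h1 : (FractionalIdeal.absNorm J) ^ 2 = |Algebra.norm ℚ a| := by
    rw [← map_pow, ← h, FractionalIdeal.absNorm_span_singleton]
  have h2 : ((FractionalIdeal.absNorm J : ℚ) : ℝ) ^ 2 = ∏ φ : F →+* ℂ, ‖φ a‖ := by
    rw [red_prod_norm]
    exact_mod_cast h1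
  have hJ : J ≠ 0 := by
    rintro rfl
    rw [zero_pow two_ne_zero, FractionalIdeal.spanSingleton_eq_zero_iff] at h
    exact ha h
  have h3 : (0 : ℝ) < ((FractionalIdeal.absNorm J : ℚ) : ℝ) := by
    have : (0 : ℚ) ≤ FractionalIdeal.absNorm J := FractionalIdeal.absNorm_nonneg J
    have h4 : FractionalIdeal.absNorm J ≠ 0 := by
      rw [Ne, FractionalIdeal.absNorm_eq_zero_iff]
      exact hJ
    exact_mod_cast lt_of_le_of_ne this (Ne.symm h4)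
  have h5 : (∏ φ : F →+* ℂ, Real.sqrt ‖φ a‖) ^ 2 = ∏ φ : F →+* ℂ, ‖φ a‖ := by
    rw [← Finset.prod_pow]
    exact Finset.prod_congr rfl fun φ _ => Real.sq_sqrt (norm_nonneg _)
  have h6 : (0 : ℝ) ≤ ∏ φ : F →+* ℂ, Real.sqrt ‖φ a‖ :=
    Finset.prod_nonneg fun φ _ => Real.sqrt_nonneg _
  have h7 : ∏ φ : F →+* ℂ, Real.sqrt ‖φ a‖ = ((FractionalIdeal.absNorm J : ℚ) : ℝ) := by
    rw [← h2] at h5
    exact (pow_left_inj₀ h6 h3.le two_ne_zero).1 h5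
  rw [h7, map_inv₀]
  push_cast
  exact inv_mul_cancel₀ h3.ne'

private theorem red_le_of_pow (d : ℕ) (hd : 0 < d) {x y C1 : ℝ} (hx : 0 ≤ x) (hy : 0 ≤ y)
    (h : x ^ d ≤ C1 * y ^ d) : x ≤ max 1 C1 * y := by
  have h1 : C1 ≤ (max 1 C1) ^ d := by
    have : max 1 C1 ≤ (max 1 C1) ^ d := le_self_pow₀ (le_max_left _ _) hd.ne'
    exact (le_max_right _ _).trans this
  have h2 : x ^ d ≤ (max 1 C1 * y) ^ d := by
    rw [mul_pow]
    exact h.trans (mul_le_mul_of_nonneg_right h1 (pow_nonneg hy d))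
  exact (pow_le_pow_iff_left₀ hx (mul_nonneg (zero_le_one.trans (le_max_left _ _)) hy) hd.ne').1 h2

private theorem red_int {F : Type} [Field F] [NumberField F] {a : F} (ha : a ≠ 0)
    {J : FractionalIdeal (𝓞 F)⁰ F} (h : FractionalIdeal.spanSingleton (𝓞 F)⁰ a = J ^ 2) {x y : F}
    (hx : x ∈ J⁻¹) (hy : y ∈ J⁻¹) : IsIntegral ℤ (a * x * y) := by
  have hJ : J ≠ 0 := by
    rintro rfl
    rw [zero_pow two_ne_zero, FractionalIdeal.spanSingleton_eq_zero_iff] at h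
    exact ha h
  have h1 : a * x * y ∈ J ^ 2 * J⁻¹ * J⁻¹ := by
    refine FractionalIdeal.mul_mem_mul (FractionalIdeal.mul_mem_mul ?_ hx) hy
    rw [← h]
    exact FractionalIdeal.mem_spanSingleton_self _ _
  have h2 : J ^ 2 * J⁻¹ * J⁻¹ = 1 := by
    rw [sq, mul_assoc J J, mul_inv_cancel₀ hJ, mul_one, mul_inv_cancel₀ hJ]
  rw [h2, FractionalIdeal.mem_one_iff] at h1
  obtain ⟨z, hz⟩ := h1
  rw [← hz]
  exact z.isIntegral_coe

private theorem red_li {K F : Type} [Field K] [Field F] [Algebra K F] {t1 t2 : F} {p q : F →ₗ[K] K} {m : K}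
    (hm : m ≠ 0) (h1 : p t1 = 1) (h2 : q t1 = 0) (h3 : p t2 = 0) (h4 : q t2 = 1) :
    LinearIndependent K ![m • p, m • q] := by
  rw [LinearIndependent.pair_iff]
  intro s t hst
  have e1 := LinearMap.congr_fun hst t1
  have e2 := LinearMap.congr_fun hst t2
  simp only [LinearMap.add_apply, LinearMap.smul_apply, LinearMap.zero_apply, smul_eq_mul, h1, h2, h3, h4,
    mul_one, mul_zero, add_zero, zero_add] at e1 e2
  exact ⟨(mul_eq_zero.1 e1).resolve_right hm, (mul_eq_zero.1 e2).resolve_right hm⟩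

theorem red (K : Type) [Field K] [NumberField K] : ∃ κ : ℝ, 1 ≤ κ ∧ ∀ (F : Type) [Field F] [NumberField F] [Algebra K F],
    Module.finrank K F = 3 → ∀ a : F, a ≠ 0 → (∃ J : FractionalIdeal (𝓞 F)⁰ F, FractionalIdeal.spanSingleton (𝓞 F)⁰ a = J ^ 2) →
      ∃ (T1 T2 : ℝ) (l : Fin 3 → ℝ) (B C : M3 (𝓞 K)), Or T1 T2 l ∧ Rp a (mK B) (mK C) ∧ Bx κ T1 T2 l B C ∧
        (T1 * T2) ^ (2 * Module.finrank ℚ K) ≤ κ * |(NumberField.discr F : ℝ)| ∧ l 0 * l 1 * l 2 ≤ κ * (T1 * T2) := by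
  obtain ⟨κ0, hκ0, htb⟩ := tb_ex K
  obtain ⟨C0, hC0, hmk⟩ := mink K
  have hd0 : 0 < Module.finrank ℚ K := Module.finrank_pos
  obtain ⟨c1, hc1⟩ : ∃ c1, c1 = max 1 (C0 * Real.sqrt κ0) := ⟨_, rfl⟩
  have hc1' : 1 ≤ c1 := by
    rw [hc1]
    exact le_max_left _ _
  have hκ00 : 0 ≤ κ0 := by linarith
  have hκsq : κ0 ≤ κ0 ^ 2 := by nlinarith
  refine ⟨κ0 ^ 2 + c1, by nlinarith, fun F _ _ _ hF a ha hJ => ?_⟩
  obtain ⟨J, hJ⟩ := hJ
  obtain ⟨T1, T2, t1, t2, p, q, m, hT⟩ := htb F hF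
  have hT1 : 0 < T1 := lt_of_lt_of_le one_pos hT.one
  have hT2 : 0 < T2 := hT1.trans_le hT.le
  have hJ0 : J ≠ 0 := by
    rintro rfl
    rw [zero_pow two_ne_zero, FractionalIdeal.spanSingleton_eq_zero_iff] at hJ
    exact ha hJ
  have hw0 : ∀ φ : F →+* ℂ, 0 < ‖φ a‖ := fun φ => norm_pos_iff.2 ((map_ne_zero φ).2 ha)
  obtain ⟨x, l, hx, hxL, hl0, hl01, hl12, hlx, hprod⟩ := hmk F hF (fun φ => Real.sqrt ‖φ a‖)
    (fun φ => Real.sqrt_pos.2 (hw0 φ))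
    (fun φ => by
      rw [NumberField.ComplexEmbedding.conjugate_coe_eq, RCLike.norm_conj]) J⁻¹
    (inv_ne_zero hJ0)
  have hl1 : 0 < l 1 := hl0.trans_le hl01
  have hl2 : 0 < l 2 := hl1.trans_le hl12
  have hlp : ∀ i, 0 < l i := by
    intro i
    fin_cases i
    · exact hl0
    · exact hl1
    · exact hl2
  rw [mul_assoc (C0 * _), red_prod_one ha hJ, mul_one] at hprod
  have hmpos : (1 : ℝ) ≤ (m : ℝ) := by exact_mod_cast hT.m1
  have hmK : (m : K) ≠ 0 := by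
    have := hT.m1
    exact_mod_cast (by omega : m ≠ 0)
  -- the size of `a x_i x_j`
  have hsz : ∀ i j (φ : F →+* ℂ), ‖φ (a * x i * x j)‖ ≤ l i * l j := by
    intro i j φ
    have h8 : ‖φ (a * x i * x j)‖ =
        (Real.sqrt ‖φ a‖ * ‖φ (x i)‖) * (Real.sqrt ‖φ a‖ * ‖φ (x j)‖) := by
      rw [map_mul, map_mul, norm_mul, norm_mul]
      have := Real.mul_self_sqrt (norm_nonneg (φ a))
      calc ‖φ a‖ * ‖φ (x i)‖ * ‖φ (x j)‖ =
            (Real.sqrt ‖φ a‖ * Real.sqrt ‖φ a‖) * ‖φ (x i)‖ * ‖φ (x j)‖ := by rw [this]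
        _ = _ := by ring
    rw [h8]
    have h9 : 0 ≤ Real.sqrt ‖φ a‖ * ‖φ (x i)‖ := by positivity
    exact mul_le_mul (hlx i φ) (hlx j φ) (by positivity) (h9.trans (hlx i φ))
  have hint : ∀ i j, IsIntegral ℤ (a * x i * x j) := fun i j => red_int ha hJ (hxL i) (hxL j)
  have hB : ∀ i j, ∃ z : 𝓞 K, (z : K) = (m : K) * p (a * x i * x j) := fun i j =>
    ⟨⟨_, (hT.int _ (hint i j)).1⟩, rfl⟩
  have hC : ∀ i j, ∃ z : 𝓞 K, (z : K) = (m : K) * q (a * x i * x j) := fun i j =>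
    ⟨⟨_, (hT.int _ (hint i j)).2⟩, rfl⟩
  choose B hB using hB
  choose C hC using hC
  have hbd : ∀ (T : ℝ) (r : F → K), 0 < T → (∀ (y : F) (Y : ℝ), (∀ φ : F →+* ℂ, ‖φ y‖ ≤ Y) →
      ∀ ψ : K →+* ℂ, ‖ψ (r y)‖ ≤ κ0 * Y / T) → ∀ i j (z : 𝓞 K), (z : K) = (m : K) * r (a * x i * x j) →
      Bd ((κ0 ^ 2 + c1) * (l i * l j) / T) z := by
    intro T r hT0 hr i j z hz ψ
    rw [hz, map_mul, norm_mul, map_natCast, Complex.norm_natCast]
    have h1 := hr _ _ (hsz i j) ψ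
    have hpp := mul_pos (hlp i) (hlp j)
    calc (m : ℝ) * ‖ψ (r (a * x i * x j))‖ ≤ κ0 * (κ0 * (l i * l j) / T) :=
          mul_le_mul hT.mle h1 (norm_nonneg _) hκ00
      _ = κ0 ^ 2 * (l i * l j) / T := by ring
      _ ≤ (κ0 ^ 2 + c1) * (l i * l j) / T := by
        refine div_le_div_of_nonneg_right (mul_le_mul_of_nonneg_right ?_ hpp.le) hT0.le
        linarith
  refine ⟨T1, T2, l, Matrix.of B, Matrix.of C, ⟨hT.one, hT.le, hl0, hl01, hl12⟩, ?_, ?_, ?_, ?_⟩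
  · refine ⟨(m : K) • p, (m : K) • q, x, ?_, ?_, red_li hmK hT.pt1 hT.qt1 hT.pt2 hT.qt2, hx, fun i j => ⟨?_, ?_⟩⟩
    · rw [LinearMap.smul_apply, hT.p0, smul_zero]
    · rw [LinearMap.smul_apply, hT.q0, smul_zero]
    · rw [LinearMap.smul_apply, smul_eq_mul]
      exact hB i j
    · rw [LinearMap.smul_apply, smul_eq_mul]
      exact hC i j
  · intro i j
    exact ⟨hbd T1 p hT1 (fun y Y hY ψ => (hT.siz y Y hY ψ).1) i j (B i j) (hB i j),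
      hbd T2 q hT2 (fun y Y hY ψ => (hT.siz y Y hY ψ).2) i j (C i j) (hC i j)⟩
  · refine hT.dl.trans (mul_le_mul_of_nonneg_right ?_ (abs_nonneg _))
    linarith
  · have h3 : Real.sqrt |(NumberField.discr F : ℝ)| ≤ Real.sqrt κ0 * (T1 * T2) ^ Module.finrank ℚ K := by
      have h4 := Real.sqrt_le_sqrt hT.du
      rw [mul_comm 2, pow_mul, Real.sqrt_mul' _ (sq_nonneg _), Real.sqrt_sq (by positivity)] at h4
      exact h4
    have h5 : (l 0 * l 1 * l 2) ^ Module.finrank ℚ K ≤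
        (C0 * Real.sqrt κ0) * (T1 * T2) ^ Module.finrank ℚ K := by
      calc (l 0 * l 1 * l 2) ^ Module.finrank ℚ K ≤ C0 * Real.sqrt |(NumberField.discr F : ℝ)| := hprod
        _ ≤ C0 * (Real.sqrt κ0 * (T1 * T2) ^ Module.finrank ℚ K) := mul_le_mul_of_nonneg_left h3 hC0.le
        _ = _ := by ring
    have h6 := red_le_of_pow _ hd0 (by positivity) (by positivity) h5
    rw [← hc1] at h6
    refine h6.trans (mul_le_mul_of_nonneg_right ?_ (by positivity))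
    nlinarith

end H88.SW
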