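import Pool.Agent.H88.SW.TbC

/-!
# [H88 SW REDO] Reduction of the item `a = 1` (45 min)

`tb_ex`, `x = ![1, t1, t2]`, `l = ![1, T1, T2]`, `B i j = m p (x i x j)`, `C i j = m q (x i x j)` in `𝓞 K` (`Tb.int`; `x i x j` is integral), `‖φ (x i x j)‖ ≤ l i l j`, sizes `m κ0 ≤ κ0 ^ 2`. `Rp 1`: functionals `m • p`, `m • q`, basis `x` (`Tb.dec` and the values of `p`, `q`: linearly independent: apply `p`, `q` to a relation). `CaD m`: `p 1 = q 1 = 0`, `p t1 = 1`,
`q t1 = 0`, `p t2 = 0`, `q t2 = 1`; `C 1 1 = m q (t1 ^ 2) ≠ 0`: otherwise `t1 ^ 2 = c + p (t1 ^ 2) t1` (`Tb.dec`), `t1` is a root of a quadratic polynomial over `K`, the degree of `K(t1)` divides 3 and is at most 2, so `t1 ∈ K`: contradiction (`p t1 = 1`, `p` vanishes on `K`).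
-/

set_option autoImplicit false

open scoped NumberField nonZeroDivisors Matrix
open H88.A4 Pool.Agent.H67.WA

noncomputable section

namespace H88.SW

open Polynomial in
private theorem redo_deg {K F : Type} [Field K] [Field F] [Algebra K F] (h3 : Module.finrank K F = 3) {t : F}
    {a b : K} (h : t ^ 2 = algebraMap K F a + algebraMap K F b * t) : ∃ c : K, algebraMap K F c = t := by
  have hfd : FiniteDimensional K F := Module.finite_of_finrank_pos (by omega)
  have hint : IsIntegral K t := Algebra.IsIntegral.isIntegral t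
  have h1 : (minpoly K t).natDegree ∣ 3 := by
    rw [← h3]
    exact minpoly.degree_dvd hint
  have h2 : (minpoly K t).natDegree ≤ 2 := by
    have h4 : (X ^ 2 - C b * X - C a : K[X]).natDegree = 2 := by
      compute_degree!
    have h5 : (X ^ 2 - C b * X - C a : K[X]) ≠ 0 := by
      intro h6
      rw [h6, natDegree_zero] at h4
      omega
    have h6 : minpoly K t ∣ (X ^ 2 - C b * X - C a : K[X]) := by
      apply minpoly.dvd
      simp only [map_sub, map_mul, map_pow, aeval_X, aeval_C]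
      rw [h]
      ring
    rw [← h4]
    exact natDegree_le_of_dvd h6 h5
  have h5 : 0 < (minpoly K t).natDegree := minpoly.natDegree_pos hint
  have h6 : (minpoly K t).natDegree = 1 := by
    have h7 := (Nat.dvd_prime Nat.prime_three).1 h1
    omega
  exact minpoly.natDegree_eq_one_iff.1 h6

private theorem redo_li1 {K F : Type} [Field K] [Field F] [Algebra K F] {t1 t2 : F} {p q : F →ₗ[K] K} {m : K}
    (hm : m ≠ 0) (pt1 : p t1 = 1) (qt1 : q t1 = 0) (pt2 : p t2 = 0) (qt2 : q t2 = 1) :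
    LinearIndependent K ![m • p, m • q] := by
  rw [LinearIndependent.pair_iff]
  intro s t h
  have e1 := congrArg (fun f : F →ₗ[K] K => f t1) h
  have e2 := congrArg (fun f : F →ₗ[K] K => f t2) h
  simp only [LinearMap.add_apply, LinearMap.smul_apply, pt1, qt1, pt2, qt2, smul_eq_mul, mul_one, mul_zero,
    add_zero, zero_add, LinearMap.zero_apply] at e1 e2
  exact ⟨(mul_eq_zero.1 e1).resolve_right hm, (mul_eq_zero.1 e2).resolve_right hm⟩

private theorem redo_li2 {K F : Type} [Field K] [Field F] [Algebra K F] {t1 t2 : F} {p q : F →ₗ[K] K}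
    (p0 : p 1 = 0) (q0 : q 1 = 0)
    (pt1 : p t1 = 1) (qt1 : q t1 = 0) (pt2 : p t2 = 0) (qt2 : q t2 = 1) :
    LinearIndependent K ![(1 : F), t1, t2] := by
  rw [Fintype.linearIndependent_iff]
  intro g h
  rw [Fin.sum_univ_three] at h
  simp only [Matrix.cons_val_zero, Matrix.cons_val_one, Matrix.cons_val] at h
  have e1 := congrArg p h
  have e2 := congrArg q h
  simp only [map_add, map_smul, p0, q0, pt1, qt1, pt2, qt2, smul_eq_mul, mul_one, mul_zero, add_zero, zero_add,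
    map_zero] at e1 e2
  rw [e1, e2, zero_smul, zero_smul, add_zero, add_zero] at h
  have e0 : g 0 = 0 := (smul_eq_zero.1 h).resolve_right one_ne_zero
  intro i
  fin_cases i
  · exact e0
  · exact e1
  · exact e2

theorem redo (K : Type) [Field K] [NumberField K] : ∃ κ : ℝ, 1 ≤ κ ∧ ∀ (F : Type) [Field F] [NumberField F] [Algebra K F],
    Module.finrank K F = 3 → ∃ (T1 T2 : ℝ) (B C : M3 (𝓞 K)) (m : ℕ), 1 ≤ T1 ∧ T1 ≤ T2 ∧ Rp (1 : F) (mK B) (mK C) ∧
      Bx κ T1 T2 ![1, T1, T2] B C ∧ CaD m B C ∧ (m : ℝ) ≤ κ ∧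
      (T1 * T2) ^ (2 * Module.finrank ℚ K) ≤ κ * |(NumberField.discr F : ℝ)| := by
  obtain ⟨κ, hκ, H⟩ := tb_ex K
  have hκ2 : κ ≤ κ ^ 2 := by nlinarith
  refine ⟨κ ^ 2, by nlinarith, fun F _ _ _ h3 => ?_⟩
  obtain ⟨T1, T2, t1, t2, p, q, m, h⟩ := H F h3
  obtain ⟨x, hx⟩ : ∃ x : Fin 3 → F, x = ![1, t1, t2] := ⟨_, rfl⟩
  obtain ⟨l, hl⟩ : ∃ l : Fin 3 → ℝ, l = ![1, T1, T2] := ⟨_, rfl⟩
  have hx0 : x 0 = 1 := by rw [hx]; rfl
  have hx1 : x 1 = t1 := by rw [hx]; rfl
  have hx2 : x 2 = t2 := by rw [hx]; rfl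
  have hl0 : l 0 = 1 := by rw [hl]; rfl
  have hl1 : l 1 = T1 := by rw [hl]; rfl
  have hl2 : l 2 = T2 := by rw [hl]; rfl
  have hxi : ∀ i, IsIntegral ℤ (x i) := by
    intro i
    fin_cases i
    · show IsIntegral ℤ (x 0)
      rw [hx0]
      exact isIntegral_one
    · show IsIntegral ℤ (x 1)
      rw [hx1]
      exact h.i1
    · show IsIntegral ℤ (x 2)
      rw [hx2]
      exact h.i2
  have hxl : ∀ i, ∀ φ : F →+* ℂ, ‖φ (x i)‖ ≤ l i := by
    intro i φ
    fin_cases i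
    · show ‖φ (x 0)‖ ≤ l 0
      rw [hx0, hl0, map_one, norm_one]
    · show ‖φ (x 1)‖ ≤ l 1
      rw [hx1, hl1]
      exact h.s1 φ
    · show ‖φ (x 2)‖ ≤ l 2
      rw [hx2, hl2]
      exact h.s2 φ
  have hl0' : ∀ i, 0 ≤ l i := fun i => by
    have h1 := h.one
    have h2 := h.le
    fin_cases i
    · show 0 ≤ l 0
      rw [hl0]; exact zero_le_one
    · show 0 ≤ l 1
      rw [hl1]; linarith
    · show 0 ≤ l 2
      rw [hl2]; linarith
  have hm1 : (1 : ℝ) ≤ m := by exact_mod_cast h.m1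
  have hm0 : (m : K) ≠ 0 := by
    have := h.m1
    exact Nat.cast_ne_zero.2 (by omega)
  have hBex : ∀ i j, ∃ β : 𝓞 K, (β : K) = (m : K) * p (x i * x j) := fun i j =>
    ⟨⟨_, (h.int _ ((hxi i).mul (hxi j))).1⟩, rfl⟩
  have hCex : ∀ i j, ∃ β : 𝓞 K, (β : K) = (m : K) * q (x i * x j) := fun i j =>
    ⟨⟨_, (h.int _ ((hxi i).mul (hxi j))).2⟩, rfl⟩
  choose B hB using hBex
  choose C hC using hCex
  have hinj : ∀ a b : 𝓞 K, (a : K) = b → a = b := fun a b hab => NumberField.RingOfIntegers.ext hab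
  have hz0 : ((0 : 𝓞 K) : K) = 0 := map_zero (algebraMap (𝓞 K) K)
  have hzm : ((m : 𝓞 K) : K) = m := map_natCast (algebraMap (𝓞 K) K) m
  have hsz : ∀ i j, (∀ ψ : K →+* ℂ, ‖ψ (p (x i * x j))‖ ≤ κ * (l i * l j) / T1 ∧
      ‖ψ (q (x i * x j))‖ ≤ κ * (l i * l j) / T2) := by
    intro i j
    refine h.siz (x i * x j) (l i * l j) fun φ => ?_
    rw [map_mul, norm_mul]
    exact mul_le_mul (hxl i φ) (hxl j φ) (norm_nonneg _) (hl0' i)
  have hnm : ∀ ψ : K →+* ℂ, ‖ψ (m : K)‖ = m := by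
    intro ψ
    rw [map_natCast, Complex.norm_natCast]
  refine ⟨T1, T2, Matrix.of B, Matrix.of C, m, h.one, h.le, ?_, ?_, ?_, h.mle.trans hκ2, ?_⟩
  · refine ⟨(m : K) • p, (m : K) • q, x, ?_, ?_, ?_, ?_, fun i j => ⟨?_, ?_⟩⟩
    · rw [LinearMap.smul_apply, h.p0, smul_zero]
    · rw [LinearMap.smul_apply, h.q0, smul_zero]
    · exact redo_li1 hm0 h.pt1 h.qt1 h.pt2 h.qt2
    · rw [hx]
      exact redo_li2 h.p0 h.q0 h.pt1 h.qt1 h.pt2 h.qt2
    · rw [one_mul, LinearMap.smul_apply, smul_eq_mul, ← hB]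
      rfl
    · rw [one_mul, LinearMap.smul_apply, smul_eq_mul, ← hC]
      rfl
  · have hT1 : 0 < T1 := by linarith [h.one]
    have hT2 : 0 < T2 := by linarith [h.one, h.le]
    rw [← hl]
    intro i j
    have hll : 0 ≤ l i * l j := mul_nonneg (hl0' i) (hl0' j)
    refine ⟨fun ψ => ?_, fun ψ => ?_⟩
    · rw [Matrix.of_apply, hB, map_mul, norm_mul, hnm]
      calc (m : ℝ) * ‖ψ (p (x i * x j))‖ ≤ κ * (κ * (l i * l j) / T1) :=
            mul_le_mul h.mle ((hsz i j ψ).1) (norm_nonneg _) (by linarith)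
        _ = κ ^ 2 * (l i * l j) / T1 := by ring
    · rw [Matrix.of_apply, hC, map_mul, norm_mul, hnm]
      calc (m : ℝ) * ‖ψ (q (x i * x j))‖ ≤ κ * (κ * (l i * l j) / T2) :=
            mul_le_mul h.mle ((hsz i j ψ).2) (norm_nonneg _) (by linarith)
        _ = κ ^ 2 * (l i * l j) / T2 := by ring
  · refine ⟨?_, ?_, ?_, ?_, ?_, ?_, ?_⟩
    · apply hinj
      rw [Matrix.of_apply, hB, hx0, one_mul, h.p0, mul_zero, hz0]
    · apply hinj
      rw [Matrix.of_apply, hC, hx0, one_mul, h.q0, mul_zero, hz0]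
    · apply hinj
      rw [Matrix.of_apply, hB, hx0, hx1, one_mul, h.pt1, mul_one, hzm]
    · apply hinj
      rw [Matrix.of_apply, hC, hx0, hx1, one_mul, h.qt1, mul_zero, hz0]
    · apply hinj
      rw [Matrix.of_apply, hB, hx0, hx2, one_mul, h.pt2, mul_zero, hz0]
    · apply hinj
      rw [Matrix.of_apply, hC, hx0, hx2, one_mul, h.qt2, mul_one, hzm]
    · intro h0
      rw [Matrix.of_apply] at h0
      have h1 := hC 1 1
      rw [h0, hz0, hx1] at h1
      have h2 : q (t1 * t1) = 0 := (mul_eq_zero.1 h1.symm).resolve_left hm0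
      obtain ⟨a, ha⟩ := h.dec (t1 * t1)
      rw [h2, map_zero, zero_mul, add_zero, ← pow_two] at ha
      obtain ⟨c, hc⟩ := redo_deg h3 ha
      have h4 := h.pt1
      rw [← hc, Algebra.algebraMap_eq_smul_one, map_smul, h.p0, smul_zero] at h4
      exact zero_ne_one h4
  · refine h.dl.trans (mul_le_mul_of_nonneg_right hκ2 (abs_nonneg _))

end H88.SW
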