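import Pool.Agent.H88.SW.Itm
import Pool.Agent.H88.SW.Red
import Pool.Agent.H88.SW.RedO
import Pool.Agent.H88.SW.Dy

/-!
# [H88 SW MAIN] Chapter (W) (75 min)

`sumN`: the items with `NSq`: `red K` (constant `κ1`; for `x ∈ S` with `F = x.1`, `NumberField` by `nfd`, `a` from `SqI`/`IsIt`, `isq`) gives `T1 x, T2 x, l x, B, C` (choose); `κ = max` of `κ1`, `κ1 |disc K| ^ 3`: `(T1 T2) ^ (2 d) ≤ κ1 |disc F| = κ1 dsc x |disc K| ^ 3 ≤ κ R` (`dsc_eq`), `RpI x (mK B) (mK C)`, `low`: `1 ≤ κ l x 0`. `dyN` with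
`ι = It K`, `C1` = the constant of `clsN K (32 κ)`; its hypothesis on `S' ⊆ S`: `Ine S'`, `Bx κ (T1 x) (T2 x) (l x) ⊆ Bx (32 κ) t1 t2 m` (all sizes nonnegative). `ι : Type`: `It K` is in `Type`.
`sumO`: the items which are squares in their field: replace `x` by `(x.1, 1)` (injective on `S` since `Ine S`: two squares in the same field differ by a square), `IsIt (x.1, 1)`, `redo K`, `clsO`, `dyO` the same way.
`wstat`: `items_ex`, `S` = squares ∪ nonsquares, `cu_fin`.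
-/

set_option autoImplicit false

open scoped NumberField nonZeroDivisors Matrix
open H88.A4 Pool.Agent.H67.WA H38.ML H63.MA H67.SX

noncomputable section

namespace H88.SW

private theorem bd_mono {K : Type} [Field K] [NumberField K] {H H' : ℝ} (h : H ≤ H') {x : 𝓞 K} (hx : Bd H x) : Bd H' x :=
  fun φ => (hx φ).trans h

private theorem bx_mono {K : Type} [Field K] [NumberField K] {κ κ' T1 T2 : ℝ} {l : Fin 3 → ℝ} (h : κ ≤ κ') (h1 : 0 < T1) (h2 : 0 < T2)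
    (hl : ∀ i, 0 ≤ l i) {B C : M3 (𝓞 K)} (hb : Bx κ T1 T2 l B C) : Bx κ' T1 T2 l B C := by
  intro i j
  have h0 : 0 ≤ l i * l j := mul_nonneg (hl i) (hl j)
  have h3 : κ * (l i * l j) ≤ κ' * (l i * l j) := mul_le_mul_of_nonneg_right h h0
  exact ⟨bd_mono (div_le_div_of_nonneg_right h3 h1.le) (hb i j).1, bd_mono (div_le_div_of_nonneg_right h3 h2.le) (hb i j).2⟩

private theorem bx_box {K : Type} [Field K] [NumberField K] {κ T1 T2 t1 t2 : ℝ} {l m : Fin 3 → ℝ} (hκ : 1 ≤ κ) (h1 : 0 < t1) (h2 : 0 < t2)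
    (h1' : t1 ≤ T1) (h2' : t2 ≤ T2) (hl : ∀ i, 0 ≤ l i) (hm : ∀ i, l i ≤ m i) {B C : M3 (𝓞 K)} (hb : Bx κ T1 T2 l B C) :
    Bx (32 * κ) t1 t2 m B C := by
  intro i j
  have h0 : 0 ≤ l i * l j := mul_nonneg (hl i) (hl j)
  have h3 : l i * l j ≤ m i * m j := mul_le_mul (hm i) (hm j) (hl j) ((hl i).trans (hm i))
  have h4 : κ * (l i * l j) ≤ 32 * κ * (m i * m j) := by
    apply mul_le_mul _ h3 h0 (by linarith)
    linarith
  have h5 : 0 ≤ κ * (l i * l j) := mul_nonneg (by linarith) h0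
  exact ⟨bd_mono ((div_le_div_of_nonneg_left h5 h1 h1').trans (div_le_div_of_nonneg_right h4 h1.le)) (hb i j).1,
    bd_mono ((div_le_div_of_nonneg_left h5 h2 h2').trans (div_le_div_of_nonneg_right h4 h2.le)) (hb i j).2⟩

private theorem or_nonneg {T1 T2 : ℝ} {l : Fin 3 → ℝ} (h : Or T1 T2 l) : ∀ i, 0 ≤ l i := by
  intro i
  have h0 := h.l0
  have h1 := h.l1
  have h2 := h.l2
  fin_cases i
  · exact h0.le
  · exact (h0.le.trans h1)
  · exact (h0.le.trans h1).trans h2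

private theorem one_le_disc (K : Type) [Field K] [NumberField K] : (1 : ℝ) ≤ |(NumberField.discr K : ℝ)| := by
  have h : (NumberField.discr K) ≠ 0 := NumberField.discr_ne_zero K
  have h1 : (1 : ℤ) ≤ |NumberField.discr K| := Int.one_le_abs h
  have h2 : ((1 : ℤ) : ℝ) ≤ ((|NumberField.discr K| : ℤ) : ℝ) := by exact_mod_cast h1
  simpa using h2

theorem sumN (K : IntermediateField ℚ QBar) [NumberField K] : ∃ C : ℝ, 0 < C ∧ ∀ R : ℝ, 1 ≤ R → ∀ S : Finset (It K), Ine S →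
    (∀ x ∈ S, IsIt x ∧ SqI x ∧ NSq x ∧ dsc x ≤ R) → (S.card : ℝ) ≤ C * R := by
  obtain ⟨κ1, hκ1, hred⟩ := red K
  set D : ℝ := |(NumberField.discr K : ℝ)| with hD
  have hD1 : 1 ≤ D := one_le_disc K
  have hD3 : 1 ≤ D ^ 3 := one_le_pow₀ hD1
  set κ : ℝ := κ1 * D ^ 3 with hκd
  have hκ1κ : κ1 ≤ κ := by
    rw [hκd]
    exact le_mul_of_one_le_right (by linarith) hD3
  have hκ : 1 ≤ κ := hκ1.trans hκ1κ
  have hd : 1 ≤ Module.finrank ℚ K := Module.finrank_pos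
  obtain ⟨C1, hC1, hcls⟩ := clsN K (32 * κ) (by linarith)
  obtain ⟨C2, hC2, hdy⟩ := dyN hd hκ hC1
  refine ⟨C2, hC2, fun R hR S hI hS => ?_⟩
  have key : ∀ x ∈ S, ∃ (T1 T2 : ℝ) (l : Fin 3 → ℝ) (B C : M3 (𝓞 K)), Or T1 T2 l ∧ RpI x (mK B) (mK C) ∧ Bx κ T1 T2 l B C ∧
      (T1 * T2) ^ (2 * Module.finrank ℚ K) ≤ κ * R ∧ l 0 * l 1 * l 2 ≤ κ * (T1 * T2) ∧ 1 ≤ κ * l 0 := by
    intro x hx
    obtain ⟨hit, hsq, hns, hdR⟩ := hS x hx
    have hfin : Module.finrank K x.1 = 3 := hit.1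
    have : NumberField x.1 := nfd hfin
    obtain ⟨_, a, hax, hev⟩ := hsq
    obtain ⟨J, hJ⟩ := isq a hev
    obtain ⟨T1, T2, l, B, C, ho, hrp, hbx, h1, h2⟩ := hred x.1 hfin (a : x.1) a.ne_zero ⟨J, hJ⟩
    have hr : RpI x (mK B) (mK C) := ⟨(a : x.1), hax, hrp⟩
    have hT1 : 0 < T1 := by linarith [ho.t1]
    have hT2 : 0 < T2 := by linarith [ho.t1, ho.t2]
    have hbx' : Bx κ T1 T2 l B C := bx_mono hκ1κ hT1 hT2 (or_nonneg ho) hbx
    have hTT : 0 ≤ T1 * T2 := (mul_pos hT1 hT2).le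
    refine ⟨T1, T2, l, B, C, ho, hr, hbx', ?_, h2.trans (mul_le_mul_of_nonneg_right hκ1κ hTT), low hκ ho hit hns hr hbx'⟩
    rw [dsc_eq x hfin] at h1
    refine h1.trans ?_
    have h3 : dsc x * D ^ 3 ≤ R * D ^ 3 := mul_le_mul_of_nonneg_right hdR (by linarith)
    calc κ1 * (dsc x * D ^ 3) ≤ κ1 * (R * D ^ 3) := mul_le_mul_of_nonneg_left h3 (by linarith)
      _ = κ * R := by rw [hκd]; ring
  choose! T1 T2 l B C hk using key
  refine hdy R hR (It K) S T1 T2 l (fun x hx => ?_) ?_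
  · obtain ⟨h1, _, _, h2, h3, h4⟩ := hk x hx
    exact ⟨h1, h2, h3, h4⟩
  · intro t1 t2 m ho hm S' hS' hb
    refine hcls t1 t2 m ho hm S' (fun x hx y hy => hI x (hS' hx) y (hS' hy)) fun x hx => ?_
    obtain ⟨h1, h2, h3, _⟩ := hk x (hS' hx)
    obtain ⟨hit, _, hns, _⟩ := hS x (hS' hx)
    obtain ⟨b1, b2, b3⟩ := hb x hx
    have ht1 : 0 < t1 := by linarith [ho.t1]
    have ht2 : 0 < t2 := by linarith [ho.t1, ho.t2]
    exact ⟨hit, hns, B x, C x, h2, bx_box hκ ht1 ht2 b1 b2 (or_nonneg h1) b3 h3⟩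

theorem sumO (K : IntermediateField ℚ QBar) [NumberField K] : ∃ C : ℝ, 0 < C ∧ ∀ R : ℝ, 1 ≤ R → ∀ S : Finset (It K), Ine S →
    (∀ x ∈ S, IsIt x ∧ ¬ NSq x ∧ dsc x ≤ R) → (S.card : ℝ) ≤ C * R := by
  classical
  obtain ⟨κ1, hκ1, hred⟩ := redo K
  set D : ℝ := |(NumberField.discr K : ℝ)| with hD
  have hD1 : 1 ≤ D := one_le_disc K
  have hD3 : 1 ≤ D ^ 3 := one_le_pow₀ hD1
  set κ : ℝ := κ1 * D ^ 3 with hκd
  have hκ1κ : κ1 ≤ κ := by
    rw [hκd]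
    exact le_mul_of_one_le_right (by linarith) hD3
  have hκ : 1 ≤ κ := hκ1.trans hκ1κ
  have hd : 1 ≤ Module.finrank ℚ K := Module.finrank_pos
  obtain ⟨C1, hC1, hcls⟩ := clsO K κ hκ
  obtain ⟨C2, hC2, hdy⟩ := dyO hd hκ hC1
  refine ⟨C2, hC2, fun R hR S hI hS => ?_⟩
  let f : It K → It K := fun x => (x.1, (1 : QBar))
  have hinj : Set.InjOn f (S : Set (It K)) := by
    intro x hx y hy hxy
    have hxy2 : ((x.1, (1 : QBar)) : It K) = (y.1, (1 : QBar)) := hxy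
    have hF : x.1 = y.1 := (Prod.mk.inj hxy2).1
    obtain ⟨hitx, hnx, _⟩ := hS x hx
    obtain ⟨hity, hny, _⟩ := hS y hy
    unfold NSq at hnx hny
    push Not at hnx hny
    obtain ⟨c, hc, hxc⟩ := hnx
    obtain ⟨c', hc', hyc⟩ := hny
    have hy0 : y.2 ≠ 0 := by
      obtain ⟨_, a, ha, ha0, _⟩ := hity
      rw [← ha]
      intro h
      exact ha0 (by exact_mod_cast h)
    have hc0 : c' ≠ 0 := by
      rintro rfl
      apply hy0
      rw [hyc]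
      ring
    refine hI x hx y hy hF ⟨c / c', ?_, ?_⟩
    · rw [← hF] at hc'
      exact x.1.div_mem hc hc'
    · rw [hxc, hyc]
      field_simp
  have hcard : (S.image f).card = S.card := Finset.card_image_of_injOn hinj
  rw [← hcard]
  have hI1 : Ine (S.image f) := by
    intro x hx y hy hxy _
    rw [Finset.mem_image] at hx hy
    obtain ⟨x', _, rfl⟩ := hx
    obtain ⟨y', _, rfl⟩ := hy
    have h1 : x'.1 = y'.1 := hxy
    show (x'.1, (1 : QBar)) = (y'.1, (1 : QBar))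
    rw [h1]
  have key : ∀ x ∈ S.image f, ∃ (T1 T2 : ℝ) (B C : M3 (𝓞 K)) (m : ℕ), IsIt x ∧ 1 ≤ T1 ∧ T1 ≤ T2 ∧ (m : ℝ) ≤ κ ∧ RpI x (mK B) (mK C) ∧
      Bx κ T1 T2 ![1, T1, T2] B C ∧ CaD m B C ∧ (T1 * T2) ^ (2 * Module.finrank ℚ K) ≤ κ * R := by
    intro x' hx'
    rw [Finset.mem_image] at hx'
    obtain ⟨x, hx, rfl⟩ := hx'
    obtain ⟨hit, hns, hdR⟩ := hS x hx
    have hfin : Module.finrank K x.1 = 3 := hit.1
    have : NumberField x.1 := nfd hfin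
    obtain ⟨T1, T2, B, C, m, h1, h2, h3, h4, h5, h6, h7⟩ := hred x.1 hfin
    have hT1 : 0 < T1 := by linarith
    have hT2 : 0 < T2 := by linarith
    refine ⟨T1, T2, B, C, m, ⟨hfin, 1, ?_, one_ne_zero, ?_⟩, h1, h2, h6.trans hκ1κ, ⟨1, ?_, h3⟩, bx_mono hκ1κ hT1 hT2 ?_ h4, h5, ?_⟩
    · simp [f]
    · rw [map_one]
      exact ⟨1, by simp⟩
    · simp [f]
    · intro i
      fin_cases i
      · simp
      · simpa using hT1.le
      · simpa using hT2.le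
    · rw [dsc_eq x hfin] at h7
      refine h7.trans ?_
      have h8 : dsc x * D ^ 3 ≤ R * D ^ 3 := mul_le_mul_of_nonneg_right hdR (by linarith)
      calc κ1 * (dsc x * D ^ 3) ≤ κ1 * (R * D ^ 3) := mul_le_mul_of_nonneg_left h8 (by linarith)
        _ = κ * R := by rw [hκd]; ring
  choose! T1 T2 B C m hk using key
  refine hdy R hR (It K) (S.image f) T1 T2 (fun x hx => ?_) ?_
  · obtain ⟨_, h1, h2, _, _, _, _, h3⟩ := hk x hx
    exact ⟨h1, h2, h3⟩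
  · intro t1 t2 ht1 ht2 S' hS' hb
    refine hcls t1 t2 ht1 ht2 S' (fun x hx y hy => hI1 x (hS' hx) y (hS' hy)) fun x hx => ?_
    obtain ⟨hit, h1, h2, h3, h4, h5, h6, h7⟩ := hk x (hS' hx)
    obtain ⟨b1, b2, b3, b4⟩ := hb x hx
    exact ⟨hit, B x, C x, m x, T1 x, T2 x, b1, b2, b3, b4, h3, h4, h5, h6⟩

theorem wstat (K : IntermediateField ℚ QBar) [NumberField K] : WStat K := by
  classical
  obtain ⟨C1, hC1, h1⟩ := sumN K
  obtain ⟨C2, hC2, h2⟩ := sumO K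
  refine ⟨C1 + C2 + 1, by linarith, fun R hR => ⟨cu_fin R, fun T hT => ?_⟩⟩
  obtain ⟨S, hI, hS, hc⟩ := items_ex T
  have hd : ∀ x ∈ S, dsc x ≤ R := by
    intro x hx
    obtain ⟨c, hcT, hxc⟩ := (hS x hx).2.2
    have h := hT c hcT
    unfold dsc
    rw [hxc]
    exact h
  have hs : ∀ S' : Finset (It K), S' ⊆ S → Ine S' := fun S' h x hx y hy => hI x (h hx) y (h hy)
  have hN := h1 R hR (S.filter fun x => NSq x) (hs _ (Finset.filter_subset _ _)) fun x hx => by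
    rw [Finset.mem_filter] at hx
    exact ⟨(hS x hx.1).1, (hS x hx.1).2.1, hx.2, hd x hx.1⟩
  have hO := h2 R hR (S.filter fun x => ¬ NSq x) (hs _ (Finset.filter_subset _ _)) fun x hx => by
    rw [Finset.mem_filter] at hx
    exact ⟨(hS x hx.1).1, hx.2, hd x hx.1⟩
  have hcard : (S.card : ℝ) = ((S.filter fun x => NSq x).card : ℝ) + ((S.filter fun x => ¬ NSq x).card : ℝ) := by
    rw [← Nat.cast_add, Finset.card_filter_add_card_filter_not]
  rw [hc, hcard]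
  nlinarith

end H88.SW
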