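import Pool.Agent.H88.SW.Defs

/-!
# [H88 SW CB] Integers in balls; change of the bases preserves the sizes (75 min)

`one_le_bd`: `1 ≤ |N x| = ∏ φ, ‖φ x‖ ≤ w ^ d` (`one_le_nm` in `H88/A4/Geo.lean` or `one_le_nz`), `d ≥ 1`, so `1 ≤ w`.
`ball_le`: `f1 K` (`H67/WA/Cnt.lean`) with `I = ⊤` (`ni ⊤ = 1`), `R = w` constant (`vol_const`), `1 ≤ w ^ d`.
`ball_ge`: `ω = NumberField.RingOfIntegers.basis K` (index set of cardinality `d`), `c0 = 1 + ∑ i, ∑ φ, ‖φ (ω i)‖`, `N = ⌊r / (d c0)⌋₊`, `S` the image of the vectors with coordinates in `{0, .., N}` (`Fintype.piFinset`), injective (basis), `‖φ x‖ ≤ d N c0 ≤ r`, `(N + 1) ^ d ≥ (r / (d c0)) ^ d`.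
`bx_act`: `B' = tB n U B C`: `|B i j - n C i j| ≤ κ l_i l_j / T1 + (T2 / T1) κ l_i l_j / T2 = 2 κ l_i l_j / T1`; `|U k i| ≤ l i / l k` for all `k`, `i` (zero below the diagonal, `1` on it, the hypotheses above it); every entry of `Uᵀ M U` is a sum of nine products `U k i M k l U l j`: at most `18 κ l_i l_j / T1`. The same for `C`. (`Matrix.mul_apply`,
`Fin.sum_univ_three`, the triangle inequality for `‖φ ·‖`; `fin_cases` or uniformly.) `tsymm`: transposes. `ca_*`: `(tC U C) 0 0 = C 0 0`, `(tC U C) 0 1 = C 0 1 + a C 0 0`, `(tC U C) 0 2 = b C 0 0 + c C 0 1 + C 0 2`, `(tC U C) 1 1 = C 1 1 + 2 a C 0 1 + a ^ 2 C 0 0`, `(tB n U B C) 0 0 = B 0 0 - n C 0 0`, ...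
(`C`, `B` symmetric). `ca_D` is for the translations with `c = n`: `(tB n U B C) 0 2 = (B 0 2 - n C 0 2) + c (B 0 1 - n C 0 1) + b (..) = - n m + n m = 0`. `mk_t`: `Matrix.map_mul` etc. `un_det`: `det = 1`.
-/

set_option autoImplicit false

open scoped NumberField nonZeroDivisors Matrix
open H88.A4 Pool.Agent.H67.WA

noncomputable section

namespace H88.SW

section ball

variable (K : Type) [Field K] [NumberField K]

theorem ball_le : ∃ C : ℝ, 1 ≤ C ∧ ∀ w : ℝ, 1 ≤ w → ∀ S : Finset (𝓞 K), (∀ x ∈ S, Bd w x) →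
    (S.card : ℝ) ≤ C * w ^ Module.finrank ℚ K := by
  obtain ⟨C, hC, h⟩ := f1 K
  refine ⟨2 * C, by linarith, fun w hw S hS => ?_⟩
  have h1 := h ⊤ top_ne_bot (fun _ => w) (fun _ => by linarith) S fun x hx =>
    ⟨Submodule.mem_top, fun φ => hS x hx φ⟩
  rw [ni_top, div_one, vol_const] at h1
  have h2 : 1 ≤ w ^ Module.finrank ℚ K := one_le_pow₀ hw
  nlinarith

theorem ball_ge : ∃ c : ℝ, 0 < c ∧ ∀ r : ℝ, 1 ≤ r → ∃ S : Finset (𝓞 K), (∀ x ∈ S, Bd r x) ∧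
    c * r ^ Module.finrank ℚ K ≤ (S.card : ℝ) := by
  classical
  obtain ⟨ω, hω⟩ : ∃ ω : Module.Basis (Module.Free.ChooseBasisIndex ℤ (𝓞 K)) ℤ (𝓞 K),
    ω = NumberField.RingOfIntegers.basis K := ⟨_, rfl⟩
  have hcard : Fintype.card (Module.Free.ChooseBasisIndex ℤ (𝓞 K)) = Module.finrank ℚ K := by
    rw [← Module.finrank_eq_card_chooseBasisIndex, NumberField.RingOfIntegers.rank]
  obtain ⟨c0, hc0⟩ : ∃ c0 : ℝ, c0 = 1 + ∑ φ : K →+* ℂ, ∑ i, ‖φ (ω i : K)‖ := ⟨_, rfl⟩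
  have hs0 : 0 ≤ ∑ φ : K →+* ℂ, ∑ i, ‖φ (ω i : K)‖ :=
    Finset.sum_nonneg fun φ _ => Finset.sum_nonneg fun i _ => norm_nonneg _
  have hc1 : 0 < c0 := by rw [hc0]; linarith
  have hφ : ∀ φ : K →+* ℂ, ∑ i, ‖φ (ω i : K)‖ ≤ c0 := by
    intro φ
    have h1 := Finset.single_le_sum (f := fun φ : K →+* ℂ => ∑ i, ‖φ (ω i : K)‖)
      (fun φ _ => Finset.sum_nonneg fun i _ => norm_nonneg _) (Finset.mem_univ φ)
    rw [hc0]
    linarith
  refine ⟨(c0⁻¹) ^ Module.finrank ℚ K, by positivity, fun r hr => ?_⟩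
  obtain ⟨N, hN⟩ : ∃ N : ℕ, N = ⌊r / c0⌋₊ := ⟨_, rfl⟩
  have hN1 : (N : ℝ) ≤ r / c0 := by
    rw [hN]
    exact Nat.floor_le (by positivity)
  have hN2 : r / c0 ≤ (N : ℝ) + 1 := by
    rw [hN]
    exact (Nat.lt_floor_add_one _).le
  let f : (Module.Free.ChooseBasisIndex ℤ (𝓞 K) → ℕ) → 𝓞 K := fun v => ∑ i, ((v i : ℤ)) • ω i
  have hf : Function.Injective f := by
    intro v v' hvv
    have h1 : ω.repr (f v) = ω.repr (f v') := by rw [hvv]
    funext i
    have h2 : ω.repr (f v) i = (v i : ℤ) := by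
      simp only [f]
      rw [Module.Basis.repr_sum_self]
    have h3 : ω.repr (f v') i = (v' i : ℤ) := by
      simp only [f]
      rw [Module.Basis.repr_sum_self]
    have h4 : (v i : ℤ) = (v' i : ℤ) := by rw [← h2, ← h3, h1]
    exact_mod_cast h4
  refine ⟨(Fintype.piFinset fun _ => Finset.range (N + 1)).image f, ?_, ?_⟩
  · intro x hx φ
    rw [Finset.mem_image] at hx
    obtain ⟨v, hv, rfl⟩ := hx
    rw [Fintype.mem_piFinset] at hv
    have h1 : φ ((f v : 𝓞 K) : K) = ∑ i, (v i : ℂ) * φ (ω i : K) := by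
      have he : ∀ x : 𝓞 K, φ (x : K) = (φ.comp (algebraMap (𝓞 K) K)) x := fun x => rfl
      simp only [f, he]
      rw [map_sum]
      refine Finset.sum_congr rfl fun i _ => ?_
      rw [zsmul_eq_mul, map_mul]
      simp
    rw [h1]
    calc ‖∑ i, (v i : ℂ) * φ (ω i : K)‖ ≤ ∑ i, ‖(v i : ℂ) * φ (ω i : K)‖ := norm_sum_le _ _
      _ ≤ ∑ i, (N : ℝ) * ‖φ (ω i : K)‖ := by
        refine Finset.sum_le_sum fun i _ => ?_
        rw [norm_mul, Complex.norm_natCast]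
        refine mul_le_mul_of_nonneg_right ?_ (norm_nonneg _)
        have h2 := hv i
        rw [Finset.mem_range] at h2
        exact_mod_cast (by omega : v i ≤ N)
      _ = N * ∑ i, ‖φ (ω i : K)‖ := by rw [Finset.mul_sum]
      _ ≤ (r / c0) * c0 := mul_le_mul hN1 (hφ φ)
        (Finset.sum_nonneg fun i _ => norm_nonneg _) (by positivity)
      _ = r := by field_simp
  · rw [Finset.card_image_of_injective _ hf, Fintype.card_piFinset, Finset.prod_const, Finset.card_univ,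
      Finset.card_range, hcard, ← mul_pow]
    push_cast
    refine pow_le_pow_left₀ (by positivity) ?_ _
    rw [mul_comm, ← div_eq_mul_inv]
    exact hN2

end ball

variable {K : Type} [Field K] [NumberField K]

theorem one_le_bd {x : 𝓞 K} (hx : x ≠ 0) {w : ℝ} (h : Bd w x) : 1 ≤ w := by
  have h1 : ∀ φ : K →+* ℂ, 0 ≤ w := fun φ => (norm_nonneg _).trans (h φ)
  obtain ⟨φ⟩ : Nonempty (K →+* ℂ) := inferInstance
  have hw := h1 φ
  by_contra hcon
  have h2 := one_le_nz hx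
  have h3 : nz x ≤ w ^ Module.finrank ℚ K := by
    rw [← vol_const]
    exact Finset.prod_le_prod (fun φ _ => norm_nonneg _) fun φ _ => h φ
  have h4 : w ^ Module.finrank ℚ K < 1 := pow_lt_one₀ hw (not_le.1 hcon) Module.finrank_pos.ne'
  linarith

theorem un_det {R : Type} [CommRing R] (a b c : R) : (Un a b c).det = 1 := by
  simp [Un, Matrix.det_fin_three]

private theorem mk_un (a b c : 𝓞 K) : mK (Un a b c) = Un (a : K) (b : K) (c : K) := by
  ext i j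
  unfold mK Un
  fin_cases i <;> fin_cases j <;> simp

theorem mk_tB (n a b c : 𝓞 K) (B C : M3 (𝓞 K)) :
    mK (tB n (Un a b c) B C) = tB (n : K) (Un (a : K) (b : K) (c : K)) (mK B) (mK C) := by
  rw [← mk_un]
  unfold tB mK
  rw [Matrix.map_mul, Matrix.map_mul, Matrix.transpose_map]
  congr 2

theorem mk_tC (a b c : 𝓞 K) (C : M3 (𝓞 K)) : mK (tC (Un a b c) C) = tC (Un (a : K) (b : K) (c : K)) (mK C) := by
  rw [← mk_un]
  unfold tC mK
  rw [Matrix.map_mul, Matrix.map_mul, Matrix.transpose_map]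

theorem tsymm (n a b c : 𝓞 K) {B C : M3 (𝓞 K)} (hB : Bᵀ = B) (hC : Cᵀ = C) :
    (tB n (Un a b c) B C)ᵀ = tB n (Un a b c) B C ∧ (tC (Un a b c) C)ᵀ = tC (Un a b c) C := by
  constructor
  · unfold tB
    rw [Matrix.transpose_mul, Matrix.transpose_mul, Matrix.transpose_transpose, Matrix.transpose_sub,
      Matrix.transpose_smul, hB, hC, Matrix.mul_assoc]
  · unfold tC
    rw [Matrix.transpose_mul, Matrix.transpose_mul, Matrix.transpose_transpose, hC, Matrix.mul_assoc]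

private theorem un_bd {T1 T2 : ℝ} {l : Fin 3 → ℝ} (ho : Or T1 T2 l) {a b c : 𝓞 K}
    (ha : Bd (l 1 / l 0) a) (hb : Bd (l 2 / l 0) b) (hc : Bd (l 2 / l 1) c) (φ : K →+* ℂ) (k i : Fin 3) :
    ‖φ ((Un a b c k i : 𝓞 K) : K)‖ ≤ l i / l k := by
  have h0 := ho.l0
  have h1 : 0 < l 1 := lt_of_lt_of_le h0 ho.l1
  have h2 : 0 < l 2 := lt_of_lt_of_le h1 ho.l2
  fin_cases k <;> fin_cases i
  · simp [Un, h0.ne']
  · simpa [Un] using ha φ
  · simpa [Un] using hb φ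
  · simp only [Un]
    simp
    positivity
  · simp [Un, h1.ne']
  · simpa [Un] using hc φ
  · simp only [Un]
    simp
    positivity
  · simp only [Un]
    simp
    positivity
  · simp [Un, h2.ne']

private theorem conj_bd {l : Fin 3 → ℝ} (hl : ∀ i, 0 < l i) {U M : M3 (𝓞 K)} {κ : ℝ} (hκ : 0 ≤ κ)
    (hU : ∀ (φ : K →+* ℂ) (k i : Fin 3), ‖φ ((U k i : 𝓞 K) : K)‖ ≤ l i / l k)
    (hM : ∀ i j, Bd (κ * (l i * l j)) (M i j)) (i j : Fin 3) : Bd (9 * κ * (l i * l j)) ((Uᵀ * M * U) i j) := by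
  intro φ
  have h1 : φ (((Uᵀ * M * U) i j : 𝓞 K) : K) = ∑ m : Fin 3, ∑ k : Fin 3,
      φ ((U k i : 𝓞 K) : K) * φ ((M k m : 𝓞 K) : K) * φ ((U m j : 𝓞 K) : K) := by
    have he : ∀ x : 𝓞 K, φ (x : K) = (φ.comp (algebraMap (𝓞 K) K)) x := fun x => rfl
    simp only [he]
    rw [Matrix.mul_apply, map_sum]
    refine Finset.sum_congr rfl fun m _ => ?_
    rw [Matrix.mul_apply, map_mul, map_sum, Finset.sum_mul]
    refine Finset.sum_congr rfl fun k _ => ?_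
    rw [Matrix.transpose_apply, map_mul]
  rw [h1]
  have h2 : ∀ m k : Fin 3, ‖φ ((U k i : 𝓞 K) : K) * φ ((M k m : 𝓞 K) : K) * φ ((U m j : 𝓞 K) : K)‖ ≤
      κ * (l i * l j) := by
    intro m k
    rw [norm_mul, norm_mul]
    have hk := hl k
    have hm := hl m
    have hi := hl i
    have hj := hl j
    calc ‖φ ((U k i : 𝓞 K) : K)‖ * ‖φ ((M k m : 𝓞 K) : K)‖ * ‖φ ((U m j : 𝓞 K) : K)‖
        ≤ (l i / l k) * (κ * (l k * l m)) * (l j / l m) := by
          refine mul_le_mul (mul_le_mul (hU φ k i) (hM k m φ) (norm_nonneg _) (by positivity))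
            (hU φ m j) (norm_nonneg _) (by positivity)
      _ = κ * (l i * l j) := by
          field_simp
  calc ‖∑ m : Fin 3, ∑ k : Fin 3, φ ((U k i : 𝓞 K) : K) * φ ((M k m : 𝓞 K) : K) * φ ((U m j : 𝓞 K) : K)‖
      ≤ ∑ m : Fin 3, ∑ k : Fin 3,
        ‖φ ((U k i : 𝓞 K) : K) * φ ((M k m : 𝓞 K) : K) * φ ((U m j : 𝓞 K) : K)‖ := by
        refine (norm_sum_le _ _).trans (Finset.sum_le_sum fun m _ => norm_sum_le _ _)
    _ ≤ ∑ m : Fin 3, ∑ k : Fin 3, κ * (l i * l j) :=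
        Finset.sum_le_sum fun m _ => Finset.sum_le_sum fun k _ => h2 m k
    _ = 9 * κ * (l i * l j) := by
        simp only [Finset.sum_const, Finset.card_univ, Fintype.card_fin]
        simp only [nsmul_eq_mul]
        push_cast
        ring

theorem bx_act {κ T1 T2 : ℝ} (hκ : 0 ≤ κ) {l : Fin 3 → ℝ} (ho : Or T1 T2 l) {B C : M3 (𝓞 K)} (h : Bx κ T1 T2 l B C) {n a b c : 𝓞 K}
    (hn : Bd (T2 / T1) n) (ha : Bd (l 1 / l 0) a) (hb : Bd (l 2 / l 0) b) (hc : Bd (l 2 / l 1) c) :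
    Bx (18 * κ) T1 T2 l (tB n (Un a b c) B C) (tC (Un a b c) C) := by
  have h0 := ho.l0
  have h1 : 0 < l 1 := lt_of_lt_of_le h0 ho.l1
  have h2 : 0 < l 2 := lt_of_lt_of_le h1 ho.l2
  have hl : ∀ i, 0 < l i := by
    intro i
    fin_cases i
    · exact h0
    · exact h1
    · exact h2
  have hT1 : 0 < T1 := lt_of_lt_of_le one_pos ho.t1
  have hT2 : 0 < T2 := lt_of_lt_of_le hT1 ho.t2
  have hU := fun φ k i => un_bd (K := K) ho ha hb hc φ k i
  have hMB : ∀ i j, Bd ((2 * κ / T1) * (l i * l j)) ((B - n • C) i j) := by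
    intro i j φ
    have e1 : φ (((B - n • C) i j : 𝓞 K) : K) = φ ((B i j : 𝓞 K) : K) - φ ((n : 𝓞 K) : K) * φ ((C i j : 𝓞 K) : K) := by
      have he : ∀ x : 𝓞 K, φ (x : K) = (φ.comp (algebraMap (𝓞 K) K)) x := fun x => rfl
      simp only [he]
      rw [Matrix.sub_apply, Matrix.smul_apply, smul_eq_mul, map_sub, map_mul]
    rw [e1]
    have e2 := (h i j).1 φ
    have e3 := (h i j).2 φ
    have e4 := hn φ
    calc ‖φ ((B i j : 𝓞 K) : K) - φ ((n : 𝓞 K) : K) * φ ((C i j : 𝓞 K) : K)‖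
        ≤ ‖φ ((B i j : 𝓞 K) : K)‖ + ‖φ ((n : 𝓞 K) : K) * φ ((C i j : 𝓞 K) : K)‖ := norm_sub_le _ _
      _ ≤ κ * (l i * l j) / T1 + (T2 / T1) * (κ * (l i * l j) / T2) := by
          rw [norm_mul]
          exact add_le_add e2 (mul_le_mul e4 e3 (norm_nonneg _) (by positivity))
      _ = (2 * κ / T1) * (l i * l j) := by
          field_simp
          ring
  have hMC : ∀ i j, Bd ((κ / T2) * (l i * l j)) (C i j) := by
    intro i j φ
    refine ((h i j).2 φ).trans (le_of_eq ?_)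
    ring
  intro i j
  have hi := hl i
  have hj := hl j
  constructor
  · intro φ
    refine (conj_bd hl (by positivity) hU hMB i j φ).trans (le_of_eq ?_)
    ring
  · intro φ
    refine (conj_bd hl (by positivity) hU hMC i j φ).trans ?_
    have : 9 * (κ / T2) * (l i * l j) = 9 * (κ * (l i * l j) / T2) := by ring
    rw [this]
    have h3 : 0 ≤ κ * (l i * l j) / T2 := by positivity
    have h4 : 18 * κ * (l i * l j) / T2 = 18 * (κ * (l i * l j) / T2) := by ring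
    rw [h4]
    linarith

private theorem tc_00 (a b c : 𝓞 K) (C : M3 (𝓞 K)) : (tC (Un a b c) C) 0 0 = C 0 0 := by
  simp [tC, Un, Matrix.mul_apply, Fin.sum_univ_three]

private theorem tc_01 (a b c : 𝓞 K) (C : M3 (𝓞 K)) : (tC (Un a b c) C) 0 1 = C 0 0 * a + C 0 1 := by
  simp [tC, Un, Matrix.mul_apply, Fin.sum_univ_three]

private theorem tc_02 (a b c : 𝓞 K) (C : M3 (𝓞 K)) :
    (tC (Un a b c) C) 0 2 = C 0 0 * b + C 0 1 * c + C 0 2 := by
  simp [tC, Un, Matrix.mul_apply, Fin.sum_univ_three]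

private theorem tc_11 (a b c : 𝓞 K) (C : M3 (𝓞 K)) :
    (tC (Un a b c) C) 1 1 = (a * C 0 0 + C 1 0) * a + (a * C 0 1 + C 1 1) := by
  simp [tC, Un, Matrix.mul_apply, Fin.sum_univ_three]

private theorem tb_eq (n a b c : 𝓞 K) (B C : M3 (𝓞 K)) : tB n (Un a b c) B C = tC (Un a b c) (B - n • C) := rfl

private theorem sub_ap (n : 𝓞 K) (B C : M3 (𝓞 K)) (i j : Fin 3) : (B - n • C) i j = B i j - n * C i j := by
  rw [Matrix.sub_apply, Matrix.smul_apply, smul_eq_mul]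

theorem ca_A {B C : M3 (𝓞 K)} (n a b c : 𝓞 K) (h : CaA B C) :
    CaA (tB n (Un a b c) B C) (tC (Un a b c) C) := by
  unfold CaA at *
  rw [tc_00]
  exact h

theorem ca_B {B C : M3 (𝓞 K)} (n a b c : 𝓞 K) (h : CaB B C) :
    CaB (tB n (Un a b c) B C) (tC (Un a b c) C) := by
  obtain ⟨h0, h1, h2⟩ := h
  refine ⟨?_, ?_, ?_⟩
  · rw [tc_00]
    exact h0
  · rw [tc_01, h0, zero_mul, zero_add]
    exact h1
  · rw [tb_eq, tc_00, sub_ap, h0, mul_zero, sub_zero]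
    exact h2

theorem ca_C {B C : M3 (𝓞 K)} (hC : Cᵀ = C) (n a b c : 𝓞 K) (h : CaC B C) :
    CaC (tB n (Un a b c) B C) (tC (Un a b c) C) := by
  obtain ⟨h0, h1, h2, h3, h4⟩ := h
  have h10 : C 1 0 = 0 := by
    rw [← h1, ← Matrix.transpose_apply C, hC]
  refine ⟨?_, ?_, ?_, ?_, ?_⟩
  · rw [tc_00]
    exact h0
  · rw [tc_01, h0, zero_mul, zero_add]
    exact h1
  · rw [tc_02, h0, h1, zero_mul, zero_mul, zero_add, zero_add]
    exact h2
  · rw [tc_11, h0, h1, h10, mul_zero, add_zero, zero_mul, zero_add, zero_add]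
    exact h3
  · rw [tb_eq, tc_00, sub_ap, h0, mul_zero, sub_zero]
    exact h4

theorem ca_D {B C : M3 (𝓞 K)} (hB : Bᵀ = B) (hC : Cᵀ = C) {m : ℕ} (n a b : 𝓞 K) (h : CaD m B C) :
    CaD m (tB n (Un a b n) B C) (tC (Un a b n) C) := by
  obtain ⟨h0, h1, h2, h3, h4, h5, h6⟩ := h
  have h10 : C 1 0 = 0 := by
    rw [← h3, ← Matrix.transpose_apply C, hC]
  refine ⟨?_, ?_, ?_, ?_, ?_, ?_, ?_⟩
  · rw [tb_eq, tc_00, sub_ap, h0, h1, mul_zero, sub_zero]
  · rw [tc_00]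
    exact h1
  · rw [tb_eq, tc_01, sub_ap, sub_ap, h0, h1, h2, h3]
    ring
  · rw [tc_01, h1, h3]
    ring
  · rw [tb_eq, tc_02, sub_ap, sub_ap, sub_ap, h0, h1, h2, h3, h4, h5]
    ring
  · rw [tc_02, h1, h3, h5]
    ring
  · rw [tc_11, h1, h3, h10, mul_zero, add_zero, zero_mul, zero_add, zero_add]
    exact h6

end H88.SW
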