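import Pool.Agent.H88.SW.Defs

/-!
# [H88 SW ALG] The pairs of matrices: change of the bases, nonvanishing (60 min)

`rp_act`: new functionals `p - n q`, `q`, new basis `x' j = ∑ i, U i j • x i`. `LinearIndependent K ![p - n • q, q]` (from `![p, q]`: `LinearIndependent.pair_iff`), `x'` is linearly independent because `U.det ≠ 0` (if
`∑ c j • x' j = 0` then `U *ᵥ c = 0`, `Matrix.mulVec` injective, or `Matrix.eq_zero_of_mulVec_eq_zero`). `a * x' i * x' j = ∑ k, ∑ l, U k i * U l j • (a * x k * x l)`, linearity of `p - n q`, and `(Uᵀ * (B - n • C) * U) i j = ∑ k l, U k i (B k l - n C k l) U l j`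
(`Matrix.mul_apply`, `Fin.sum_univ_three`, `ring`).
`rp_inj`: the basis `x` (`basisOfLinearIndependentOfCardEqFinrank`) spans `F`.
`rp_det`: if `C.det = 0` there is `v ≠ 0` with `C *ᵥ v = 0` (`Matrix.exists_mulVec_eq_zero_iff`); `y = ∑ v j • x j ≠ 0`; `q (a * x i * y) = 0` for all `i`, so `q (a * y * z) = 0` for all `z`, `a y ≠ 0`, so `q = 0`: contradiction to the linear independence of `![p, q]`.
`rp_symm`: `a x_i x_j = a x_j x_i`.
`rp_b11`: suppose `B 0 0 = 0 = C 0 0`. `p` and `q` vanish at `y = a * x 0 ^ 2` and at `1`; `p`, `q` linearly independent, `finrank K F = 3`, so the common kernel has dimension one (if `1, y` were independent, extend by `z` to a basis; then `p = p z · z*`, `q = q z · z*` are dependent) and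
`y = algebraMap c`. So `a = c / x0 ^ 2`, `c ≠ 0`, `norm a * norm (x0) ^ 2 = c ^ 3` (`Algebra.norm_algebraMap`), `norm a` is a square, so `c ^ 3` and `c = c ^ 3 / c ^ 2` are squares in `K`, and `a` is a square in `F`: contradiction.
-/

set_option autoImplicit false

open scoped NumberField nonZeroDivisors Matrix

noncomputable section

namespace H88.SW

variable {K : Type} [Field K] {F : Type} [Field F] [Algebra K F]

theorem rp_symm {a : F} {B C : M3 K} (h : Rp a B C) : Bᵀ = B ∧ Cᵀ = C := by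
  obtain ⟨p, q, x, -, -, -, -, hx⟩ := h
  constructor
  · ext i j
    rw [Matrix.transpose_apply, (hx j i).1, (hx i j).1, mul_right_comm]
  · ext i j
    rw [Matrix.transpose_apply, (hx j i).2, (hx i j).2, mul_right_comm]

theorem rp_act {a : F} {B C : M3 K} (h : Rp a B C) (n : K) {U : M3 K} (hU : U.det ≠ 0) : Rp a (tB n U B C) (tC U C) := by
  obtain ⟨p, q, x, hp, hq, hpq, hx, hB⟩ := h
  have key : ∀ (r : F →ₗ[K] K) (i j : Fin 3), r (a * (∑ k, U k i • x k) * ∑ l, U l j • x l) =
      ∑ k, ∑ l, U k i * (r (a * x k * x l)) * U l j := by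
    intro r i j
    rw [Finset.mul_sum (s := Finset.univ) (f := fun k => U k i • x k), Finset.sum_mul, map_sum]
    refine Finset.sum_congr rfl fun k _ => ?_
    rw [Finset.mul_sum, map_sum]
    refine Finset.sum_congr rfl fun l _ => ?_
    rw [mul_smul_comm, mul_smul_comm, smul_mul_assoc, map_smul, map_smul, smul_eq_mul, smul_eq_mul]
    ring
  refine ⟨p - n • q, q, fun j => ∑ i, U i j • x i, ?_, hq, ?_, ?_, ?_⟩
  · rw [LinearMap.sub_apply, LinearMap.smul_apply, hp, hq, smul_zero, sub_zero]
  · rw [LinearIndependent.pair_iff] at hpq ⊢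
    intro s t h
    have h1 : s • p + (t - s * n) • q = 0 := by
      rw [← h]
      module
    obtain ⟨h2, h3⟩ := hpq _ _ h1
    rw [h2, zero_mul, sub_zero] at h3
    exact ⟨h2, h3⟩
  · rw [Fintype.linearIndependent_iff] at hx ⊢
    intro c hc
    have h1 : ∑ i, (U *ᵥ c) i • x i = 0 := by
      rw [← hc]
      simp only [Matrix.mulVec, dotProduct, Finset.sum_smul, Finset.smul_sum]
      rw [Finset.sum_comm]
      refine Finset.sum_congr rfl fun j _ => Finset.sum_congr rfl fun i _ => ?_
      rw [smul_smul, mul_comm]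
    have h2 : U *ᵥ c = 0 := funext (hx _ h1)
    exact congrFun (Matrix.eq_zero_of_mulVec_eq_zero hU h2)
  · intro i j
    constructor
    · beta_reduce
      rw [key, tB, Matrix.mul_apply]
      simp only [Matrix.mul_apply, Matrix.transpose_apply, Matrix.sub_apply, Matrix.smul_apply, LinearMap.sub_apply,
        LinearMap.smul_apply, Finset.sum_mul, (hB _ _).1, (hB _ _).2]
      rw [Finset.sum_comm]
    · beta_reduce
      rw [key, tC, Matrix.mul_apply]
      simp only [Matrix.mul_apply, Matrix.transpose_apply, Finset.sum_mul, (hB _ _).2]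
      rw [Finset.sum_comm]

theorem rp_det (hd : Module.finrank K F = 3) {a : F} (ha : a ≠ 0) {B C : M3 K} (h : Rp a B C) : C.det ≠ 0 := by
  classical
  obtain ⟨p, q, x, hp, hq, hpq, hx, hB⟩ := h
  intro hdet
  obtain ⟨v, hv0, hv⟩ := Matrix.exists_mulVec_eq_zero_iff.2 hdet
  have hy : ∑ j, v j • x j ≠ 0 := by
    intro h1
    exact hv0 (funext (Fintype.linearIndependent_iff.1 hx v h1))
  have : FiniteDimensional K F := FiniteDimensional.of_finrank_pos (by rw [hd]; norm_num)
  have hspan : Submodule.span K (Set.range x) = ⊤ :=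
    hx.span_eq_top_of_card_eq_finrank' (by rw [hd, Fintype.card_fin])
  let L : F →ₗ[K] K := q ∘ₗ (LinearMap.mulLeft K (a * ∑ j, v j • x j))
  have hL : L = 0 := by
    refine LinearMap.ext_on_range hspan fun i => ?_
    have h1 := congrFun hv i
    change q (a * (∑ j, v j • x j) * x i) = 0
    have h2 : a * (∑ j, v j • x j) * x i = ∑ j, v j • (a * x i * x j) := by
      rw [Finset.mul_sum, Finset.sum_mul]
      refine Finset.sum_congr rfl fun j _ => ?_
      rw [mul_smul_comm, smul_mul_assoc, mul_right_comm]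
    rw [h2, map_sum]
    rw [Matrix.mulVec, dotProduct, Pi.zero_apply] at h1
    rw [← h1]
    refine Finset.sum_congr rfl fun j _ => ?_
    rw [map_smul, smul_eq_mul, (hB i j).2, mul_comm]
  have hq0 : q = 0 := by
    ext w
    have h1 := LinearMap.congr_fun hL ((a * ∑ j, v j • x j)⁻¹ * w)
    change q ((a * ∑ j, v j • x j) * ((a * ∑ j, v j • x j)⁻¹ * w)) = 0 at h1
    rw [mul_inv_cancel_left₀ (mul_ne_zero ha hy)] at h1
    exact h1
  have h1 := hpq.ne_zero 1
  exact h1 hq0

theorem rp_b11 (hd : Module.finrank K F = 3) {a : F} (ha : a ≠ 0) (hn : IsSquare (Algebra.norm K a)) (hs : ¬ IsSquare a) {B C : M3 K}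
    (h : Rp a B C) : ¬ (B 0 0 = 0 ∧ C 0 0 = 0) := by
  classical
  obtain ⟨p, q, x, hp, hq, hpq, hx, hB⟩ := h
  rintro ⟨h1, h2⟩
  rw [(hB 0 0).1] at h1
  rw [(hB 0 0).2] at h2
  have : FiniteDimensional K F := FiniteDimensional.of_finrank_pos (by rw [hd]; norm_num)
  have hx0 : x 0 ≠ 0 := hx.ne_zero 0
  obtain ⟨W, hW⟩ : ∃ W, W = (Submodule.span K (Set.range ![p, q])).dualCoannihilator := ⟨_, rfl⟩
  have hmem : ∀ z : F, p z = 0 → q z = 0 → z ∈ W := by
    intro z hz1 hz2
    rw [hW, Submodule.mem_dualCoannihilator]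
    intro φ hφ
    induction hφ using Submodule.span_induction with
    | mem φ hφ =>
      obtain ⟨i, rfl⟩ := hφ
      fin_cases i
      · exact hz1
      · exact hz2
    | zero => rfl
    | add φ ψ _ _ h3 h4 => rw [LinearMap.add_apply, h3, h4, add_zero]
    | smul c φ _ h3 => rw [LinearMap.smul_apply, h3, smul_zero]
  have hW1 : Module.finrank K W = 1 := by
    have h3 := Subspace.finrank_add_finrank_dualCoannihilator_eq (Submodule.span K (Set.range ![p, q]))
    rw [finrank_span_eq_card hpq, Fintype.card_fin, hd, ← hW] at h3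
    omega
  have h1W : (1 : F) ∈ W := hmem 1 hp hq
  have hyW : a * x 0 * x 0 ∈ W := hmem _ h1 h2
  have h3 : (⟨1, h1W⟩ : W) ≠ 0 := fun h => one_ne_zero (congrArg Subtype.val h)
  obtain ⟨c, hc⟩ := (finrank_eq_one_iff_of_nonzero' _ h3).1 hW1 ⟨_, hyW⟩
  have hc' : algebraMap K F c = a * x 0 * x 0 := by
    have h4 := congrArg Subtype.val hc
    rw [Algebra.algebraMap_eq_smul_one]
    exact h4
  have hc0 : c ≠ 0 := by
    rintro rfl
    rw [map_zero] at hc'
    exact mul_ne_zero (mul_ne_zero ha hx0) hx0 hc'.symm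
  obtain ⟨s, hs'⟩ := hn
  have h5 : c ^ 3 = s * s * Algebra.norm K (x 0) * Algebra.norm K (x 0) := by
    rw [← hs', ← map_mul, ← map_mul, ← hc', Algebra.norm_algebraMap, hd]
  have h6 : c = (s * Algebra.norm K (x 0) / c) * (s * Algebra.norm K (x 0) / c) := by
    field_simp
    rw [h5]
    ring
  apply hs
  refine ⟨algebraMap K F (s * Algebra.norm K (x 0) / c) / x 0, ?_⟩
  rw [div_mul_div_comm, ← map_mul, ← h6, hc', eq_div_iff (mul_ne_zero hx0 hx0), mul_assoc]

end H88.SW
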