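import Pool.Agent.H88.SW.Cb

/-!
# [H88 SW YB] The number of the pairs of matrices in a box (90 min)

`w(b i j) = κ l_i l_j / T1`, `w(c i j) = κ l_i l_j / T2`, `w(b i j) ≥ w(c i j)`, increasing in `i` and `j` (`Or`). A symmetric pair is determined by the twelve entries `B i j`, `C i j`, `i ≤ j`. Lemma: a finset of integers, all `Bd w`, with `1 ≤ w`, has at most `C w ^ d` elements (`ball_le`). The map `Y → 𝓞 K ^ 12` (products of the twelve images of `Y`,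
`Finset.card_le_card_of_injOn` into a product of finsets) is injective. If `Y = ∅`: trivial (right sides are nonnegative). Otherwise take `y ∈ Y`.
`cntA`: `C 0 0 ≠ 0`: `1 ≤ w(c 0 0)` (`one_le_bd`), so all `w ≥ 1`; `∏ w = κ ^ 12 (l0 l1 l2) ^ 8 / (T1 T2) ^ 6` (each of the two products of the six `l_i l_j`, `i ≤ j`, is `(l0 l1 l2) ^ 4`).
`cntB`: `C 0 0 = 0`: eleven entries; `1 ≤ w(c 0 1)`, `1 ≤ w(b 0 0)`; all the others are at least one of these two: `c 0 2, c 1 1 (l_1 l_1 ≥ l_0 l_1), c 1 2, c 2 2` are at least `w(c 0 1)`, the `b` at least `w(b 0 0)`. Product = (product of the twelve) / w(c 0 0) = `.. * T2 / (κ l0 ^ 2)`.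
`cntC`: `C 0 0 = C 0 1 = 0`: ten entries; `1 ≤ w(c 0 2)`, `1 ≤ w(c 1 1)`, `1 ≤ w(b 0 0)`, the others: `c 1 2 ≥ c 1 1`, `c 2 2`. Product = (product of the twelve) / (w(c 0 0) w(c 0 1)).
`cntD`: `l = (1, T1, T2)`, `m ≤ κ` natural (at most `κ` values, `κ + 1` with zero): the entries `B 0 0, C 0 0, C 0 1, B 0 2` are zero, `B 0 1 = C 0 2 = m`; free: `B 1 1, B 1 2, B 2 2, C 1 1, C 1 2, C 2 2` with `w = κ T1, κ T2, κ T2 ^ 2 / T1, κ T1 ^ 2 / T2, κ T1, κ T2`; `C 1 1 ≠ 0` gives `1 ≤ κ T1 ^ 2 / T2`, all the others are larger. Product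
`κ ^ 6 (T1 T2) ^ 3`.
-/

set_option autoImplicit false

open scoped NumberField nonZeroDivisors Matrix
open H88.A4 Pool.Agent.H67.WA

noncomputable section

namespace H88.SW

variable (K : Type) [Field K] [NumberField K]

private theorem cnt0 : ∃ C : ℝ, 1 ≤ C ∧ ∀ (κ T1 T2 : ℝ) (l : Fin 3 → ℝ) (n1 n2 : ℕ)
    (s1 : Fin n1 → Fin 3 × Fin 3) (s2 : Fin n2 → Fin 3 × Fin 3) (Y : Finset (M3 (𝓞 K) × M3 (𝓞 K))),
    (∀ y ∈ Y, Bx κ T1 T2 l y.1 y.2) →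
    (∀ k, 1 ≤ κ * (l (s1 k).1 * l (s1 k).2) / T1) → (∀ k, 1 ≤ κ * (l (s2 k).1 * l (s2 k).2) / T2) →
    (∀ y ∈ Y, ∀ y' ∈ Y, (∀ k, y.1 (s1 k).1 (s1 k).2 = y'.1 (s1 k).1 (s1 k).2) →
      (∀ k, y.2 (s2 k).1 (s2 k).2 = y'.2 (s2 k).1 (s2 k).2) → y = y') →
    (Y.card : ℝ) ≤ C ^ (n1 + n2) * ((∏ k, κ * (l (s1 k).1 * l (s1 k).2) / T1) *
      (∏ k, κ * (l (s2 k).1 * l (s2 k).2) / T2)) ^ Module.finrank ℚ K := by
  classical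
  obtain ⟨C, hC1, hC⟩ := ball_le K
  refine ⟨C, hC1, ?_⟩
  intro κ T1 T2 l n1 n2 s1 s2 Y hY h1 h2 hinj
  obtain ⟨e, he1, he2⟩ : ∃ e : Fin n1 ⊕ Fin n2 → M3 (𝓞 K) × M3 (𝓞 K) → 𝓞 K,
      (∀ k y, e (Sum.inl k) y = y.1 (s1 k).1 (s1 k).2) ∧ (∀ k y, e (Sum.inr k) y = y.2 (s2 k).1 (s2 k).2) :=
    ⟨fun i y => Sum.elim (fun k => y.1 (s1 k).1 (s1 k).2) (fun k => y.2 (s2 k).1 (s2 k).2) i,
      fun _ _ => rfl, fun _ _ => rfl⟩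
  obtain ⟨w, hw1, hw2⟩ : ∃ w : Fin n1 ⊕ Fin n2 → ℝ,
      (∀ k, w (Sum.inl k) = κ * (l (s1 k).1 * l (s1 k).2) / T1) ∧
      (∀ k, w (Sum.inr k) = κ * (l (s2 k).1 * l (s2 k).2) / T2) :=
    ⟨Sum.elim (fun k => κ * (l (s1 k).1 * l (s1 k).2) / T1) (fun k => κ * (l (s2 k).1 * l (s2 k).2) / T2),
      fun _ => rfl, fun _ => rfl⟩
  have hw : ∀ i, 1 ≤ w i := by
    rintro (k | k)
    · rw [hw1]
      exact h1 k
    · rw [hw2]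
      exact h2 k
  have hb : ∀ i, ∀ y ∈ Y, Bd (w i) (e i y) := by
    rintro (k | k) y hy
    · rw [hw1, he1]
      exact (hY y hy _ _).1
    · rw [hw2, he2]
      exact (hY y hy _ _).2
  have hcard : Y.card ≤ (Fintype.piFinset fun i => Y.image (e i)).card := by
    refine Finset.card_le_card_of_injOn (fun y i => e i y) ?_ ?_
    · intro y hy
      rw [Finset.mem_coe, Fintype.mem_piFinset]
      intro i
      exact Finset.mem_image_of_mem _ hy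
    · intro y hy y' hy' h
      refine hinj y hy y' hy' (fun k => ?_) (fun k => ?_)
      · have h3 := congrFun h (Sum.inl k)
        simp only [he1] at h3
        exact h3
      · have h3 := congrFun h (Sum.inr k)
        simp only [he2] at h3
        exact h3
  rw [Fintype.card_piFinset] at hcard
  have hcard' : (Y.card : ℝ) ≤ ∏ i, ((Y.image (e i)).card : ℝ) := by
    exact_mod_cast hcard
  refine hcard'.trans ?_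
  have h3 : ∏ i, ((Y.image (e i)).card : ℝ) ≤ ∏ i, C * w i ^ Module.finrank ℚ K := by
    refine Finset.prod_le_prod (fun i _ => Nat.cast_nonneg _) fun i _ => ?_
    refine hC (w i) (hw i) _ ?_
    intro x hx
    obtain ⟨y, hy, rfl⟩ := Finset.mem_image.1 hx
    exact hb i y hy
  refine h3.trans (le_of_eq ?_)
  rw [Finset.prod_mul_distrib, Finset.prod_const, Finset.prod_pow, Fintype.prod_sum_type,
    Finset.card_univ, Fintype.card_sum, Fintype.card_fin, Fintype.card_fin]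
  simp only [hw1, hw2]

variable {K}

omit [NumberField K] in
private theorem sym_ext {A A' : M3 (𝓞 K)} (hA : Aᵀ = A) (hA' : A'ᵀ = A') (h00 : A 0 0 = A' 0 0)
    (h01 : A 0 1 = A' 0 1) (h02 : A 0 2 = A' 0 2) (h11 : A 1 1 = A' 1 1) (h12 : A 1 2 = A' 1 2)
    (h22 : A 2 2 = A' 2 2) : A = A' := by
  have a1 : A 1 0 = A 0 1 := congrFun (congrFun hA 0) 1
  have a2 : A 2 0 = A 0 2 := congrFun (congrFun hA 0) 2
  have a3 : A 2 1 = A 1 2 := congrFun (congrFun hA 1) 2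
  have b1 : A' 1 0 = A' 0 1 := congrFun (congrFun hA' 0) 1
  have b2 : A' 2 0 = A' 0 2 := congrFun (congrFun hA' 0) 2
  have b3 : A' 2 1 = A' 1 2 := congrFun (congrFun hA' 1) 2
  have c1 : A 1 0 = A' 1 0 := by rw [a1, b1, h01]
  have c2 : A 2 0 = A' 2 0 := by rw [a2, b2, h02]
  have c3 : A 2 1 = A' 2 1 := by rw [a3, b3, h12]
  apply Matrix.ext
  intro i j
  fin_cases i <;> fin_cases j
  · exact h00
  · exact h01
  · exact h02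
  · exact c1
  · exact h11
  · exact h12
  · exact c2
  · exact c3
  · exact h22

/-- the six entries -/
private def s6 : Fin 6 → Fin 3 × Fin 3 := ![(0, 0), (0, 1), (0, 2), (1, 1), (1, 2), (2, 2)]

private def s5 : Fin 5 → Fin 3 × Fin 3 := ![(0, 1), (0, 2), (1, 1), (1, 2), (2, 2)]

private def s4 : Fin 4 → Fin 3 × Fin 3 := ![(0, 2), (1, 1), (1, 2), (2, 2)]

private def s3 : Fin 3 → Fin 3 × Fin 3 := ![(1, 1), (1, 2), (2, 2)]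

private theorem p6 (l : Fin 3 → ℝ) (κ T : ℝ) (hT : T ≠ 0) :
    ∏ k, κ * (l (s6 k).1 * l (s6 k).2) / T = κ ^ 6 * (l 0 * l 1 * l 2) ^ 4 / T ^ 6 := by
  rw [Fin.prod_univ_six]
  show κ * (l 0 * l 0) / T * (κ * (l 0 * l 1) / T) * (κ * (l 0 * l 2) / T) * (κ * (l 1 * l 1) / T) *
    (κ * (l 1 * l 2) / T) * (κ * (l 2 * l 2) / T) = _
  field_simp

private theorem p5 (l : Fin 3 → ℝ) (κ T : ℝ) (hT : T ≠ 0) (h0 : l 0 ≠ 0) :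
    ∏ k, κ * (l (s5 k).1 * l (s5 k).2) / T = κ ^ 5 * (l 0 * l 1 * l 2) ^ 4 / T ^ 6 * (T / l 0 ^ 2) := by
  rw [Fin.prod_univ_five]
  show κ * (l 0 * l 1) / T * (κ * (l 0 * l 2) / T) * (κ * (l 1 * l 1) / T) *
    (κ * (l 1 * l 2) / T) * (κ * (l 2 * l 2) / T) = _
  field_simp

private theorem p4 (l : Fin 3 → ℝ) (κ T : ℝ) (hT : T ≠ 0) (h0 : l 0 ≠ 0) (h1 : l 1 ≠ 0) :
    ∏ k, κ * (l (s4 k).1 * l (s4 k).2) / T =
      κ ^ 4 * (l 0 * l 1 * l 2) ^ 4 / T ^ 6 * (T / l 0 ^ 2) * (T / (l 0 * l 1)) := by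
  rw [Fin.prod_univ_four]
  show κ * (l 0 * l 2) / T * (κ * (l 1 * l 1) / T) *
    (κ * (l 1 * l 2) / T) * (κ * (l 2 * l 2) / T) = _
  field_simp

private theorem p3 (κ T1 T2 T : ℝ) (hT : T ≠ 0) :
    ∏ k, κ * ((![1, T1, T2] : Fin 3 → ℝ) (s3 k).1 * (![1, T1, T2] : Fin 3 → ℝ) (s3 k).2) / T =
      κ ^ 3 * (T1 * T2) ^ 3 / T ^ 3 := by
  rw [Fin.prod_univ_three]
  show κ * (T1 * T1) / T * (κ * (T1 * T2) / T) * (κ * (T2 * T2) / T) = _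
  field_simp

private theorem mon {κ T a b : ℝ} (hκ : 0 ≤ κ) (hT : 0 < T) (hab : a ≤ b) (h : 1 ≤ κ * a / T) :
    1 ≤ κ * b / T :=
  h.trans (div_le_div_of_nonneg_right (mul_le_mul_of_nonneg_left hab hκ) hT.le)

private theorem monT {κ T1 T2 a : ℝ} (hκ : 0 ≤ κ) (ha : 0 ≤ a) (hT : 0 < T1) (h12 : T1 ≤ T2) (h : 1 ≤ κ * a / T2) :
    1 ≤ κ * a / T1 :=
  h.trans (div_le_div_of_nonneg_left (mul_nonneg hκ ha) hT h12)

private theorem or_le {T1 T2 : ℝ} {l : Fin 3 → ℝ} (ho : Or T1 T2 l) : ∀ i, l 0 ≤ l i ∧ 0 < l i := by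
  have h0 := ho.l0
  have h1 := ho.l1
  have h2 := ho.l2
  intro i
  fin_cases i
  · exact ⟨le_rfl, h0⟩
  · exact ⟨h1, h0.trans_le h1⟩
  · exact ⟨h1.trans h2, h0.trans_le (h1.trans h2)⟩

omit [NumberField K] in
private theorem inj6 {A A' : M3 (𝓞 K)} (hA : Aᵀ = A) (hA' : A'ᵀ = A')
    (h : ∀ k, A (s6 k).1 (s6 k).2 = A' (s6 k).1 (s6 k).2) : A = A' :=
  sym_ext hA hA' (h 0) (h 1) (h 2) (h 3) (h 4) (h 5)

variable (K)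

theorem cntA : ∀ κ : ℝ, 1 ≤ κ → ∃ C' : ℝ, 0 < C' ∧ ∀ (T1 T2 : ℝ) (l : Fin 3 → ℝ), Or T1 T2 l → ∀ Y : Finset (M3 (𝓞 K) × M3 (𝓞 K)),
    (∀ y ∈ Y, y.1ᵀ = y.1 ∧ y.2ᵀ = y.2 ∧ Bx κ T1 T2 l y.1 y.2 ∧ CaA y.1 y.2) →
    (Y.card : ℝ) ≤ C' * ((l 0 * l 1 * l 2) ^ 8 / (T1 * T2) ^ 6) ^ Module.finrank ℚ K := by
  intro κ hκ
  obtain ⟨C, hC1, hC⟩ := cnt0 K
  refine ⟨C ^ 12 * (κ ^ 12) ^ Module.finrank ℚ K, by positivity, ?_⟩
  intro T1 T2 l ho Y hY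
  have hT1 : 0 < T1 := zero_lt_one.trans_le ho.t1
  have hT2 : 0 < T2 := hT1.trans_le ho.t2
  have hl := or_le ho
  have hκ0 : 0 ≤ κ := zero_le_one.trans hκ
  have hR : 0 ≤ (l 0 * l 1 * l 2) ^ 8 / (T1 * T2) ^ 6 :=
    div_nonneg (pow_nonneg (mul_pos (mul_pos (hl 0).2 (hl 1).2) (hl 2).2).le _) (by positivity)
  rcases Y.eq_empty_or_nonempty with rfl | ⟨y, hy⟩
  · rw [Finset.card_empty, Nat.cast_zero]
    exact mul_nonneg (by positivity) (pow_nonneg hR _)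
  have h00 : 1 ≤ κ * (l 0 * l 0) / T2 := one_le_bd (hY y hy).2.2.2 ((hY y hy).2.2.1 0 0).2
  have hgen : ∀ i j, 1 ≤ κ * (l i * l j) / T2 := fun i j =>
    mon hκ0 hT2 (mul_le_mul (hl i).1 (hl j).1 (hl 0).2.le (hl i).2.le) h00
  have h1 := hC κ T1 T2 l 6 6 s6 s6 Y (fun y hy => (hY y hy).2.2.1)
    (fun k => monT hκ0 (mul_nonneg (hl _).2.le (hl _).2.le) hT1 ho.t2 (hgen _ _)) (fun k => hgen _ _)
    (fun y hy y' hy' e1 e2 => Prod.ext (inj6 (hY y hy).1 (hY y' hy').1 e1)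
      (inj6 (hY y hy).2.1 (hY y' hy').2.1 e2))
  refine h1.trans (le_of_eq ?_)
  have e : κ ^ 6 * (l 0 * l 1 * l 2) ^ 4 / T1 ^ 6 * (κ ^ 6 * (l 0 * l 1 * l 2) ^ 4 / T2 ^ 6) =
      κ ^ 12 * ((l 0 * l 1 * l 2) ^ 8 / (T1 * T2) ^ 6) := by field_simp
  rw [p6 l κ T1 hT1.ne', p6 l κ T2 hT2.ne', e, mul_pow (κ ^ 12)]
  exact (mul_assoc _ _ _).symm

theorem cntB : ∀ κ : ℝ, 1 ≤ κ → ∃ C' : ℝ, 0 < C' ∧ ∀ (T1 T2 : ℝ) (l : Fin 3 → ℝ), Or T1 T2 l → ∀ Y : Finset (M3 (𝓞 K) × M3 (𝓞 K)),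
    (∀ y ∈ Y, y.1ᵀ = y.1 ∧ y.2ᵀ = y.2 ∧ Bx κ T1 T2 l y.1 y.2 ∧ CaB y.1 y.2) →
    (Y.card : ℝ) ≤ C' * ((l 0 * l 1 * l 2) ^ 8 / (T1 * T2) ^ 6 * (T2 / l 0 ^ 2)) ^ Module.finrank ℚ K := by
  intro κ hκ
  obtain ⟨C, hC1, hC⟩ := cnt0 K
  refine ⟨C ^ 11 * (κ ^ 11) ^ Module.finrank ℚ K, by positivity, ?_⟩
  intro T1 T2 l ho Y hY
  have hT1 : 0 < T1 := zero_lt_one.trans_le ho.t1
  have hT2 : 0 < T2 := hT1.trans_le ho.t2
  have hl := or_le ho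
  have hκ0 : 0 ≤ κ := zero_le_one.trans hκ
  have hR : 0 ≤ (l 0 * l 1 * l 2) ^ 8 / (T1 * T2) ^ 6 :=
    div_nonneg (pow_nonneg (mul_pos (mul_pos (hl 0).2 (hl 1).2) (hl 2).2).le _) (by positivity)
  rcases Y.eq_empty_or_nonempty with rfl | ⟨y, hy⟩
  · rw [Finset.card_empty, Nat.cast_zero]
    exact mul_nonneg (by positivity) (pow_nonneg (mul_nonneg hR (by positivity)) _)
  have h01 : 1 ≤ κ * (l 0 * l 1) / T2 := one_le_bd (hY y hy).2.2.2.2.1 ((hY y hy).2.2.1 0 1).2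
  have h00 : 1 ≤ κ * (l 0 * l 0) / T1 := one_le_bd (hY y hy).2.2.2.2.2 ((hY y hy).2.2.1 0 0).1
  have hgen1 : ∀ i j, 1 ≤ κ * (l i * l j) / T1 := fun i j =>
    mon hκ0 hT1 (mul_le_mul (hl i).1 (hl j).1 (hl 0).2.le (hl i).2.le) h00
  have hgen2 : ∀ i j, l 1 ≤ l j → 1 ≤ κ * (l i * l j) / T2 := fun i j hj =>
    mon hκ0 hT2 (mul_le_mul (hl i).1 hj (hl 1).2.le (hl i).2.le) h01
  have hs5 : ∀ k, l 1 ≤ l (s5 k).2 := by
    intro k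
    fin_cases k
    · exact le_rfl
    · exact ho.l2
    · exact le_rfl
    · exact ho.l2
    · exact ho.l2
  have h1 := hC κ T1 T2 l 6 5 s6 s5 Y (fun y hy => (hY y hy).2.2.1)
    (fun k => hgen1 _ _) (fun k => hgen2 _ _ (hs5 k))
    (fun y hy y' hy' e1 e2 => Prod.ext (inj6 (hY y hy).1 (hY y' hy').1 e1)
      (sym_ext (hY y hy).2.1 (hY y' hy').2.1 ((hY y hy).2.2.2.1.trans (hY y' hy').2.2.2.1.symm)
        (e2 0) (e2 1) (e2 2) (e2 3) (e2 4)))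
  refine h1.trans (le_of_eq ?_)
  have hl0 : l 0 ≠ 0 := ho.l0.ne'
  have e : κ ^ 6 * (l 0 * l 1 * l 2) ^ 4 / T1 ^ 6 * (κ ^ 5 * (l 0 * l 1 * l 2) ^ 4 / T2 ^ 6 * (T2 / l 0 ^ 2)) =
      κ ^ 11 * ((l 0 * l 1 * l 2) ^ 8 / (T1 * T2) ^ 6 * (T2 / l 0 ^ 2)) := by field_simp
  rw [p6 l κ T1 hT1.ne', p5 l κ T2 hT2.ne' hl0, e, mul_pow (κ ^ 11)]
  exact (mul_assoc _ _ _).symm

theorem cntC : ∀ κ : ℝ, 1 ≤ κ → ∃ C' : ℝ, 0 < C' ∧ ∀ (T1 T2 : ℝ) (l : Fin 3 → ℝ), Or T1 T2 l → ∀ Y : Finset (M3 (𝓞 K) × M3 (𝓞 K)),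
    (∀ y ∈ Y, y.1ᵀ = y.1 ∧ y.2ᵀ = y.2 ∧ Bx κ T1 T2 l y.1 y.2 ∧ CaC y.1 y.2) →
    (Y.card : ℝ) ≤ C' * ((l 0 * l 1 * l 2) ^ 8 / (T1 * T2) ^ 6 * (T2 / l 0 ^ 2) * (T2 / (l 0 * l 1))) ^ Module.finrank ℚ K := by
  intro κ hκ
  obtain ⟨C, hC1, hC⟩ := cnt0 K
  refine ⟨C ^ 10 * (κ ^ 10) ^ Module.finrank ℚ K, by positivity, ?_⟩
  intro T1 T2 l ho Y hY
  have hT1 : 0 < T1 := zero_lt_one.trans_le ho.t1
  have hT2 : 0 < T2 := hT1.trans_le ho.t2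
  have hl := or_le ho
  have hκ0 : 0 ≤ κ := zero_le_one.trans hκ
  have hR : 0 ≤ (l 0 * l 1 * l 2) ^ 8 / (T1 * T2) ^ 6 :=
    div_nonneg (pow_nonneg (mul_pos (mul_pos (hl 0).2 (hl 1).2) (hl 2).2).le _) (by positivity)
  rcases Y.eq_empty_or_nonempty with rfl | ⟨y, hy⟩
  · rw [Finset.card_empty, Nat.cast_zero]
    have h2 : 0 ≤ T2 / (l 0 * l 1) := div_nonneg hT2.le (mul_pos (hl 0).2 (hl 1).2).le
    exact mul_nonneg (by positivity) (pow_nonneg (mul_nonneg (mul_nonneg hR (by positivity)) h2) _)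
  have h02 : 1 ≤ κ * (l 0 * l 2) / T2 := one_le_bd (hY y hy).2.2.2.2.2.1 ((hY y hy).2.2.1 0 2).2
  have h11 : 1 ≤ κ * (l 1 * l 1) / T2 := one_le_bd (hY y hy).2.2.2.2.2.2.1 ((hY y hy).2.2.1 1 1).2
  have h00 : 1 ≤ κ * (l 0 * l 0) / T1 := one_le_bd (hY y hy).2.2.2.2.2.2.2 ((hY y hy).2.2.1 0 0).1
  have hgen1 : ∀ i j, 1 ≤ κ * (l i * l j) / T1 := fun i j =>
    mon hκ0 hT1 (mul_le_mul (hl i).1 (hl j).1 (hl 0).2.le (hl i).2.le) h00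
  have hs4 : ∀ k, 1 ≤ κ * (l (s4 k).1 * l (s4 k).2) / T2 := by
    intro k
    fin_cases k
    · exact h02
    · exact h11
    · exact mon hκ0 hT2 (mul_le_mul le_rfl ho.l2 (hl 1).2.le (hl 1).2.le) h11
    · exact mon hκ0 hT2 (mul_le_mul ho.l2 ho.l2 (hl 1).2.le (hl 2).2.le) h11
  have h1 := hC κ T1 T2 l 6 4 s6 s4 Y (fun y hy => (hY y hy).2.2.1)
    (fun k => hgen1 _ _) hs4
    (fun y hy y' hy' e1 e2 => Prod.ext (inj6 (hY y hy).1 (hY y' hy').1 e1)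
      (sym_ext (hY y hy).2.1 (hY y' hy').2.1 ((hY y hy).2.2.2.1.trans (hY y' hy').2.2.2.1.symm)
        ((hY y hy).2.2.2.2.1.trans (hY y' hy').2.2.2.2.1.symm)
        (e2 0) (e2 1) (e2 2) (e2 3)))
  refine h1.trans (le_of_eq ?_)
  have hl0 : l 0 ≠ 0 := ho.l0.ne'
  have hl1 : l 1 ≠ 0 := (hl 1).2.ne'
  have e : κ ^ 6 * (l 0 * l 1 * l 2) ^ 4 / T1 ^ 6 *
      (κ ^ 4 * (l 0 * l 1 * l 2) ^ 4 / T2 ^ 6 * (T2 / l 0 ^ 2) * (T2 / (l 0 * l 1))) =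
      κ ^ 10 * ((l 0 * l 1 * l 2) ^ 8 / (T1 * T2) ^ 6 * (T2 / l 0 ^ 2) * (T2 / (l 0 * l 1))) := by field_simp
  rw [p6 l κ T1 hT1.ne', p4 l κ T2 hT2.ne' hl0 hl1, e, mul_pow (κ ^ 10)]
  exact (mul_assoc _ _ _).symm

theorem cntD : ∀ κ : ℝ, 1 ≤ κ → ∃ C' : ℝ, 0 < C' ∧ ∀ (T1 T2 : ℝ), 1 ≤ T1 → T1 ≤ T2 → ∀ Y : Finset (M3 (𝓞 K) × M3 (𝓞 K)),
    (∀ y ∈ Y, y.1ᵀ = y.1 ∧ y.2ᵀ = y.2 ∧ Bx κ T1 T2 ![1, T1, T2] y.1 y.2 ∧ ∃ m : ℕ, (m : ℝ) ≤ κ ∧ CaD m y.1 y.2) →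
    (Y.card : ℝ) ≤ C' * ((T1 * T2) ^ 3) ^ Module.finrank ℚ K := by
  intro κ hκ
  classical
  obtain ⟨C, hC1, hC⟩ := cnt0 K
  have hκ0 : 0 ≤ κ := zero_le_one.trans hκ
  refine ⟨(⌊κ⌋₊ + 1) * (C ^ 6 * (κ ^ 6) ^ Module.finrank ℚ K), by positivity, ?_⟩
  intro T1 T2 hT1' hT12 Y hY
  have hT1 : 0 < T1 := zero_lt_one.trans_le hT1'
  have hT2 : 0 < T2 := hT1.trans_le hT12
  have hsub : Y ⊆ (Finset.range (⌊κ⌋₊ + 1)).biUnion fun m => Y.filter fun y => CaD m y.1 y.2 := by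
    intro y hy
    obtain ⟨-, -, -, m, hm, hD⟩ := hY y hy
    rw [Finset.mem_biUnion]
    refine ⟨m, ?_, Finset.mem_filter.2 ⟨hy, hD⟩⟩
    rw [Finset.mem_range, Nat.lt_succ_iff]
    exact Nat.le_floor hm
  have hfil : ∀ m ∈ Finset.range (⌊κ⌋₊ + 1), ((Y.filter fun y => CaD m y.1 y.2).card : ℝ) ≤
      C ^ 6 * (κ ^ 6) ^ Module.finrank ℚ K * ((T1 * T2) ^ 3) ^ Module.finrank ℚ K := by
    intro m _
    rcases (Y.filter fun y => CaD m y.1 y.2).eq_empty_or_nonempty with h0 | ⟨y, hy⟩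
    · rw [h0, Finset.card_empty, Nat.cast_zero]
      positivity
    obtain ⟨hyY, hyD⟩ := Finset.mem_filter.1 hy
    have h11 : 1 ≤ κ * (T1 * T1) / T2 := one_le_bd hyD.2.2.2.2.2.2 ((hY y hyY).2.2.1 1 1).2
    have h12 : T1 * T1 ≤ T1 * T2 := mul_le_mul_of_nonneg_left hT12 hT1.le
    have h22 : T1 * T1 ≤ T2 * T2 := mul_le_mul hT12 hT12 hT1.le hT2.le
    have hs : ∀ k, 1 ≤ κ * ((![1, T1, T2] : Fin 3 → ℝ) (s3 k).1 * (![1, T1, T2] : Fin 3 → ℝ) (s3 k).2) / T2 := by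
      intro k
      fin_cases k
      · exact h11
      · exact mon hκ0 hT2 h12 h11
      · exact mon hκ0 hT2 h22 h11
    have hs' : ∀ k, 1 ≤ κ * ((![1, T1, T2] : Fin 3 → ℝ) (s3 k).1 * (![1, T1, T2] : Fin 3 → ℝ) (s3 k).2) / T1 := by
      intro k
      refine monT hκ0 ?_ hT1 hT12 (hs k)
      fin_cases k
      · exact mul_nonneg hT1.le hT1.le
      · exact mul_nonneg hT1.le hT2.le
      · exact mul_nonneg hT2.le hT2.le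
    have h1 := hC κ T1 T2 ![1, T1, T2] 3 3 s3 s3 (Y.filter fun y => CaD m y.1 y.2)
      (fun y hy => (hY y (Finset.mem_filter.1 hy).1).2.2.1) hs' hs
      (fun y hy y' hy' e1 e2 => by
        obtain ⟨g1, g2⟩ := Finset.mem_filter.1 hy
        obtain ⟨g1', g2'⟩ := Finset.mem_filter.1 hy'
        refine Prod.ext (sym_ext (hY y g1).1 (hY y' g1').1 ?_ ?_ ?_ (e1 0) (e1 1) (e1 2))
          (sym_ext (hY y g1).2.1 (hY y' g1').2.1 ?_ ?_ ?_ (e2 0) (e2 1) (e2 2))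
        · exact g2.1.trans g2'.1.symm
        · exact g2.2.2.1.trans g2'.2.2.1.symm
        · exact g2.2.2.2.2.1.trans g2'.2.2.2.2.1.symm
        · exact g2.2.1.trans g2'.2.1.symm
        · exact g2.2.2.2.1.trans g2'.2.2.2.1.symm
        · exact g2.2.2.2.2.2.1.trans g2'.2.2.2.2.2.1.symm)
    refine h1.trans (le_of_eq ?_)
    have e : κ ^ 3 * (T1 * T2) ^ 3 / T1 ^ 3 * (κ ^ 3 * (T1 * T2) ^ 3 / T2 ^ 3) =
        κ ^ 6 * (T1 * T2) ^ 3 := by field_simp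
    rw [p3 κ T1 T2 T1 hT1.ne', p3 κ T1 T2 T2 hT2.ne', e, mul_pow (κ ^ 6)]
    exact (mul_assoc _ _ _).symm
  have h1 : (Y.card : ℝ) ≤ ∑ m ∈ Finset.range (⌊κ⌋₊ + 1), ((Y.filter fun y => CaD m y.1 y.2).card : ℝ) := by
    have h2 := (Finset.card_le_card hsub).trans Finset.card_biUnion_le
    exact_mod_cast h2
  refine h1.trans ((Finset.sum_le_sum hfil).trans (le_of_eq ?_))
  rw [Finset.sum_const, Finset.card_range, nsmul_eq_mul]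
  push_cast
  ring

end H88.SW
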