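import Pool.Agent.H88.SW.Dc
import Pool.Agent.H88.SW.Yb

/-!
# [H88 SW CLS] The number of the items in one box (90 min)

`P = l0 l1 l2`, `Z = T1 T2`, `d = [K : ℚ]`. `NSq x`: `x.2` is not a square in `x.1`.
`low`: `rp_b11` for the item: `B 0 0 ≠ 0` or `C 0 0 ≠ 0` (the coercion `mK` is injective), so `1 ≤ κ l0 ^ 2 / T1` or `1 ≤ κ l0 ^ 2 / T2` (`one_le_bd`), `T2 ≥ T1 ≥ 1`: `1 ≤ κ l0 ^ 2`, and `1 ≤ κ l0` (if `l0 ≥ 1` clear, otherwise `l0 ^ 2 ≤ l0`).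
`clsN`: choose `B`, `C` for every `x ∈ S` (symmetric by `rp_symm`: `mK` injective). `C.det ≠ 0` (`rp_det`), so exactly one of the cases `CaA`, `CaB`, `CaC` holds: if `C 0 0 = 0` and `C 0 1 = 0` then `C 0 2 ≠ 0` and `C 1 1 ≠ 0` (`Matrix.det_fin_three`, `C` symmetric), and `B 0 0 ≠ 0` if `C 0 0 = 0` (`rp_b11`). `S = SA ∪ SB ∪ SC`. For each of
them: `T` from `trn_ge`, `Y` the image of `SA × T`; `bx_act` (constant `18 κ`), `tsymm`, `ca_A` (`ca_B`, `ca_C`), `cntA` (`cntB`, `cntC`) for `18 κ`; `dcount`: `card SA * c0 (T2/T1 (l2/l0)^2)^d ≤ 3 C' (..)^d`. So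
`card SA ≤ C (P^8/Z^6 * (T1/T2) (l0/l2)^2)^d = C (Z^2 (T1/T2) (l0/l2)^2 (P/Z)^8)^d`;
`card SB ≤ C (P^8/Z^6 * T2/l0^2 * (T1/T2) (l0/l2)^2)^d = C (P^8/Z^6 * T1/l2^2)^d`, and `T1 ≤ Z^(1/2)`, `l2 ≥ P^(1/3)`: `P^8/Z^6 T1/l2^2 ≤ P^(22/3) Z^(-11/2) ≤ κ^8 Z^(22/3 - 11/2) = κ^8 Z^(11/6)` (`P ≤ κ Z`, `κ ≥ 1`);
`card SC ≤ C (P^8/Z^6 * T2/l0^2 * T2/(l0 l1) * (T1/T2)(l0/l2)^2)^d = C (P^7/Z^5 / l2)^d`, `P^7 / (Z^5 l2) ≤ P^(20/3) Z^(-5) ≤ κ^7 Z^(5/3) ≤ κ^7 Z^(11/6)` (`Z ≥ 1`).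
To avoid real powers of `P`: `l2^3 ≥ P`, so `(P^8/Z^6 T1/l2^2)^6 ≤ P^48 Z^(-36) Z^3 P^(-4) = P^44 Z^(-33) ≤ κ^44 Z^11`, then sixth roots.
`clsO`: `x.2 = 1`; the matrices of `RedO`, sizes with `t1 ≤ T1 x ≤ 2 t1`, ...: here the statement is for one box `![1, L1, L2]` with `T1 ≤ L1 ≤ 2 T1`, `T2 ≤ L2 ≤ 2 T2`: from `Bx κ T1' T2' ![1, T1', T2']` with `T1 ≤ T1' ≤ 2 T1`, `T2 ≤ T2' ≤ 2 T2` get `Bx (4 κ) T1 T2 ![1, T1, T2]`. `trn_ge0`, `bx_act` (`l = ![1, T1, T2]`: `l1/l0 = T1`, `l2/l0 = T2`,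
`l2/l1 = T2/T1`), `ca_D`, `cntD`, `dcount`: `card S * c0 T2^(2d) ≤ 3 C' (T1 T2)^(3d)`, `(T1 T2)^3 / T2^2 = (T1 T2)^2 (T1/T2)`.
-/

set_option autoImplicit false

open scoped NumberField nonZeroDivisors Matrix
open H88.A4 Pool.Agent.H67.WA H38.ML H63.MA

noncomputable section

namespace H88.SW

variable {K : IntermediateField ℚ QBar} [NumberField K]

/-- not a square in the field -/
def NSq (x : It K) : Prop := ¬ ∃ c ∈ x.1, x.2 = c ^ 2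

omit [NumberField K] in
private theorem it_facts {x : It K} (hx : IsIt x) {B C : M3 (𝓞 K)} (hr : RpI x (mK B) (mK C)) :
    Bᵀ = B ∧ Cᵀ = C ∧ C.det ≠ 0 ∧ (NSq x → ¬ (B 0 0 = 0 ∧ C 0 0 = 0)) := by
  obtain ⟨hd, a, ha, ha0, hn⟩ := hx
  obtain ⟨a', ha', hRp⟩ := hr
  have haa : a' = a := Subtype.ext (ha'.trans ha.symm)
  rw [haa] at hRp
  have hinj : ∀ {A A' : M3 (𝓞 K)}, mK A = mK A' → A = A' := by
    intro A A' h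
    exact Matrix.ext fun i j => NumberField.RingOfIntegers.ext (congrFun (congrFun h i) j)
  have hs := rp_symm hRp
  refine ⟨hinj ?_, hinj ?_, ?_, ?_⟩
  · exact hs.1
  · exact hs.2
  · intro h0
    apply rp_det hd ha0 hRp
    have h1 := RingHom.map_det (algebraMap (𝓞 K) K) C
    rw [h0, map_zero] at h1
    exact h1.symm
  · rintro hns ⟨h1, h2⟩
    refine rp_b11 hd ha0 hn ?_ hRp ⟨?_, ?_⟩
    · rintro ⟨c, hc⟩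
      refine hns ⟨c, c.2, ?_⟩
      rw [← ha, hc, sq]
      rfl
    · show algebraMap (𝓞 K) K (B 0 0) = 0
      rw [h1, map_zero]
    · show algebraMap (𝓞 K) K (C 0 0) = 0
      rw [h2, map_zero]

theorem low {κ T1 T2 : ℝ} (hκ : 1 ≤ κ) {l : Fin 3 → ℝ} (ho : Or T1 T2 l) {x : It K} (hx : IsIt x) (hn : NSq x) {B C : M3 (𝓞 K)}
    (hr : RpI x (mK B) (mK C)) (hb : Bx κ T1 T2 l B C) : 1 ≤ κ * l 0 := by
  have hT1 : 0 < T1 := lt_of_lt_of_le zero_lt_one ho.t1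
  have hT2 : 0 < T2 := lt_of_lt_of_le hT1 ho.t2
  have hl0 := ho.l0
  have h1 : 1 ≤ κ * (l 0 * l 0) := by
    by_cases h : B 0 0 = 0
    · have h2 : C 0 0 ≠ 0 := fun h3 => (it_facts hx hr).2.2.2 hn ⟨h, h3⟩
      have h3 := one_le_bd h2 (hb 0 0).2
      rw [le_div_iff₀ hT2] at h3
      linarith [ho.t1, ho.t2]
    · have h3 := one_le_bd h (hb 0 0).1
      rw [le_div_iff₀ hT1] at h3
      linarith [ho.t1]
  by_cases h : 1 ≤ l 0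
  · nlinarith
  · have h2 : l 0 * l 0 ≤ l 0 := by nlinarith
    have h3 : κ * (l 0 * l 0) ≤ κ * l 0 := mul_le_mul_of_nonneg_left h2 (by linarith)
    linarith

private theorem core (S : Finset (It K)) (hS : ∀ x ∈ S, IsIt x) (hI : Ine S) (Bf Cf : It K → M3 (𝓞 K))
    (hR : ∀ x ∈ S, RpI x (mK (Bf x)) (mK (Cf x))) (T : Finset (𝓞 K × 𝓞 K × 𝓞 K × 𝓞 K))
    (P : M3 (𝓞 K) × M3 (𝓞 K) → Prop)
    (hP : ∀ x ∈ S, ∀ t ∈ T, P (tB t.1 (Un t.2.1 t.2.2.1 t.2.2.2) (Bf x) (Cf x), tC (Un t.2.1 t.2.2.1 t.2.2.2) (Cf x)))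
    {c0 W C0 V : ℝ} (d : ℕ) (hc0 : 0 < c0) (hW : 0 < W) (hT : c0 * W ^ d ≤ (T.card : ℝ))
    (hY : ∀ Y : Finset (M3 (𝓞 K) × M3 (𝓞 K)), (∀ y ∈ Y, P y) → (Y.card : ℝ) ≤ C0 * V ^ d) :
    (S.card : ℝ) ≤ 3 * C0 / c0 * (V / W) ^ d := by
  classical
  obtain ⟨Y, hYd⟩ : ∃ Y : Finset (M3 (𝓞 K) × M3 (𝓞 K)), Y = (S ×ˢ T).image
      (fun u : It K × (𝓞 K × 𝓞 K × 𝓞 K × 𝓞 K) =>
        (tB u.2.1 (Un u.2.2.1 u.2.2.2.1 u.2.2.2.2) (Bf u.1) (Cf u.1), tC (Un u.2.2.1 u.2.2.2.1 u.2.2.2.2) (Cf u.1))) :=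
    ⟨_, rfl⟩
  have h1 := dcount S hS hI Bf Cf hR T Y (fun x hx t ht => by
    rw [hYd]
    exact Finset.mem_image.2 ⟨(x, t), Finset.mem_product.2 ⟨hx, ht⟩, rfl⟩)
  have h2 : (Y.card : ℝ) ≤ C0 * V ^ d := by
    refine hY Y ?_
    intro y hy
    rw [hYd] at hy
    obtain ⟨u, hu, rfl⟩ := Finset.mem_image.1 hy
    exact hP u.1 (Finset.mem_product.1 hu).1 u.2 (Finset.mem_product.1 hu).2
  have h3 : (S.card : ℝ) * (T.card : ℝ) ≤ 3 * (Y.card : ℝ) := by exact_mod_cast h1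
  have h4 : (S.card : ℝ) * (c0 * W ^ d) ≤ 3 * (C0 * V ^ d) :=
    (mul_le_mul_of_nonneg_left hT (Nat.cast_nonneg _)).trans (h3.trans (mul_le_mul_of_nonneg_left h2 (by norm_num)))
  have h5 : 0 < c0 * W ^ d := by positivity
  rw [← le_div_iff₀ h5] at h4
  refine h4.trans (le_of_eq ?_)
  rw [div_pow]
  field_simp

private theorem six {x κ Z : ℝ} (hκ : 1 ≤ κ) (hZ : 1 ≤ Z) (h : x ^ 6 ≤ κ ^ 48 * Z ^ 11) :
    x ≤ κ ^ 8 * Z ^ (11 / 6 : ℝ) := by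
  have h0 : 0 ≤ κ ^ 8 * Z ^ (11 / 6 : ℝ) := by positivity
  refine le_of_pow_le_pow_left₀ (n := 6) (by norm_num) h0 (h.trans (le_of_eq ?_))
  rw [mul_pow, ← Real.rpow_natCast (Z ^ (11 / 6 : ℝ)) 6, ← Real.rpow_mul (by linarith)]
  have h1 : (11 / 6 : ℝ) * ((6 : ℕ) : ℝ) = ((11 : ℕ) : ℝ) := by norm_num
  rw [h1, Real.rpow_natCast]
  ring

private theorem sB {κ Z P T1 a b : ℝ} (hκ : 1 ≤ κ) (hZ : 1 ≤ Z) (hP : 0 < P) (hPZ : P ≤ κ * Z) (hT : 0 < T1)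
    (hT1 : T1 ^ 2 ≤ Z) (hb : 0 < b) (hPb : P ≤ b ^ 3) (ha : a = P ^ 8 / Z ^ 6 * T1 / b ^ 2) :
    a ^ 6 ≤ κ ^ 48 * Z ^ 11 := by
  have hZ0 : 0 < Z := by linarith
  have e1 : a ^ 6 = P ^ 48 / Z ^ 36 * (T1 ^ 2) ^ 3 / (b ^ 3) ^ 4 := by
    rw [ha]
    field_simp
  have h1 : (T1 ^ 2) ^ 3 ≤ Z ^ 3 := pow_le_pow_left₀ (by positivity) hT1 3
  have h2 : P ^ 4 ≤ (b ^ 3) ^ 4 := pow_le_pow_left₀ hP.le hPb 4
  have h3 : P ^ 44 ≤ (κ * Z) ^ 44 := pow_le_pow_left₀ hP.le hPZ 44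
  calc a ^ 6 = P ^ 48 / Z ^ 36 * (T1 ^ 2) ^ 3 / (b ^ 3) ^ 4 := e1
    _ ≤ P ^ 48 / Z ^ 36 * Z ^ 3 / P ^ 4 := by gcongr
    _ = P ^ 44 / Z ^ 33 := by field_simp
    _ ≤ (κ * Z) ^ 44 / Z ^ 33 := by gcongr
    _ = κ ^ 44 * Z ^ 11 := by field_simp
    _ ≤ κ ^ 48 * Z ^ 11 := by
      gcongr
      norm_num

private theorem sC {κ Z P a b : ℝ} (hκ : 1 ≤ κ) (hZ : 1 ≤ Z) (hP : 0 < P) (hPZ : P ≤ κ * Z)
    (hb : 0 < b) (hPb : P ≤ b ^ 3) (ha : a = P ^ 7 / (Z ^ 5 * b)) :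
    a ^ 6 ≤ κ ^ 48 * Z ^ 11 := by
  have hZ0 : 0 < Z := by linarith
  have e1 : a ^ 6 = P ^ 42 / (Z ^ 30 * (b ^ 3) ^ 2) := by
    rw [ha]
    field_simp
  have h2 : P ^ 2 ≤ (b ^ 3) ^ 2 := pow_le_pow_left₀ hP.le hPb 2
  have h3 : P ^ 40 ≤ (κ * Z) ^ 40 := pow_le_pow_left₀ hP.le hPZ 40
  calc a ^ 6 = P ^ 42 / (Z ^ 30 * (b ^ 3) ^ 2) := e1
    _ ≤ P ^ 42 / (Z ^ 30 * P ^ 2) := by gcongr
    _ = P ^ 40 / Z ^ 30 := by field_simp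
    _ ≤ (κ * Z) ^ 40 / Z ^ 30 := by gcongr
    _ = κ ^ 40 * Z ^ 10 := by field_simp
    _ ≤ κ ^ 48 * Z ^ 11 := by
      gcongr
      · norm_num
      · norm_num

theorem clsN (K : IntermediateField ℚ QBar) [NumberField K] (κ : ℝ) (hκ : 1 ≤ κ) : ∃ C' : ℝ, 0 < C' ∧ ∀ (T1 T2 : ℝ) (l : Fin 3 → ℝ), Or T1 T2 l →
    l 0 * l 1 * l 2 ≤ κ * (T1 * T2) → ∀ S : Finset (It K), Ine S →
    (∀ x ∈ S, IsIt x ∧ NSq x ∧ ∃ B C : M3 (𝓞 K), RpI x (mK B) (mK C) ∧ Bx κ T1 T2 l B C) →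
    (S.card : ℝ) ≤ C' * (((T1 * T2) ^ 2 * (T1 / T2) * (l 0 / l 2) ^ 2 * (l 0 * l 1 * l 2 / (T1 * T2)) ^ 8) ^ Module.finrank ℚ K +
      ((T1 * T2) ^ (11 / 6 : ℝ)) ^ Module.finrank ℚ K) := by
  classical
  obtain ⟨c0, hc0, htr⟩ := trn_ge K
  obtain ⟨CA, hCA, hA⟩ := cntA K (18 * κ) (by linarith)
  obtain ⟨CB, hCB, hB⟩ := cntB K (18 * κ) (by linarith)
  obtain ⟨CC, hCC, hC⟩ := cntC K (18 * κ) (by linarith)
  refine ⟨3 * CA / c0 + (3 * CB / c0 + 3 * CC / c0) * (κ ^ 8) ^ Module.finrank ℚ K, by positivity, ?_⟩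
  intro T1 T2 l ho hP S hI hS
  have hT1 : 0 < T1 := lt_of_lt_of_le zero_lt_one ho.t1
  have hT2 : 0 < T2 := lt_of_lt_of_le hT1 ho.t2
  have hl0 := ho.l0
  have hl1 : 0 < l 1 := lt_of_lt_of_le hl0 ho.l1
  have hl2 : 0 < l 2 := lt_of_lt_of_le hl1 ho.l2
  have hPp : 0 < l 0 * l 1 * l 2 := by positivity
  have hZ1 : 1 ≤ T1 * T2 := one_le_mul_of_one_le_of_one_le ho.t1 (ho.t1.trans ho.t2)
  have hZ0 : 0 < T1 * T2 := by linarith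
  have hTZ : T1 ^ 2 ≤ T1 * T2 := by
    rw [sq]
    exact mul_le_mul_of_nonneg_left ho.t2 hT1.le
  have hPl : l 0 * l 1 * l 2 ≤ l 2 ^ 3 := by
    have h1 : l 0 ≤ l 2 := ho.l1.trans ho.l2
    calc l 0 * l 1 * l 2 ≤ l 2 * l 2 * l 2 := by
          gcongr
          exact ho.l2
      _ = l 2 ^ 3 := by ring
  obtain ⟨T, hT, hTc⟩ := htr T1 T2 l ho
  have hW : 0 < T2 / T1 * (l 2 / l 0) ^ 2 := by positivity
  have hch : ∀ x : It K, ∃ B C : M3 (𝓞 K), x ∈ S → RpI x (mK B) (mK C) ∧ Bx κ T1 T2 l B C := by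
    intro x
    by_cases hx : x ∈ S
    · obtain ⟨-, -, B, C, h⟩ := hS x hx
      exact ⟨B, C, fun _ => h⟩
    · exact ⟨0, 0, fun h => absurd h hx⟩
  choose Bf Cf hBC using hch
  have hfa : ∀ x ∈ S, (Bf x)ᵀ = Bf x ∧ (Cf x)ᵀ = Cf x ∧ (Cf x).det ≠ 0 ∧ ¬ (Bf x 0 0 = 0 ∧ Cf x 0 0 = 0) := by
    intro x hx
    obtain ⟨h1, h2, h3, h4⟩ := it_facts (hS x hx).1 (hBC x hx).1
    exact ⟨h1, h2, h3, h4 (hS x hx).2.1⟩
  obtain ⟨SA, hSA⟩ : ∃ SA, SA = S.filter fun x => CaA (Bf x) (Cf x) := ⟨_, rfl⟩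
  obtain ⟨SB, hSB⟩ : ∃ SB, SB = S.filter fun x => CaB (Bf x) (Cf x) := ⟨_, rfl⟩
  obtain ⟨SC, hSC⟩ : ∃ SC, SC = S.filter fun x => CaC (Bf x) (Cf x) := ⟨_, rfl⟩
  have hsub : S ⊆ SA ∪ (SB ∪ SC) := by
    intro x hx
    obtain ⟨h1, h2, h3, h4⟩ := hfa x hx
    rw [Finset.mem_union, Finset.mem_union, hSA, hSB, hSC, Finset.mem_filter, Finset.mem_filter, Finset.mem_filter]
    by_cases hc : Cf x 0 0 = 0
    · have hb : Bf x 0 0 ≠ 0 := fun h => h4 ⟨h, hc⟩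
      right
      by_cases hc1 : Cf x 0 1 = 0
      · right
        have h10 : Cf x 1 0 = 0 := by
          rw [← hc1, ← Matrix.transpose_apply (Cf x), h2]
        have h20 : Cf x 2 0 = Cf x 0 2 := by
          rw [← Matrix.transpose_apply (Cf x), h2]
        rw [Matrix.det_fin_three, hc, hc1, h10, h20] at h3
        refine ⟨hx, hc, hc1, ?_, ?_, hb⟩
        · intro h
          apply h3
          rw [h]
          ring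
        · intro h
          apply h3
          rw [h]
          ring
      · left
        exact ⟨hx, hc, hc1, hb⟩
    · left
      exact ⟨hx, hc⟩
  have hcard : (S.card : ℝ) ≤ (SA.card : ℝ) + ((SB.card : ℝ) + (SC.card : ℝ)) := by
    have h1 := (Finset.card_le_card hsub).trans
      ((Finset.card_union_le _ _).trans (Nat.add_le_add_left (Finset.card_union_le _ _) _))
    exact_mod_cast h1
  have hIs : ∀ S' : Finset (It K), S' ⊆ S → Ine S' := fun S' h x hx y hy => hI x (h hx) y (h hy)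
  have hbx : ∀ x ∈ S, ∀ t ∈ T, (tB t.1 (Un t.2.1 t.2.2.1 t.2.2.2) (Bf x) (Cf x))ᵀ = tB t.1 (Un t.2.1 t.2.2.1 t.2.2.2) (Bf x) (Cf x) ∧
      (tC (Un t.2.1 t.2.2.1 t.2.2.2) (Cf x))ᵀ = tC (Un t.2.1 t.2.2.1 t.2.2.2) (Cf x) ∧
      Bx (18 * κ) T1 T2 l (tB t.1 (Un t.2.1 t.2.2.1 t.2.2.2) (Bf x) (Cf x)) (tC (Un t.2.1 t.2.2.1 t.2.2.2) (Cf x)) := by
    intro x hx t ht
    obtain ⟨h1, h2, -, -⟩ := hfa x hx
    obtain ⟨g1, g2, g3, g4⟩ := hT t ht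
    obtain ⟨s1, s2⟩ := tsymm t.1 t.2.1 t.2.2.1 t.2.2.2 h1 h2
    exact ⟨s1, s2, bx_act (by linarith) ho (hBC x hx).2 g1 g2 g3 g4⟩
  have hA1 : (SA.card : ℝ) ≤ 3 * CA / c0 *
      ((l 0 * l 1 * l 2) ^ 8 / (T1 * T2) ^ 6 / (T2 / T1 * (l 2 / l 0) ^ 2)) ^ Module.finrank ℚ K := by
    have hs : SA ⊆ S := by
      rw [hSA]
      exact Finset.filter_subset _ _
    refine core SA (fun x hx => (hS x (hs hx)).1) (hIs _ hs) Bf Cf (fun x hx => (hBC x (hs hx)).1) T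
      (fun y => y.1ᵀ = y.1 ∧ y.2ᵀ = y.2 ∧ Bx (18 * κ) T1 T2 l y.1 y.2 ∧ CaA y.1 y.2) ?_ (Module.finrank ℚ K) hc0 hW hTc
      (fun Y hY => hA T1 T2 l ho Y hY)
    intro x hx t ht
    obtain ⟨s1, s2, s3⟩ := hbx x (hs hx) t ht
    rw [hSA] at hx
    exact ⟨s1, s2, s3, ca_A _ _ _ _ (Finset.mem_filter.1 hx).2⟩
  have hB1 : (SB.card : ℝ) ≤ 3 * CB / c0 *
      ((l 0 * l 1 * l 2) ^ 8 / (T1 * T2) ^ 6 * (T2 / l 0 ^ 2) / (T2 / T1 * (l 2 / l 0) ^ 2)) ^ Module.finrank ℚ K := by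
    have hs : SB ⊆ S := by
      rw [hSB]
      exact Finset.filter_subset _ _
    refine core SB (fun x hx => (hS x (hs hx)).1) (hIs _ hs) Bf Cf (fun x hx => (hBC x (hs hx)).1) T
      (fun y => y.1ᵀ = y.1 ∧ y.2ᵀ = y.2 ∧ Bx (18 * κ) T1 T2 l y.1 y.2 ∧ CaB y.1 y.2) ?_ (Module.finrank ℚ K) hc0 hW hTc
      (fun Y hY => hB T1 T2 l ho Y hY)
    intro x hx t ht
    obtain ⟨s1, s2, s3⟩ := hbx x (hs hx) t ht
    rw [hSB] at hx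
    exact ⟨s1, s2, s3, ca_B _ _ _ _ (Finset.mem_filter.1 hx).2⟩
  have hC1 : (SC.card : ℝ) ≤ 3 * CC / c0 *
      ((l 0 * l 1 * l 2) ^ 8 / (T1 * T2) ^ 6 * (T2 / l 0 ^ 2) * (T2 / (l 0 * l 1)) / (T2 / T1 * (l 2 / l 0) ^ 2)) ^ Module.finrank ℚ K := by
    have hs : SC ⊆ S := by
      rw [hSC]
      exact Finset.filter_subset _ _
    refine core SC (fun x hx => (hS x (hs hx)).1) (hIs _ hs) Bf Cf (fun x hx => (hBC x (hs hx)).1) T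
      (fun y => y.1ᵀ = y.1 ∧ y.2ᵀ = y.2 ∧ Bx (18 * κ) T1 T2 l y.1 y.2 ∧ CaC y.1 y.2) ?_ (Module.finrank ℚ K) hc0 hW hTc
      (fun Y hY => hC T1 T2 l ho Y hY)
    intro x hx t ht
    obtain ⟨s1, s2, s3⟩ := hbx x (hs hx) t ht
    rw [hSC] at hx
    exact ⟨s1, s2, s3, ca_C (hfa x (hs (by rw [hSC]; exact hx))).2.1 _ _ _ _ (Finset.mem_filter.1 hx).2⟩
  have eA : (l 0 * l 1 * l 2) ^ 8 / (T1 * T2) ^ 6 / (T2 / T1 * (l 2 / l 0) ^ 2) =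
      (T1 * T2) ^ 2 * (T1 / T2) * (l 0 / l 2) ^ 2 * (l 0 * l 1 * l 2 / (T1 * T2)) ^ 8 := by
    field_simp
  have bB : (l 0 * l 1 * l 2) ^ 8 / (T1 * T2) ^ 6 * (T2 / l 0 ^ 2) / (T2 / T1 * (l 2 / l 0) ^ 2) ≤
      κ ^ 8 * (T1 * T2) ^ (11 / 6 : ℝ) := by
    refine six hκ hZ1 (sB hκ hZ1 hPp hP hT1 hTZ hl2 hPl ?_)
    field_simp
  have bC : (l 0 * l 1 * l 2) ^ 8 / (T1 * T2) ^ 6 * (T2 / l 0 ^ 2) * (T2 / (l 0 * l 1)) / (T2 / T1 * (l 2 / l 0) ^ 2) ≤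
      κ ^ 8 * (T1 * T2) ^ (11 / 6 : ℝ) := by
    refine six hκ hZ1 (sC hκ hZ1 hPp hP hl2 hPl ?_)
    field_simp
  rw [eA] at hA1
  obtain ⟨XA, hXA⟩ : ∃ XA, XA = ((T1 * T2) ^ 2 * (T1 / T2) * (l 0 / l 2) ^ 2 * (l 0 * l 1 * l 2 / (T1 * T2)) ^ 8) ^ Module.finrank ℚ K :=
    ⟨_, rfl⟩
  obtain ⟨XB, hXB⟩ : ∃ XB, XB = ((T1 * T2) ^ (11 / 6 : ℝ)) ^ Module.finrank ℚ K := ⟨_, rfl⟩
  have hXA0 : 0 ≤ XA := by
    rw [hXA]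
    positivity
  have hXB0 : 0 ≤ XB := by
    rw [hXB]
    positivity
  have hB2 : (SB.card : ℝ) ≤ 3 * CB / c0 * ((κ ^ 8) ^ Module.finrank ℚ K * XB) := by
    refine hB1.trans (mul_le_mul_of_nonneg_left ?_ (by positivity))
    rw [hXB, ← mul_pow]
    exact pow_le_pow_left₀ (by positivity) bB _
  have hC2 : (SC.card : ℝ) ≤ 3 * CC / c0 * ((κ ^ 8) ^ Module.finrank ℚ K * XB) := by
    refine hC1.trans (mul_le_mul_of_nonneg_left ?_ (by positivity))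
    rw [hXB, ← mul_pow]
    exact pow_le_pow_left₀ (by positivity) bC _
  rw [← hXA] at hA1 ⊢
  rw [← hXB]
  have g1 : 0 ≤ 3 * CA / c0 := by positivity
  have g2 : 0 ≤ (3 * CB / c0 + 3 * CC / c0) * (κ ^ 8) ^ Module.finrank ℚ K := by positivity
  have g3 := mul_nonneg g1 hXB0
  have g4 := mul_nonneg g2 hXA0
  have g5 : (3 * CA / c0 + (3 * CB / c0 + 3 * CC / c0) * (κ ^ 8) ^ Module.finrank ℚ K) * (XA + XB) =
      3 * CA / c0 * XA + (3 * CB / c0 * ((κ ^ 8) ^ Module.finrank ℚ K * XB) + 3 * CC / c0 * ((κ ^ 8) ^ Module.finrank ℚ K * XB)) +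
      (3 * CA / c0 * XB + (3 * CB / c0 + 3 * CC / c0) * (κ ^ 8) ^ Module.finrank ℚ K * XA) := by ring
  rw [g5]
  linarith

theorem clsO (K : IntermediateField ℚ QBar) [NumberField K] (κ : ℝ) (hκ : 1 ≤ κ) : ∃ C' : ℝ, 0 < C' ∧ ∀ (T1 T2 : ℝ), 1 ≤ T1 → T1 ≤ T2 →
    ∀ S : Finset (It K), Ine S →
    (∀ x ∈ S, IsIt x ∧ ∃ (B C : M3 (𝓞 K)) (m : ℕ) (T1' T2' : ℝ), T1 ≤ T1' ∧ T1' ≤ 2 * T1 ∧ T2 ≤ T2' ∧ T2' ≤ 2 * T2 ∧ (m : ℝ) ≤ κ ∧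
      RpI x (mK B) (mK C) ∧ Bx κ T1' T2' ![1, T1', T2'] B C ∧ CaD m B C) →
    (S.card : ℝ) ≤ C' * ((T1 * T2) ^ 2 * (T1 / T2)) ^ Module.finrank ℚ K := by
  classical
  obtain ⟨c0, hc0, htr⟩ := trn_ge0 K
  obtain ⟨CD, hCD, hD⟩ := cntD K (18 * (4 * κ)) (by linarith)
  refine ⟨3 * CD / c0, by positivity, ?_⟩
  intro T1 T2 h1 h12 S hI hS
  have hT1 : 0 < T1 := lt_of_lt_of_le zero_lt_one h1
  have hT2 : 0 < T2 := lt_of_lt_of_le hT1 h12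
  obtain ⟨T, hT, hTc⟩ := htr T1 T2 h1 h12
  have ho : Or T1 T2 ![1, T1, T2] := ⟨h1, h12, one_pos, h1, h12⟩
  have hch : ∀ x : It K, ∃ (B C : M3 (𝓞 K)) (m : ℕ), x ∈ S → (m : ℝ) ≤ κ ∧ RpI x (mK B) (mK C) ∧
      Bx (4 * κ) T1 T2 ![1, T1, T2] B C ∧ CaD m B C := by
    intro x
    by_cases hx : x ∈ S
    · obtain ⟨-, B, C, m, T1', T2', g1, g2, g3, g4, g5, g6, g7, g8⟩ := hS x hx
      refine ⟨B, C, m, fun _ => ⟨g5, g6, ?_, g8⟩⟩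
      have hT1' : 0 < T1' := lt_of_lt_of_le hT1 g1
      have hT2' : 0 < T2' := lt_of_lt_of_le hT2 g3
      have hl : ∀ i, 0 < (![1, T1', T2'] : Fin 3 → ℝ) i ∧ 0 < (![1, T1, T2] : Fin 3 → ℝ) i ∧
          (![1, T1', T2'] : Fin 3 → ℝ) i ≤ 2 * (![1, T1, T2] : Fin 3 → ℝ) i := by
        intro i
        fin_cases i
        · refine ⟨one_pos, one_pos, ?_⟩
          show (1 : ℝ) ≤ 2 * 1
          norm_num
        · exact ⟨hT1', hT1, g2⟩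
        · exact ⟨hT2', hT2, g4⟩
      have hgen : ∀ (t t' : ℝ), 0 < t → t ≤ t' → ∀ i j, κ * ((![1, T1', T2'] : Fin 3 → ℝ) i * (![1, T1', T2'] : Fin 3 → ℝ) j) / t' ≤
          4 * κ * ((![1, T1, T2] : Fin 3 → ℝ) i * (![1, T1, T2] : Fin 3 → ℝ) j) / t := by
        intro t t' ht htt i j
        obtain ⟨a1, a2, a3⟩ := hl i
        obtain ⟨b1, b2, b3⟩ := hl j
        have hm : (![1, T1', T2'] : Fin 3 → ℝ) i * (![1, T1', T2'] : Fin 3 → ℝ) j ≤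
            (2 * (![1, T1, T2] : Fin 3 → ℝ) i) * (2 * (![1, T1, T2] : Fin 3 → ℝ) j) :=
          mul_le_mul a3 b3 b1.le (by linarith)
        have hm2 : κ * ((![1, T1', T2'] : Fin 3 → ℝ) i * (![1, T1', T2'] : Fin 3 → ℝ) j) ≤
            4 * κ * ((![1, T1, T2] : Fin 3 → ℝ) i * (![1, T1, T2] : Fin 3 → ℝ) j) := by
          have := mul_le_mul_of_nonneg_left hm (by linarith : (0 : ℝ) ≤ κ)
          linarith
        have hm3 : 0 ≤ 4 * κ * ((![1, T1, T2] : Fin 3 → ℝ) i * (![1, T1, T2] : Fin 3 → ℝ) j) :=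
          mul_nonneg (by linarith) (mul_nonneg a2.le b2.le)
        exact (div_le_div_of_nonneg_right hm2 (ht.le.trans htt)).trans (div_le_div_of_nonneg_left hm3 ht htt)
      intro i j
      obtain ⟨p1, p2⟩ := g7 i j
      exact ⟨fun φ => (p1 φ).trans (hgen T1 T1' hT1 g1 i j), fun φ => (p2 φ).trans (hgen T2 T2' hT2 g3 i j)⟩
    · exact ⟨0, 0, 0, fun h => absurd h hx⟩
  choose Bf Cf mf hBC using hch
  have hmain := core S (fun x hx => (hS x hx).1) hI Bf Cf (fun x hx => (hBC x hx).2.1) T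
    (fun y => y.1ᵀ = y.1 ∧ y.2ᵀ = y.2 ∧ Bx (18 * (4 * κ)) T1 T2 ![1, T1, T2] y.1 y.2 ∧
      ∃ m : ℕ, (m : ℝ) ≤ 18 * (4 * κ) ∧ CaD m y.1 y.2) (V := (T1 * T2) ^ 3) (C0 := CD) (W := T2 ^ 2) (c0 := c0)
      ?_ (Module.finrank ℚ K) hc0 (by positivity) hTc
      (fun Y hY => hD T1 T2 h1 h12 Y hY)
  · refine hmain.trans (le_of_eq ?_)
    congr 2
    field_simp
  · intro x hx t ht
    obtain ⟨k1, k2, k3, k4⟩ := hBC x hx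
    obtain ⟨s1, s2, -, -⟩ := it_facts (hS x hx).1 k2
    obtain ⟨g1, g2, g3, g4⟩ := hT t ht
    obtain ⟨u1, u2⟩ := tsymm t.1 t.2.1 t.2.2.1 t.2.2.2 s1 s2
    refine ⟨u1, u2, ?_, mf x, by linarith, ?_⟩
    · refine bx_act (by linarith) ho k3 g1 ?_ ?_ ?_
      · show Bd (T1 / 1) t.2.1
        rw [div_one]
        exact g2
      · show Bd (T2 / 1) t.2.2.1
        rw [div_one]
        exact g3
      · show Bd (T2 / T1) t.2.2.2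
        rw [g4]
        exact g1
    · show CaD (mf x) (tB t.1 (Un t.2.1 t.2.2.1 t.2.2.2) (Bf x) (Cf x)) (tC (Un t.2.1 t.2.2.1 t.2.2.2) (Cf x))
      rw [g4]
      exact ca_D s1 s2 _ _ _ k4

end H88.SW
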