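import Pool.Agent.H88.SW.Rec
import Pool.Agent.H88.SW.Cb

/-!
# [H88 SW DC] Double counting (60 min)

`dcount`: the map `f : S × T → Y`, `(x, t) ↦ (tB .., tC ..)`. Every fibre has at most three elements: over `y ∈ Y` let `P` be the fibre; the first projection `P → S` is injective: if `f (x, t) = f (x, t') = y`, apply `mK` (`mk_tB`, `mk_tC`) and `rp_stab` (`F = x.1`, `a` from `RpI`; `a ≠ 0` from `IsIt`: the same `a` because the coercion to `QBar` is injective): `t = t'`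
(coercion `𝓞 K → K` injective). The image of the first projection is a finset of inequivalent items (`Ine` of a subset) and for each of them `RpI x (mK y.1) (mK y.2)` (`rp_act` with `U = Un ..`, `un_det`), so it has at most three elements (`rec3`). So `S.card * T.card ≤ 3 * Y.card` (`Finset.card_le_mul_card_image` or
`Finset.card_eq_sum_card_fiberwise`).
`trn_ge`: products of four balls (`ball_ge` with `r = T2 / T1, l 1 / l 0, l 2 / l 0, l 2 / l 1`, all `≥ 1` by `Or`), `(T2/T1)(l1/l0)(l2/l0)(l2/l1) = (T2/T1)(l2/l0)^2`. `trn_ge0`: three balls with `r = T2 / T1, T1, T2`: `(T2/T1) T1 T2 = T2 ^ 2`; the elements are `(n, a, b, n)`.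
-/

set_option autoImplicit false

open scoped NumberField nonZeroDivisors Matrix
open H88.A4 Pool.Agent.H67.WA H38.ML H63.MA

noncomputable section

namespace H88.SW

section trn

variable (K : Type) [Field K] [NumberField K]

theorem trn_ge : ∃ c0 : ℝ, 0 < c0 ∧ ∀ (T1 T2 : ℝ) (l : Fin 3 → ℝ), Or T1 T2 l → ∃ T : Finset (𝓞 K × 𝓞 K × 𝓞 K × 𝓞 K),
    (∀ t ∈ T, Bd (T2 / T1) t.1 ∧ Bd (l 1 / l 0) t.2.1 ∧ Bd (l 2 / l 0) t.2.2.1 ∧ Bd (l 2 / l 1) t.2.2.2) ∧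
    c0 * (T2 / T1 * (l 2 / l 0) ^ 2) ^ Module.finrank ℚ K ≤ (T.card : ℝ) := by
  obtain ⟨c, hc, hb⟩ := ball_ge K
  refine ⟨c ^ 4, by positivity, fun T1 T2 l ho => ?_⟩
  have hT1 : 0 < T1 := lt_of_lt_of_le zero_lt_one ho.t1
  have hl0 := ho.l0
  have hl1 : 0 < l 1 := lt_of_lt_of_le hl0 ho.l1
  have hl2 : 0 < l 2 := lt_of_lt_of_le hl1 ho.l2
  have r1 : 1 ≤ T2 / T1 := (one_le_div hT1).2 ho.t2
  have r2 : 1 ≤ l 1 / l 0 := (one_le_div hl0).2 ho.l1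
  have r3 : 1 ≤ l 2 / l 0 := (one_le_div hl0).2 (ho.l1.trans ho.l2)
  have r4 : 1 ≤ l 2 / l 1 := (one_le_div hl1).2 ho.l2
  obtain ⟨S1, s1, c1⟩ := hb _ r1
  obtain ⟨S2, s2, c2⟩ := hb _ r2
  obtain ⟨S3, s3, c3⟩ := hb _ r3
  obtain ⟨S4, s4, c4⟩ := hb _ r4
  refine ⟨S1 ×ˢ S2 ×ˢ S3 ×ˢ S4, ?_, ?_⟩
  · rintro ⟨n, a, b, e⟩ ht
    simp only [Finset.mem_product] at ht
    exact ⟨s1 n ht.1, s2 a ht.2.1, s3 b ht.2.2.1, s4 e ht.2.2.2⟩
  · rw [Finset.card_product, Finset.card_product, Finset.card_product]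
    push_cast
    have e1 : T2 / T1 * (l 2 / l 0) ^ 2 = (T2 / T1) * ((l 1 / l 0) * ((l 2 / l 0) * (l 2 / l 1))) := by
      field_simp
    rw [e1, mul_pow, mul_pow, mul_pow]
    set d := Module.finrank ℚ K
    have e2 : c ^ 4 * ((T2 / T1) ^ d * ((l 1 / l 0) ^ d * ((l 2 / l 0) ^ d * (l 2 / l 1) ^ d))) =
        (c * (T2 / T1) ^ d) * ((c * (l 1 / l 0) ^ d) * ((c * (l 2 / l 0) ^ d) * (c * (l 2 / l 1) ^ d))) := by
      ring
    rw [e2]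
    gcongr

theorem trn_ge0 : ∃ c0 : ℝ, 0 < c0 ∧ ∀ (T1 T2 : ℝ), 1 ≤ T1 → T1 ≤ T2 → ∃ T : Finset (𝓞 K × 𝓞 K × 𝓞 K × 𝓞 K),
    (∀ t ∈ T, Bd (T2 / T1) t.1 ∧ Bd T1 t.2.1 ∧ Bd T2 t.2.2.1 ∧ t.2.2.2 = t.1) ∧
    c0 * (T2 ^ 2) ^ Module.finrank ℚ K ≤ (T.card : ℝ) := by
  classical
  obtain ⟨c, hc, hb⟩ := ball_ge K
  refine ⟨c ^ 3, by positivity, fun T1 T2 h1 h2 => ?_⟩
  have hT1 : 0 < T1 := lt_of_lt_of_le zero_lt_one h1
  have hT2 : 0 < T2 := lt_of_lt_of_le hT1 h2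
  have r1 : 1 ≤ T2 / T1 := (one_le_div hT1).2 h2
  obtain ⟨S1, s1, c1⟩ := hb _ r1
  obtain ⟨S2, s2, c2⟩ := hb _ h1
  obtain ⟨S3, s3, c3⟩ := hb _ (h1.trans h2)
  refine ⟨(S1 ×ˢ S2 ×ˢ S3).image (fun t => (t.1, t.2.1, t.2.2, t.1)), ?_, ?_⟩
  · intro t ht
    obtain ⟨u, hu, rfl⟩ := Finset.mem_image.1 ht
    simp only [Finset.mem_product] at hu
    exact ⟨s1 _ hu.1, s2 _ hu.2.1, s3 _ hu.2.2, rfl⟩
  · have hinj : Function.Injective (fun t : 𝓞 K × 𝓞 K × 𝓞 K => (t.1, t.2.1, t.2.2, t.1)) := by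
      rintro ⟨n, a, b⟩ ⟨n', a', b'⟩ h
      simp only [Prod.mk.injEq] at h
      obtain ⟨h1, h2, h3, -⟩ := h
      rw [h1, h2, h3]
    rw [Finset.card_image_of_injective _ hinj, Finset.card_product, Finset.card_product]
    push_cast
    have e1 : T2 ^ 2 = (T2 / T1) * (T1 * T2) := by
      field_simp
    rw [e1, mul_pow, mul_pow]
    set d := Module.finrank ℚ K
    have e2 : c ^ 3 * ((T2 / T1) ^ d * (T1 ^ d * T2 ^ d)) =
        (c * (T2 / T1) ^ d) * ((c * T1 ^ d) * (c * T2 ^ d)) := by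
      ring
    rw [e2]
    gcongr

end trn

variable {K : IntermediateField ℚ QBar} [NumberField K]

theorem dcount (S : Finset (It K)) (hS : ∀ x ∈ S, IsIt x) (hI : Ine S) (Bf Cf : It K → M3 (𝓞 K))
    (hR : ∀ x ∈ S, RpI x (mK (Bf x)) (mK (Cf x))) (T : Finset (𝓞 K × 𝓞 K × 𝓞 K × 𝓞 K)) (Y : Finset (M3 (𝓞 K) × M3 (𝓞 K)))
    (hY : ∀ x ∈ S, ∀ t ∈ T, (tB t.1 (Un t.2.1 t.2.2.1 t.2.2.2) (Bf x) (Cf x), tC (Un t.2.1 t.2.2.1 t.2.2.2) (Cf x)) ∈ Y) :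
    S.card * T.card ≤ 3 * Y.card := by
  classical
  rw [← Finset.card_product]
  refine Finset.card_le_mul_card_image_of_maps_to
    (f := fun u : It K × (𝓞 K × 𝓞 K × 𝓞 K × 𝓞 K) =>
      (tB u.2.1 (Un u.2.2.1 u.2.2.2.1 u.2.2.2.2) (Bf u.1) (Cf u.1), tC (Un u.2.2.1 u.2.2.2.1 u.2.2.2.2) (Cf u.1)))
    (fun u hu => hY u.1 (Finset.mem_product.1 hu).1 u.2 (Finset.mem_product.1 hu).2) 3 ?_
  intro y _
  have hinj : Set.InjOn Prod.fst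
      (((S ×ˢ T).filter (fun u : It K × (𝓞 K × 𝓞 K × 𝓞 K × 𝓞 K) =>
      (tB u.2.1 (Un u.2.2.1 u.2.2.2.1 u.2.2.2.2) (Bf u.1) (Cf u.1), tC (Un u.2.2.1 u.2.2.2.1 u.2.2.2.2) (Cf u.1)) = y) :
        Finset (It K × (𝓞 K × 𝓞 K × 𝓞 K × 𝓞 K))) : Set (It K × (𝓞 K × 𝓞 K × 𝓞 K × 𝓞 K))) := by
    rintro ⟨x, n, a1, b1, c1⟩ hu ⟨x', n', a2, b2, c2⟩ hv (hx : x = x')
    subst hx
    rw [Finset.mem_coe, Finset.mem_filter, Finset.mem_product] at hu hv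
    obtain ⟨⟨hxS, -⟩, hu⟩ := hu
    obtain ⟨-, hv⟩ := hv
    obtain ⟨hd, a, ha1, ha0, -⟩ := hS x hxS
    obtain ⟨a', ha', hRp⟩ := hR x hxS
    have haa : a' = a := Subtype.ext (ha'.trans ha1.symm)
    rw [haa] at hRp
    have huv := hu.trans hv.symm
    have e1 := congrArg (fun z : M3 (𝓞 K) × M3 (𝓞 K) => mK z.1) huv
    have e2 := congrArg (fun z : M3 (𝓞 K) × M3 (𝓞 K) => mK z.2) huv
    simp only [mk_tB, mk_tC] at e1 e2
    obtain ⟨h1, h2, h3, h4⟩ := rp_stab hd ha0 hRp e1 e2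
    have hco : ∀ {s t : 𝓞 K}, (s : K) = (t : K) → s = t := fun h => NumberField.RingOfIntegers.ext h
    rw [hco h1, hco h2, hco h3, hco h4]
  rw [← Finset.card_image_of_injOn hinj]
  refine rec3 (mK y.1) (mK y.2) _ ?_ ?_
  · intro x hx
    obtain ⟨⟨x', n, a1, b1, c1⟩, hu, rfl⟩ := Finset.mem_image.1 hx
    rw [Finset.mem_filter, Finset.mem_product] at hu
    obtain ⟨⟨hxS, -⟩, hu⟩ := hu
    refine ⟨hS _ hxS, ?_⟩
    obtain ⟨a, ha, hRp⟩ := hR _ hxS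
    refine ⟨a, ha, ?_⟩
    rw [← hu]
    show Rp a (mK (tB n (Un a1 b1 c1) (Bf x') (Cf x'))) (mK (tC (Un a1 b1 c1) (Cf x')))
    rw [mk_tB, mk_tC]
    exact rp_act hRp _ (by rw [un_det]; exact one_ne_zero)
  · intro x hx x' hx'
    obtain ⟨u, hu, rfl⟩ := Finset.mem_image.1 hx
    obtain ⟨v, hv, rfl⟩ := Finset.mem_image.1 hx'
    exact hI _ (Finset.mem_product.1 (Finset.mem_filter.1 hu).1).1 _ (Finset.mem_product.1 (Finset.mem_filter.1 hv).1).1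

end H88.SW
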