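import Pool.Agent.H67.SX.Defs
import Pool.Agent.H67.WA.Mk
import Pool.Agent.H67.WA.Cnt

/-!
# [H88 SW] SX chapter (W), MP_b39724: definitions (complete)

TARGET `H67.SX.WStat K`: `∑_{D c ≤ R} selg(c.F) ≤ C R` over the cubic extensions `c.F` of `K` (text: think 1370 (W), 1379).
`d = [K : ℚ]`. An item is a pair `(F, a)`, `a ∈ F`, `[F : K] = 3`, `a ≠ 0` with square norm. `Rp a B C`: there are functionals `p`, `q` on `F`
which vanish at `1` and a `K`-basis `x` of `F` with `B i j = p (a x_i x_j)`, `C i j = q (a x_i x_j)` (`p`, `q` are the coordinates with respect to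
`1, t1, t2`). `tB n U B C = Uᵀ (B - n C) U`, `tC U C = Uᵀ C U`, `Un a b c` unipotent: change of the bases. `Bx`: the sizes
`|B i j| ≤ κ l_i l_j / T1`, `|C i j| ≤ κ l_i l_j / T2` at every embedding.
-/

set_option autoImplicit false

open scoped NumberField nonZeroDivisors Matrix
open H88.A4 Pool.Agent.H67.WA H38.ML H63.MA

noncomputable section

namespace H88.SW

/-- `3 × 3` matrices -/
abbrev M3 (R : Type) : Type := Matrix (Fin 3) (Fin 3) R

section alg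

variable {R : Type} [CommRing R]

/-- unipotent matrices -/
def Un (a b c : R) : M3 R := !![1, a, b; 0, 1, c; 0, 0, 1]

/-- the first matrix after the change of the bases -/
def tB (n : R) (U B C : M3 R) : M3 R := Uᵀ * (B - n • C) * U

/-- the second matrix after the change of the bases -/
def tC (U C : M3 R) : M3 R := Uᵀ * C * U

end alg

section rep

variable {K : Type} [Field K] {F : Type} [Field F] [Algebra K F]

/-- `B i j`, `C i j` are the coordinates of `a x_i x_j` at `t1`, `t2` -/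
def Rp (a : F) (B C : M3 K) : Prop :=
  ∃ (p q : F →ₗ[K] K) (x : Fin 3 → F), p 1 = 0 ∧ q 1 = 0 ∧ LinearIndependent K ![p, q] ∧ LinearIndependent K x ∧
    ∀ i j, B i j = p (a * x i * x j) ∧ C i j = q (a * x i * x j)

/-- the same with the quotient `θ` of `p` and `q`: `p z = q (θ z)` -/
def RT (a : F) (B C : M3 K) (θ : F) : Prop :=
  ∃ (p q : F →ₗ[K] K) (x : Fin 3 → F), p 1 = 0 ∧ q 1 = 0 ∧ LinearIndependent K ![p, q] ∧ LinearIndependent K x ∧
    (∀ i j, B i j = p (a * x i * x j) ∧ C i j = q (a * x i * x j)) ∧ ∀ z, p z = q (θ * z)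

end rep

section sizes

variable {K : Type} [Field K] [NumberField K]

/-- the matrix over the field -/
def mK (B : M3 (𝓞 K)) : M3 K := B.map (algebraMap (𝓞 K) K)

/-- the sizes of the entries -/
def Bx (κ T1 T2 : ℝ) (l : Fin 3 → ℝ) (B C : M3 (𝓞 K)) : Prop :=
  ∀ i j, Bd (κ * (l i * l j) / T1) (B i j) ∧ Bd (κ * (l i * l j) / T2) (C i j)

/-- the order of the sizes -/
structure Or (T1 T2 : ℝ) (l : Fin 3 → ℝ) : Prop where
  t1 : 1 ≤ T1
  t2 : T1 ≤ T2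
  l0 : 0 < l 0
  l1 : l 0 ≤ l 1
  l2 : l 1 ≤ l 2

/-- the first case -/
def CaA (B C : M3 (𝓞 K)) : Prop := C 0 0 ≠ 0

/-- the second case -/
def CaB (B C : M3 (𝓞 K)) : Prop := C 0 0 = 0 ∧ C 0 1 ≠ 0 ∧ B 0 0 ≠ 0

/-- the third case -/
def CaC (B C : M3 (𝓞 K)) : Prop := C 0 0 = 0 ∧ C 0 1 = 0 ∧ C 0 2 ≠ 0 ∧ C 1 1 ≠ 0 ∧ B 0 0 ≠ 0

/-- the case `a = 1`: `x = (1, t1, t2)`, `m` the multiplier -/
def CaD (m : ℕ) (B C : M3 (𝓞 K)) : Prop := B 0 0 = 0 ∧ C 0 0 = 0 ∧ B 0 1 = (m : 𝓞 K) ∧ C 0 1 = 0 ∧ B 0 2 = 0 ∧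
  C 0 2 = (m : 𝓞 K) ∧ C 1 1 ≠ 0

/-- short `t1`, `t2` with integral coordinates up to a bounded factor -/
structure Tb (κ T1 T2 : ℝ) {F : Type} [Field F] [NumberField F] [Algebra K F] (t1 t2 : F) (p q : F →ₗ[K] K)
    (m : ℕ) : Prop where
  i1 : IsIntegral ℤ t1
  i2 : IsIntegral ℤ t2
  dec : ∀ y, ∃ a : K, y = algebraMap K F a + algebraMap K F (p y) * t1 + algebraMap K F (q y) * t2
  p0 : p 1 = 0
  q0 : q 1 = 0
  pt1 : p t1 = 1
  qt1 : q t1 = 0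
  pt2 : p t2 = 0
  qt2 : q t2 = 1
  one : 1 ≤ T1
  le : T1 ≤ T2
  s1 : ∀ φ : F →+* ℂ, ‖φ t1‖ ≤ T1
  s2 : ∀ φ : F →+* ℂ, ‖φ t2‖ ≤ T2
  m1 : 1 ≤ m
  mle : (m : ℝ) ≤ κ
  int : ∀ y, IsIntegral ℤ y → IsIntegral ℤ ((m : K) * p y) ∧ IsIntegral ℤ ((m : K) * q y)
  siz : ∀ (y : F) (Y : ℝ), (∀ φ : F →+* ℂ, ‖φ y‖ ≤ Y) → ∀ ψ : K →+* ℂ, ‖ψ (p y)‖ ≤ κ * Y / T1 ∧ ‖ψ (q y)‖ ≤ κ * Y / T2
  dl : (T1 * T2) ^ (2 * Module.finrank ℚ K) ≤ κ * |(NumberField.discr F : ℝ)|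
  du : |(NumberField.discr F : ℝ)| ≤ κ * (T1 * T2) ^ (2 * Module.finrank ℚ K)

end sizes

section items

variable {K : IntermediateField ℚ QBar} [NumberField K]

/-- the pairs `(F, a)` -/
abbrev It (K : IntermediateField ℚ QBar) : Type := IntermediateField K QBar × QBar

/-- cubic field, nonzero element with square norm -/
def IsIt (x : It K) : Prop :=
  Module.finrank K x.1 = 3 ∧ ∃ a : x.1, (a : QBar) = x.2 ∧ a ≠ 0 ∧ IsSquare (Algebra.norm K a)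

/-- different modulo squares -/
def Ine (S : Finset (It K)) : Prop :=
  ∀ x ∈ S, ∀ y ∈ S, x.1 = y.1 → (∃ c ∈ x.1, x.2 = y.2 * c ^ 2) → x = y

/-- `Rp` for an item -/
def RpI (x : It K) (B C : M3 K) : Prop := ∃ a : x.1, (a : QBar) = x.2 ∧ Rp a B C

/-- the discriminant of the field of an item -/
def dsc (x : It K) : ℝ := (H38.ML.relDisc K x.1 : ℝ)

/-- the ideal of `a` is a square -/
def SqI (x : It K) : Prop := ∃ (_ : NumberField x.1) (a : (x.1)ˣ), ((a : x.1) : QBar) = x.2 ∧ ∀ P : Pl x.1, Even (ord P a)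

end items

end H88.SW
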