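import Pool.Agent.H88.SW.Rig

/-!
# [H88 SW REC] Recovery: at most three items for one pair of matrices (75 min)

`rt_root`: `v j` = the dual basis `x* ` of `x` in the following sense: the matrix `N i j = q (x i * x j)` is invertible (`q (z w) = 0` for all `w` gives `z = 0`), put `v = N⁻¹` applied to the vector `x`: `∑ j, q (y * x j) • v j = y` for all `y` (it is enough for `y = x i`). Then `∑ j, (B i j - θ C i j) v j =
∑ j, q (θ a x_i x_j) v j - θ ∑ j, q (a x_i x_j) v j = θ a x_i - θ (a x_i) = 0`, `v ≠ 0`, so the determinant is zero (`Matrix.exists_mulVec_eq_zero_iff`), in `F` and in `QBar`.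
`roots_le`: `Matrix.det_fin_three`: `det (B - θ C)` is a polynomial in `θ` of degree three with the leading coefficient `-det C ≠ 0` (over `K`, mapped to `QBar`): the set of the roots is finite with at most three elements (build the polynomial, `Polynomial.card_roots'`, `natDegree ≤ 3`, nonzero).
`rt_eq`: `F`, `F'` of degree three over `K`, `θ` in both, not in `K`: `F = K(θ) = F'` (`IntermediateField.adjoin`; the degree of `K(θ)` divides 3 and is not 1). `subst`. Now `θ = θ'` as elements of `F`. `p, q, x` and `p', q', x'`: `T : F →ₗ[K] F` with `T (x j) = x' j` (bijective). For all `x y`: `q (a x y) = q' (a' T x T y)`,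
`q (θ a x y) = q' (θ a' T x T y)` (bilinear, on the bases: entries of `C` and `B`). `rigid`: `T z = τ z`, `τ ≠ 0`. So `q (a z) = q' (a' τ ^ 2 z)` for all `z` (`x = 1`, `y = z`). `q`, `q'` vanish at `1` and `θ` (`q θ = p 1 = 0`), which are independent, and the space of the functionals on `F` vanishing at `1` and `θ` has
dimension one: `q' = k q`, `k ≠ 0` (or: `exists_theta`: `q' z = q (η z)`; `q (η z)` vanishes at `1`, `θ`; so does `q (z)`; then with `1, θ, w` a basis, `k = q' w / q w`). So `q (a z) = q (k a' τ ^ 2 z)`, `a = k a' τ ^ 2`. Norms: `N a = k ^ 3 N a' (N τ) ^ 2`; `N a`, `N a'` are nonzero squares, so `k ^ 3` and `k` are squares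
in `K`: `k = k0 ^ 2`, `a = a' (k0 τ) ^ 2`.
`rec3`: every `x ∈ S` has `θ x ∈ QBar` with `RT` (`rp_rt`), a root of `det (B - θ C)`, and `x ↦ θ x` is injective on `S` (`rt_eq`, `Ine`), so `S.card ≤ 3` (`roots_le` needs `C.det ≠ 0`: `rp_det`; `S = ∅` trivial).
-/

set_option autoImplicit false

open scoped NumberField nonZeroDivisors Matrix
open H38.ML H63.MA

noncomputable section

namespace H88.SW

section fields

variable {K : Type} [Field K]

/-- a nonzero functional and a basis: the dual basis -/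
private theorem dual_vec {F : Type} [Field F] [Algebra K F] (hd : Module.finrank K F = 3) {q : F →ₗ[K] K} (hq : q ≠ 0)
    {x : Fin 3 → F} (hx : LinearIndependent K x) : ∃ v : Fin 3 → F, v ≠ 0 ∧ ∀ y, y = ∑ j, q (y * x j) • v j := by
  have : FiniteDimensional K F := Module.finite_of_finrank_pos (by omega)
  set Φ : F →ₗ[K] (Fin 3 → K) := LinearMap.pi (fun j => q ∘ₗ LinearMap.mulRight K (x j)) with hΦ
  have hΦa : ∀ y j, Φ y j = q (y * x j) := fun y j => by simp [hΦ]
  have hsp : ⊤ ≤ Submodule.span K (Set.range x) :=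
    (hx.span_eq_top_of_card_eq_finrank (by simp [hd])).ge
  have hinj : Function.Injective Φ := by
    rw [injective_iff_map_eq_zero]
    intro y hy
    by_contra hy0
    apply hq
    have h1 : ∀ z, q (y * z) = 0 := by
      have h2 : q ∘ₗ LinearMap.mulLeft K y = 0 := by
        refine LinearMap.ext_on_range (v := x) (top_le_iff.mp hsp) ?_
        intro j
        have := hΦa y j
        rw [hy] at this
        simpa using this.symm
      intro z
      have := LinearMap.congr_fun h2 z
      simpa using this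
    ext z
    have := h1 (y⁻¹ * z)
    rwa [mul_inv_cancel_left₀ hy0] at this
  let Ψ := Φ.linearEquivOfInjective hinj (by simp [hd])
  refine ⟨fun j => Ψ.symm (Pi.single j 1), ?_, ?_⟩
  · intro h0
    have h1 := congrFun h0 0
    have h2 : (Pi.single (0 : Fin 3) (1 : K) : Fin 3 → K) = 0 := by
      have h3 : Ψ.symm (Pi.single 0 1) = 0 := h1
      rwa [LinearEquiv.map_eq_zero_iff] at h3
    have := congrFun h2 0
    simp at this
  · intro y
    apply Ψ.injective
    rw [map_sum]
    simp only [map_smul, LinearEquiv.apply_symm_apply]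
    ext i
    have : Ψ y i = q (y * x i) := by
      rw [← hΦa y i]
      rfl
    rw [this]
    simp [Finset.sum_apply, Pi.single_apply]

theorem rt_root {F : Type} [Field F] [Algebra K F] (hd : Module.finrank K F = 3) {a : F} (ha : a ≠ 0) {B C : M3 K} {θ : F} (h : RT a B C θ) :
    (B.map (algebraMap K F) - θ • C.map (algebraMap K F)).det = 0 := by
  obtain ⟨p, q, x, hp, hq, hpq, hx, hBC, hθ⟩ := h
  have hq0 : q ≠ 0 := hpq.ne_zero 1
  obtain ⟨v, hv0, hv⟩ := dual_vec hd hq0 hx
  rw [← Matrix.exists_mulVec_eq_zero_iff]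
  refine ⟨v, hv0, ?_⟩
  ext i
  have h1 := hv (θ * (a * x i))
  have h2 := hv (a * x i)
  have h3 : ∀ j, algebraMap K F (B i j) * v j = q (θ * (a * x i) * x j) • v j := by
    intro j
    rw [(hBC i j).1, hθ, Algebra.smul_def]
    congr 3
    ring
  have h4 : ∀ j, algebraMap K F (C i j) * v j = q (a * x i * x j) • v j := by
    intro j
    rw [(hBC i j).2, Algebra.smul_def]
  have h5 : ((B.map (algebraMap K F) - θ • C.map (algebraMap K F)) *ᵥ v) i =
      (∑ j, algebraMap K F (B i j) * v j) - θ * ∑ j, algebraMap K F (C i j) * v j := by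
    simp only [Matrix.mulVec, dotProduct, Matrix.sub_apply, Matrix.map_apply, Matrix.smul_apply, smul_eq_mul, sub_mul,
      Finset.sum_sub_distrib, Finset.mul_sum, mul_assoc]
  rw [h5, Finset.sum_congr rfl (fun j _ => h3 j), Finset.sum_congr rfl (fun j _ => h4 j), ← h1, ← h2]
  exact sub_self _

theorem roots_le {Ω : Type} [Field Ω] [Algebra K Ω] (B C : M3 K) (hC : C.det ≠ 0) (S : Finset Ω)
    (hS : ∀ θ ∈ S, (B.map (algebraMap K Ω) - θ • C.map (algebraMap K Ω)).det = 0) : S.card ≤ 3 := by
  classical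
  set A' : M3 Ω := -C.map (algebraMap K Ω) with hA'
  set B' : M3 Ω := B.map (algebraMap K Ω) with hB'
  set P : Polynomial Ω := ((Polynomial.X : Polynomial Ω) • A'.map Polynomial.C + B'.map Polynomial.C).det with hP
  have hA0 : A'.det ≠ 0 := by
    have : (C.map (algebraMap K Ω)).det = algebraMap K Ω C.det := by
      rw [RingHom.map_det]; rfl
    rw [hA', Matrix.det_neg, this]
    have h1 : algebraMap K Ω C.det ≠ 0 := by simpa using hC
    simpa using h1
  have hc : P.coeff 3 = A'.det := by
    have := Polynomial.coeff_det_X_add_C_card A' B'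
    simpa using this
  have hP0 : P ≠ 0 := by
    intro h0
    rw [h0] at hc
    exact hA0 (by simpa using hc.symm)
  have hdeg : P.natDegree ≤ 3 := by
    have := Polynomial.natDegree_det_X_add_C_le A' B'
    simpa using this
  have hroot : ∀ θ ∈ S, P.IsRoot θ := by
    intro θ hθ
    have h1 := hS θ hθ
    rw [Polynomial.IsRoot, ← Polynomial.coe_evalRingHom, hP, RingHom.map_det]
    rw [← h1]
    congr 1
    ext i j
    simp [hA', hB']
    ring
  have hsub : S ⊆ P.roots.toFinset := by
    intro θ hθ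
    rw [Multiset.mem_toFinset, Polynomial.mem_roots hP0]
    exact hroot θ hθ
  calc S.card ≤ P.roots.toFinset.card := Finset.card_le_card hsub
    _ ≤ Multiset.card P.roots := Multiset.toFinset_card_le _
    _ ≤ P.natDegree := Polynomial.card_roots' P
    _ ≤ 3 := hdeg

/-- two functionals with two common zeros `1`, `θ` are proportional -/
private theorem prop_fun {F : Type} [Field F] [Algebra K F] (hd : Module.finrank K F = 3) {θ : F} (hθ : θ ∉ (⊥ : IntermediateField K F))
    {q q' : F →ₗ[K] K} (hq : q ≠ 0) (hq' : q' ≠ 0) (h1 : q 1 = 0) (h2 : q θ = 0) (h1' : q' 1 = 0) (h2' : q' θ = 0) :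
    ∃ k : K, k ≠ 0 ∧ ∀ z, q' z = k * q z := by
  have : FiniteDimensional K F := Module.finite_of_finrank_pos (by omega)
  obtain ⟨w, hw⟩ : ∃ w, q w ≠ 0 := by
    by_contra hcon
    push Not at hcon
    exact hq (LinearMap.ext hcon)
  have hli : LinearIndependent K ![1, θ, w] := by
    rw [Fintype.linearIndependent_iff]
    intro g hg
    simp only [Fin.sum_univ_three, Matrix.cons_val_zero, Matrix.cons_val_one, Matrix.cons_val_two, Matrix.head_cons, Matrix.tail_cons] at hg
    have hg' : g 0 • (1 : F) + g 1 • θ + g 2 • w = 0 := by simpa using hg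
    have e1 : g 2 = 0 := by
      have := congrArg q hg'
      simp only [map_add, map_smul, h1, h2, map_zero, mul_zero, zero_add, smul_eq_mul] at this
      rcases mul_eq_zero.mp this with h | h
      · exact h
      · exact absurd h hw
    have e2 : g 1 = 0 := by
      by_contra hne
      apply hθ
      rw [IntermediateField.mem_bot]
      refine ⟨-(g 1)⁻¹ * g 0, ?_⟩
      rw [e1, zero_smul, add_zero] at hg'
      have h3 : θ = -((g 1)⁻¹ • (g 0 • (1 : F))) := by
        have h4 : g 1 • θ = -(g 0 • (1 : F)) := by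
          rw [eq_neg_iff_add_eq_zero, add_comm]; exact hg'
        calc θ = (g 1)⁻¹ • (g 1 • θ) := by rw [smul_smul, inv_mul_cancel₀ hne, one_smul]
          _ = -((g 1)⁻¹ • (g 0 • (1 : F))) := by rw [h4, smul_neg]
      rw [h3, smul_smul, Algebra.smul_def, mul_one, neg_mul, map_neg]
    have e0 : g 0 = 0 := by
      rw [e1, e2, zero_smul, zero_smul, add_zero, add_zero] at hg'
      rcases smul_eq_zero.mp hg' with h | h
      · exact h
      · exact absurd h one_ne_zero
    intro i
    fin_cases i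
    · exact e0
    · exact e2
    · exact e1
  have hsp := hli.span_eq_top_of_card_eq_finrank (by simp [hd])
  have hall : ∀ z, q' z = (q' w / q w) * q z := by
    have h5 : q' = (q' w / q w) • q := by
      refine LinearMap.ext_on_range (v := ![1, θ, w]) hsp ?_
      intro i
      fin_cases i
      · simp [h1, h1']
      · simp [h2, h2']
      · simp [div_mul_cancel₀ _ hw]
    intro z
    have := LinearMap.congr_fun h5 z
    simpa using this
  refine ⟨q' w / q w, ?_, hall⟩
  intro h0
  apply hq'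
  ext z
  rw [hall z, h0, zero_mul]
  rfl

/-- the case of one field -/
private theorem rt_sq {F : Type} [Field F] [Algebra K F] (hd : Module.finrank K F = 3)
    {a a' θ : F} (ha : a ≠ 0) (ha' : a' ≠ 0) (hn : IsSquare (Algebra.norm K a)) (hn' : IsSquare (Algebra.norm K a'))
    {B C : M3 K} (h : RT a B C θ) (h' : RT a' B C θ) : ∃ c : F, a = a' * c ^ 2 := by
  have : FiniteDimensional K F := Module.finite_of_finrank_pos (by omega)
  have hgen := rt_gen h
  obtain ⟨p, q, x, hp, hq, hpq, hx, hBC, hθ⟩ := h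
  obtain ⟨p', q', x', hp', hq', hpq', hx', hBC', hθ'⟩ := h'
  have hq0 : q ≠ 0 := hpq.ne_zero 1
  have hq0' : q' ≠ 0 := hpq'.ne_zero 1
  let b : Module.Basis (Fin 3) K F := basisOfLinearIndependentOfCardEqFinrank hx (by simp [hd])
  have hb : ∀ i, b i = x i := fun i => by simp [b]
  let b' : Module.Basis (Fin 3) K F := basisOfLinearIndependentOfCardEqFinrank hx' (by simp [hd])
  have hb' : ∀ i, b' i = x' i := fun i => by simp [b']
  let T : F →ₗ[K] F := b.constr K x'
  have hT : ∀ i, T (x i) = x' i := fun i => by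
    rw [← hb i]; exact b.constr_basis K x' i
  have hTs : Function.Surjective T := by
    rw [← LinearMap.range_eq_top]
    rw [eq_top_iff, ← hx'.span_eq_top_of_card_eq_finrank (by simp [hd]), Submodule.span_le]
    rintro _ ⟨i, rfl⟩
    exact ⟨x i, hT i⟩
  have bil : ∀ (c c' : F) (r r' : F →ₗ[K] K), (∀ i j, r (c * x i * x j) = r' (c' * x' i * x' j)) →
      ∀ y z, r (c * y * z) = r' (c' * T y * T z) := by
    intro c c' r r' hrr
    have h1 : ∀ i z, r (c * x i * z) = r' (c' * x' i * T z) := by
      intro i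
      have h2 : r ∘ₗ LinearMap.mulLeft K (c * x i) = r' ∘ₗ LinearMap.mulLeft K (c' * x' i) ∘ₗ T := by
        refine b.ext ?_
        intro j
        rw [hb j]
        simp only [LinearMap.comp_apply, LinearMap.mulLeft_apply, hT]
        exact hrr i j
      intro z
      exact LinearMap.congr_fun h2 z
    intro y z
    have h3 : r ∘ₗ LinearMap.mulRight K z ∘ₗ LinearMap.mulLeft K c = r' ∘ₗ LinearMap.mulRight K (T z) ∘ₗ LinearMap.mulLeft K c' ∘ₗ T := by
      refine b.ext ?_
      intro i
      rw [hb i]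
      simp only [LinearMap.comp_apply, LinearMap.mulLeft_apply, LinearMap.mulRight_apply, hT]
      exact h1 i z
    exact LinearMap.congr_fun h3 y
  have hb1 : ∀ y z, q (a * y * z) = q' (a' * T y * T z) :=
    bil a a' q q' (fun i j => by rw [← (hBC i j).2, ← (hBC' i j).2])
  have hb2 : ∀ y z, q (θ * a * y * z) = q' (θ * a' * T y * T z) :=
    bil (θ * a) (θ * a') q q' (fun i j => by
      have e1 : θ * a * x i * x j = θ * (a * x i * x j) := by ring
      have e2 : θ * a' * x' i * x' j = θ * (a' * x' i * x' j) := by ring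
      rw [e1, e2, ← hθ, ← hθ', ← (hBC i j).1, ← (hBC' i j).1])
  obtain ⟨τ, hτ⟩ := rigid hd ha ha' hgen hq0' hTs hb1 hb2
  have hτ0 : τ ≠ 0 := by
    rintro rfl
    obtain ⟨y, hy⟩ := hTs 1
    rw [hτ y, zero_mul] at hy
    exact zero_ne_one hy
  have hqθ : q θ = 0 := by
    have := hθ 1
    rw [hp, mul_one] at this
    exact this.symm
  have hqθ' : q' θ = 0 := by
    have := hθ' 1
    rw [hp', mul_one] at this
    exact this.symm
  obtain ⟨k, hk0, hk⟩ := prop_fun hd hgen hq0 hq0' hq hqθ hq' hqθ'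
  have hkF : algebraMap K F k ≠ 0 := by simpa using hk0
  -- `q (a z) = q (k a' τ ^ 2 z)`
  have hz : ∀ z, q ((a - algebraMap K F k * a' * τ ^ 2) * z) = 0 := by
    intro z
    have h1 := hb1 1 z
    rw [hτ 1, hτ z, hk] at h1
    have e1 : a' * (τ * 1) * (τ * z) = a' * τ ^ 2 * z := by ring
    rw [mul_one, e1] at h1
    have e2 : (a - algebraMap K F k * a' * τ ^ 2) * z = a * z - k • (a' * τ ^ 2 * z) := by
      rw [Algebra.smul_def]; ring
    rw [e2, map_sub, map_smul, smul_eq_mul, h1, sub_self]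
  have hae : a = algebraMap K F k * a' * τ ^ 2 := by
    by_contra hne
    have hne' : a - algebraMap K F k * a' * τ ^ 2 ≠ 0 := sub_ne_zero.mpr hne
    apply hq0
    ext z
    have := hz ((a - algebraMap K F k * a' * τ ^ 2)⁻¹ * z)
    rwa [mul_inv_cancel_left₀ hne'] at this
  -- norms
  have hN : Algebra.norm K a = k ^ 3 * Algebra.norm K a' * (Algebra.norm K τ) ^ 2 := by
    conv_lhs => rw [hae]
    rw [map_mul, map_mul, map_pow, Algebra.norm_algebraMap, hd]
  obtain ⟨s, hs⟩ := hn
  obtain ⟨s', hs'⟩ := hn'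
  have hNτ : Algebra.norm K τ ≠ 0 := Algebra.norm_ne_zero_iff.mpr hτ0
  have hNa' : Algebra.norm K a' ≠ 0 := Algebra.norm_ne_zero_iff.mpr ha'
  have hs0' : s' ≠ 0 := by
    rintro rfl
    exact hNa' (by rw [hs', mul_zero])
  rw [hs, hs'] at hN
  have hk2 : k = (s / (s' * Algebra.norm K τ * k)) ^ 2 := by
    rw [div_pow, eq_div_iff (pow_ne_zero 2 (mul_ne_zero (mul_ne_zero hs0' hNτ) hk0))]
    rw [sq s, hN]
    ring
  refine ⟨algebraMap K F (s / (s' * Algebra.norm K τ * k)) * τ, ?_⟩
  rw [mul_pow, ← map_pow, ← hk2]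
  conv_lhs => rw [hae]
  ring

theorem rt_eq {Ω : Type} [Field Ω] [Algebra K Ω] (F F' : IntermediateField K Ω) (hd : Module.finrank K F = 3) (hd' : Module.finrank K F' = 3)
    {a θ : F} {a' θ' : F'} (ha : a ≠ 0) (ha' : a' ≠ 0) (hn : IsSquare (Algebra.norm K a)) (hn' : IsSquare (Algebra.norm K a'))
    {B C : M3 K} (h : RT a B C θ) (h' : RT a' B C θ') (hθ : (θ : Ω) = θ') :
    F = F' ∧ ∃ c ∈ F, (a : Ω) = (a' : Ω) * c ^ 2 := by
  have key : ∀ (E : IntermediateField K Ω), Module.finrank K E = 3 → ∀ (t : E), t ∉ (⊥ : IntermediateField K E) →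
      IntermediateField.adjoin K {(t : Ω)} = E := by
    intro E hE t ht
    have : FiniteDimensional K E := Module.finite_of_finrank_pos (by omega)
    have hle : IntermediateField.adjoin K {(t : Ω)} ≤ E := by
      rw [IntermediateField.adjoin_simple_le_iff]
      exact t.2
    refine IntermediateField.eq_of_le_of_finrank_eq hle ?_
    have hdvd := IntermediateField.finrank_dvd_of_le_right hle
    rw [hE] at hdvd ⊢
    rcases (Nat.dvd_prime Nat.prime_three).mp hdvd with h1 | h1
    · exfalso
      rw [IntermediateField.finrank_adjoin_simple_eq_one_iff] at h1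
      apply ht
      rw [IntermediateField.mem_bot] at h1 ⊢
      obtain ⟨c, hc⟩ := h1
      exact ⟨c, Subtype.ext (by rw [← hc]; rfl)⟩
    · exact h1
  have hF : F = F' := by
    rw [← key F hd θ (rt_gen h), ← key F' hd' θ' (rt_gen h'), hθ]
  subst hF
  have hθ2 : θ = θ' := Subtype.ext hθ
  subst hθ2
  obtain ⟨c, hc⟩ := rt_sq hd ha ha' hn hn' h h'
  refine ⟨rfl, c, c.2, ?_⟩
  rw [hc]
  push_cast
  ring

end fields

variable {K : IntermediateField ℚ QBar} [NumberField K]

theorem rec3 (B C : M3 K) (S : Finset (It K)) (hS : ∀ x ∈ S, IsIt x ∧ RpI x B C) (hI : Ine S) : S.card ≤ 3 := by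
  classical
  rcases S.eq_empty_or_nonempty with h0 | ⟨x0, hx0⟩
  · rw [h0]; simp
  have hC : C.det ≠ 0 := by
    obtain ⟨⟨hd, a, ha, ha0, -⟩, ⟨a1, ha1, hR⟩⟩ := hS x0 hx0
    have : a1 = a := Subtype.ext (by rw [ha1, ha])
    subst this
    exact rp_det hd ha0 hR
  have hch : ∀ x : It K, ∃ t : QBar, x ∈ S → ∃ (a θ : x.1), (a : QBar) = x.2 ∧ (θ : QBar) = t ∧ a ≠ 0 ∧ IsSquare (Algebra.norm K a) ∧
      RT a B C θ := by
    intro x
    by_cases hx : x ∈ S
    · obtain ⟨⟨hd, a, ha, ha0, hsq⟩, ⟨a1, ha1, hR⟩⟩ := hS x hx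
      have : a1 = a := Subtype.ext (by rw [ha1, ha])
      subst this
      obtain ⟨θ, hθ⟩ := rp_rt hd hR
      exact ⟨θ, fun _ => ⟨a1, θ, ha, rfl, ha0, hsq, hθ⟩⟩
    · exact ⟨0, fun h => absurd h hx⟩
  choose t ht using hch
  have hinj : Set.InjOn t (S : Set (It K)) := by
    intro x hx y hy hxy
    obtain ⟨a, θ, h1, h2, h3, h4, h5⟩ := ht x hx
    obtain ⟨a', θ', h1', h2', h3', h4', h5'⟩ := ht y hy
    obtain ⟨hF, c, hc, hac⟩ := rt_eq x.1 y.1 (hS x hx).1.1 (hS y hy).1.1 h3 h3' h4 h4' h5 h5' (by rw [h2, h2', hxy])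
    exact hI x hx y hy hF ⟨c, hc, by rw [← h1, ← h1', hac]⟩
  rw [← Finset.card_image_of_injOn hinj]
  refine roots_le B C hC _ ?_
  intro s hs
  obtain ⟨x, hx, rfl⟩ := Finset.mem_image.mp hs
  obtain ⟨a, θ, h1, h2, h3, h4, h5⟩ := ht x hx
  have h6 := rt_root (hS x hx).1.1 h3 h5
  have h7 := congrArg (algebraMap x.1 QBar) h6
  rw [RingHom.map_det, map_zero] at h7
  rw [← h7]
  congr 1
  ext i j
  have e1 : ∀ c : K, algebraMap x.1 QBar (algebraMap K x.1 c) = algebraMap K QBar c := fun c =>
    (IsScalarTower.algebraMap_apply K x.1 QBar c).symm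
  have e2 : algebraMap x.1 QBar θ = t x := h2
  simp [Matrix.map_apply, ← h2]

end H88.SW
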