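import Pool.Agent.H88.SW.Alg

/-!
# [H88 SW RIG] Rigidity and the stabiliser (75 min)

`exists_theta`: the map `F → (F →ₗ[K] K)`, `y ↦ (z ↦ q (y * z))` is `K`-linear, injective (`q ≠ 0`: if `q (y z) = 0` for all `z` and `y ≠ 0` then `q = 0`), and the dimensions are equal (`finrank K F = 3`, `Subspace.dual_finrank_eq` / `Module.finrank_linearMap`), so it is surjective
(`LinearMap.injective_iff_surjective_of_finrank_eq_finrank`).
`rp_rt`: from `exists_theta`. `rt_gen`: `θ` is not in the image of `K` (otherwise `p = k q`). `rt_one`: `q θ = p 1 = 0`.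
`rigid`: for all `x`, `y`: `r (b * (T (θ * x) - θ * T x) * T y) = 0` (use (1) for `θ * x`, `y` and (2)), `T` is surjective and `r ≠ 0`, `b ≠ 0`: `T (θ * x) = θ * T x`. The set of the `z` with `T (z * x) = z * T x` for all `x` is a subalgebra of `F` over `K` which contains `θ`, `θ ∉ K`, and the degree
3 is prime, so it is `F` (an intermediate field (`F/K` is algebraic, `Subalgebra.isField_of_algebraic`, or `Subalgebra.finrank`: `1, θ, θ ^ 2` are independent) different from `⊥` is `⊤`). `x = 1`: `T z = z * T 1`.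
`rp_stab`. Put `p, q, x` from `h`, `c = C.det ≠ 0` (`rp_det`). STEP 1: `n = n'`. For every `k : K`: `Uᵀ (B - (n + k) C) U = Vᵀ (B - (n' + k) C) V` (subtract `k` times `e2` from `e1`), the determinants of `Un` are `1`, so `det (B - (n + k) C) = det (B - (n' + k) C)` for all `k`. The cubic polynomial `f k = det (B - k C)` has the
leading coefficient `-c`; with `N = n - n'`, `g k = f (k + N) - f k = 0` for all `k` (shift `k`); `g 0 - 2 g 1 + g 2 = -6 c N` (`Matrix.det_fin_three`, `ring`), so `N = 0` (characteristic zero). STEP 2: `W = V * U⁻¹`: again `Un a'' b'' c''` (put `W = Un (a' - a) (b' - b - a (c'... ))`: simply `W = V * U.adjugate`, `U.adjugate = U⁻¹`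
because `det U = 1`; its first column is `(1, 0, 0)`). `Wᵀ C W = C`, `Wᵀ B W = B`. `T : F →ₗ[K] F` with `T (x j) = ∑ i, W i j • x i` (basis). (1): `q (a * x * y) = q (a * T x * T y)`, bilinear, on the basis: `Wᵀ C W = C`; (2): `q (θ * a * x * y) = p (a x y)`: `Wᵀ B W = B`. `T` is bijective (`det W = 1`; or injective because
of (1): `T x = 0` gives `q (a x y) = 0` for all `y`). `rigid`: `T z = z * T 1`; `T (x 0) = x 0` (first column) so `T 1 = 1` and `T = id`, `W = 1` (linear independence), `U = V`.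
-/

set_option autoImplicit false

open scoped NumberField nonZeroDivisors Matrix

noncomputable section

namespace H88.SW

variable {K : Type} [Field K] {F : Type} [Field F] [Algebra K F]

private theorem un_det (a b c : K) : (Un a b c).det = 1 := by
  rw [Matrix.det_fin_three]
  simp [Un]

private theorem un_inv (a b c : K) : Un a b c * Un (-a) (a * c - b) (-c) = 1 := by
  ext i j
  fin_cases i <;> fin_cases j <;> simp [Un, Matrix.mul_apply, Fin.sum_univ_three]; ring

private theorem diff3 (B C : M3 K) (n n' : K) (h0 : (B - (n + 0) • C).det = (B - (n' + 0) • C).det)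
    (h1 : (B - (n + 1) • C).det = (B - (n' + 1) • C).det) (h2 : (B - (n + 2) • C).det = (B - (n' + 2) • C).det) :
    6 * C.det * (n - n') = 0 := by
  simp only [Matrix.det_fin_three, Matrix.sub_apply, Matrix.smul_apply, smul_eq_mul] at h0 h1 h2 ⊢
  linear_combination (-1) * h0 + 2 * h1 - h2

private theorem cancelU {U U' X Y : M3 K} (hU : U * U' = 1) (h : Uᵀ * X * U = Uᵀ * Y * U) : X = Y := by
  have h1 : U'ᵀ * Uᵀ = 1 := by rw [← Matrix.transpose_mul, hU, Matrix.transpose_one]
  have h2 : ∀ Z : M3 K, U'ᵀ * (Uᵀ * Z * U) * U' = Z := by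
    intro Z
    calc U'ᵀ * (Uᵀ * Z * U) * U' = (U'ᵀ * Uᵀ) * Z * (U * U') := by simp only [Matrix.mul_assoc]
      _ = Z := by rw [h1, hU, Matrix.one_mul, Matrix.mul_one]
  rw [← h2 X, h, h2]

private theorem rp_key (a : F) (x : Fin 3 → F) (W : M3 K) (r : F →ₗ[K] K) (i j : Fin 3) :
    r (a * (∑ k, W k i • x k) * ∑ l, W l j • x l) = ∑ k, ∑ l, W k i * (r (a * x k * x l)) * W l j := by
  rw [Finset.mul_sum (s := Finset.univ) (f := fun k => W k i • x k), Finset.sum_mul, map_sum]
  refine Finset.sum_congr rfl fun k _ => ?_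
  rw [Finset.mul_sum, map_sum]
  refine Finset.sum_congr rfl fun l _ => ?_
  rw [mul_smul_comm, mul_smul_comm, smul_mul_assoc, map_smul, map_smul, smul_eq_mul, smul_eq_mul]
  ring

theorem exists_theta (hd : Module.finrank K F = 3) {q : F →ₗ[K] K} (hq : q ≠ 0) (p : F →ₗ[K] K) : ∃ θ : F, ∀ z, p z = q (θ * z) := by
  have : FiniteDimensional K F := FiniteDimensional.of_finrank_pos (by rw [hd]; norm_num)
  obtain ⟨Φ, hΦ⟩ : ∃ Φ : F →ₗ[K] (F →ₗ[K] K), ∀ y z, Φ y z = q (y * z) :=
    ⟨(LinearMap.mul K F).compr₂ q, fun y z => rfl⟩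
  have hinj : Function.Injective Φ := by
    rw [injective_iff_map_eq_zero]
    intro y hy
    by_contra hne
    apply hq
    ext w
    have h1 := LinearMap.congr_fun hy (y⁻¹ * w)
    rw [hΦ, mul_inv_cancel_left₀ hne] at h1
    exact h1
  have hsur : Function.Surjective Φ := by
    refine (LinearMap.injective_iff_surjective_of_finrank_eq_finrank ?_).1 hinj
    exact (Subspace.dual_finrank_eq (K := K) (V := F)).symm
  obtain ⟨θ, hθ⟩ := hsur p
  exact ⟨θ, fun z => by rw [← hθ, hΦ]⟩

theorem rp_rt (hd : Module.finrank K F = 3) {a : F} {B C : M3 K} (h : Rp a B C) : ∃ θ : F, RT a B C θ := by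
  obtain ⟨p, q, x, hp, hq, hpq, hx, hB⟩ := h
  have hq0 : q ≠ 0 := hpq.ne_zero 1
  obtain ⟨θ, hθ⟩ := exists_theta hd hq0 p
  exact ⟨θ, p, q, x, hp, hq, hpq, hx, hB, hθ⟩

theorem rt_gen {a : F} {B C : M3 K} {θ : F} (h : RT a B C θ) : θ ∉ (⊥ : IntermediateField K F) := by
  obtain ⟨p, q, x, hp, hq, hpq, hx, hB, hθ⟩ := h
  intro hb
  obtain ⟨k, rfl⟩ := IntermediateField.mem_bot.1 hb
  rw [LinearIndependent.pair_iff] at hpq
  have h1 : (1 : K) • p + (-k) • q = 0 := by
    ext z
    rw [LinearMap.add_apply, LinearMap.smul_apply, LinearMap.smul_apply, LinearMap.zero_apply, hθ z,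
      ← Algebra.smul_def, map_smul, smul_eq_mul, smul_eq_mul, smul_eq_mul]
    ring
  exact one_ne_zero (hpq _ _ h1).1

theorem rigid (hd : Module.finrank K F = 3) {a b θ : F} (ha : a ≠ 0) (hb : b ≠ 0) (hθ : θ ∉ (⊥ : IntermediateField K F)) {q r : F →ₗ[K] K}
    (hr : r ≠ 0) {T : F →ₗ[K] F} (hT : Function.Surjective T) (h1 : ∀ x y, q (a * x * y) = r (b * T x * T y))
    (h2 : ∀ x y, q (θ * a * x * y) = r (θ * b * T x * T y)) : ∃ τ : F, ∀ z, T z = τ * z := by
  have hTθ : ∀ x, T (θ * x) = θ * T x := by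
    intro x
    by_contra hne
    have hw : T (θ * x) - θ * T x ≠ 0 := sub_ne_zero.2 hne
    apply hr
    ext w
    obtain ⟨y, hy⟩ := hT ((b * (T (θ * x) - θ * T x))⁻¹ * w)
    have h3 := h1 (θ * x) y
    have h4 := h2 x y
    have h5 : a * (θ * x) * y = θ * a * x * y := by ring
    rw [h5, h4] at h3
    have h6 : w = b * T (θ * x) * T y - θ * b * T x * T y := by
      have h7 : b * (T (θ * x) - θ * T x) * T y = w := by
        rw [hy, mul_inv_cancel_left₀ (mul_ne_zero hb hw)]
      rw [← h7]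
      ring
    rw [h6, map_sub, h3, sub_self]
    rfl
  obtain ⟨S, hS⟩ : ∃ S : Subalgebra K F, ∀ z, z ∈ S ↔ ∀ x, T (z * x) = z * T x := by
    refine ⟨{ carrier := {z | ∀ x, T (z * x) = z * T x}, mul_mem' := ?_, add_mem' := ?_, algebraMap_mem' := ?_ }, fun z => Iff.rfl⟩
    · intro y z hy hz x
      have hy' : ∀ x, T (y * x) = y * T x := hy
      have hz' : ∀ x, T (z * x) = z * T x := hz
      rw [mul_assoc, hy', hz', mul_assoc]
    · intro y z hy hz x
      have hy' : ∀ x, T (y * x) = y * T x := hy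
      have hz' : ∀ x, T (z * x) = z * T x := hz
      rw [add_mul, map_add, hy', hz', add_mul]
    · intro k x
      rw [← Algebra.smul_def, map_smul, Algebra.smul_def]
  have : IsSimpleOrder (Subalgebra K F) := Subalgebra.isSimpleOrder_of_finrank_prime K F (by rw [hd]; norm_num)
  have hθS : θ ∈ S := (hS θ).2 hTθ
  rcases eq_bot_or_eq_top S with h | h
  · exfalso
    rw [h] at hθS
    exact hθ (IntermediateField.mem_bot.2 (Algebra.mem_bot.1 hθS))
  · refine ⟨T 1, fun z => ?_⟩
    have hz : z ∈ S := by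
      rw [h]
      exact Algebra.mem_top
    have := (hS z).1 hz 1
    rw [mul_one] at this
    rw [this, mul_comm]

theorem rp_stab [CharZero K] (hd : Module.finrank K F = 3) {a : F} (ha : a ≠ 0) {B C : M3 K} (h : Rp a B C) {n n' a1 b1 c1 a2 b2 c2 : K}
    (e1 : tB n (Un a1 b1 c1) B C = tB n' (Un a2 b2 c2) B C) (e2 : tC (Un a1 b1 c1) C = tC (Un a2 b2 c2) C) :
    n = n' ∧ a1 = a2 ∧ b1 = b2 ∧ c1 = c2 := by
  classical
  have hfd : FiniteDimensional K F := FiniteDimensional.of_finrank_pos (by rw [hd]; norm_num)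
  have hdet : C.det ≠ 0 := rp_det hd ha h
  obtain ⟨U, hU⟩ : ∃ U, U = Un a1 b1 c1 := ⟨_, rfl⟩
  obtain ⟨V, hV⟩ : ∃ V, V = Un a2 b2 c2 := ⟨_, rfl⟩
  rw [← hU, ← hV] at e1 e2
  have hUd : U.det = 1 := by rw [hU, un_det]
  have hVd : V.det = 1 := by rw [hV, un_det]
  have hnn : n = n' := by
    have key : ∀ k : K, (B - (n + k) • C).det = (B - (n' + k) • C).det := by
      intro k
      have h1 : Uᵀ * (B - (n + k) • C) * U = Vᵀ * (B - (n' + k) • C) * V := by
        have h2 : ∀ (W : M3 K) (m : K), Wᵀ * (B - (m + k) • C) * W = tB m W B C - k • tC W C := by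
          intro W m
          rw [tB, tC, add_smul, ← sub_sub, Matrix.mul_sub, Matrix.sub_mul, Matrix.mul_smul, Matrix.smul_mul]
        rw [h2, h2, e1, e2]
      have h3 := congrArg Matrix.det h1
      rw [Matrix.det_mul, Matrix.det_mul, Matrix.det_mul, Matrix.det_mul, Matrix.det_transpose, Matrix.det_transpose,
        hUd, hVd, one_mul, mul_one, one_mul, mul_one] at h3
      exact h3
    have h6 : 6 * C.det * (n - n') = 0 := diff3 B C n n' (key 0) (key 1) (key 2)
    have h7 : (6 : K) ≠ 0 := by norm_num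
    have h8 : n - n' = 0 := by
      rcases mul_eq_zero.1 h6 with h9 | h9
      · exact absurd h9 (mul_ne_zero h7 hdet)
      · exact h9
    exact sub_eq_zero.1 h8
  subst hnn
  obtain ⟨θ, hRT⟩ := rp_rt hd h
  have hθ := rt_gen hRT
  obtain ⟨p, q, x, hp, hq, hpq, hx, hB, hpθ⟩ := hRT
  have hq0 : q ≠ 0 := hpq.ne_zero 1
  obtain ⟨U', hU'⟩ : ∃ U', U' = Un (-a1) (a1 * c1 - b1) (-c1) := ⟨_, rfl⟩
  have hUU : U * U' = 1 := by rw [hU, hU', un_inv]
  obtain ⟨W, hW⟩ : ∃ W, W = V * U' := ⟨_, rfl⟩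
  have hWU : W * U = V := by
    have h1 : U' * U = 1 := mul_eq_one_comm.1 hUU
    rw [hW, Matrix.mul_assoc, h1, Matrix.mul_one]
  have hWC : Wᵀ * C * W = C := by
    have h1 : Uᵀ * (Wᵀ * C * W) * U = Uᵀ * C * U := by
      rw [tC, tC] at e2
      rw [e2, ← hWU, Matrix.transpose_mul]
      simp only [Matrix.mul_assoc]
    exact cancelU hUU h1
  have hWB : Wᵀ * B * W = B := by
    have h1 : Uᵀ * (Wᵀ * B * W) * U = Uᵀ * B * U := by
      have h2 : ∀ W : M3 K, Wᵀ * B * W = tB n W B C + n • tC W C := by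
        intro W
        rw [tB, tC, Matrix.mul_sub, Matrix.sub_mul, Matrix.mul_smul, Matrix.smul_mul]
        abel
      have h3 : Uᵀ * B * U = Vᵀ * B * V := by rw [h2, h2, e1, e2]
      rw [h3, ← hWU, Matrix.transpose_mul]
      simp only [Matrix.mul_assoc]
    exact cancelU hUU h1
  have hcard : Fintype.card (Fin 3) = Module.finrank K F := by rw [hd, Fintype.card_fin]
  obtain ⟨bs, hbs⟩ : ∃ bs : Module.Basis (Fin 3) K F, ∀ i, bs i = x i :=
    ⟨basisOfLinearIndependentOfCardEqFinrank hx hcard, fun i => by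
      rw [coe_basisOfLinearIndependentOfCardEqFinrank]⟩
  obtain ⟨T, hTx⟩ : ∃ T : F →ₗ[K] F, ∀ j, T (x j) = ∑ i, W i j • x i :=
    ⟨bs.constr K (fun j => ∑ i, W i j • x i), fun j => by rw [← hbs, Module.Basis.constr_basis]⟩
  have hbil : ∀ (r : F →ₗ[K] K) (D : M3 K), (∀ i j, D i j = r (a * x i * x j)) → Wᵀ * D * W = D →
      ∀ y z, r (a * y * z) = r (a * T y * T z) := by
    intro r D hD hWD
    obtain ⟨L1, hL1⟩ : ∃ L1 : F →ₗ[K] F →ₗ[K] K, ∀ y z, L1 y z = r (a * y * z) :=
      ⟨((LinearMap.mul K F).compr₂ r).comp (LinearMap.mulLeft K a), fun y z => rfl⟩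
    obtain ⟨L2, hL2⟩ : ∃ L2 : F →ₗ[K] F →ₗ[K] K, ∀ y z, L2 y z = r (a * T y * T z) :=
      ⟨L1.compl₁₂ T T, fun y z => by rw [LinearMap.compl₁₂_apply, hL1]⟩
    have hL : L1 = L2 := by
      refine bs.ext fun i => bs.ext fun j => ?_
      rw [hL1, hL2, hbs, hbs, hTx, hTx, ← hD i j]
      have h1 := congrFun (congrFun hWD i) j
      rw [← h1, rp_key, Matrix.mul_apply]
      simp only [Matrix.mul_apply, Matrix.transpose_apply, Finset.sum_mul, hD]
      rw [Finset.sum_comm]
    intro y z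
    rw [← hL1, ← hL2, hL]
  have h1 : ∀ y z, q (a * y * z) = q (a * T y * T z) := hbil q C (fun i j => (hB i j).2) hWC
  have h2 : ∀ y z, q (θ * a * y * z) = q (θ * a * T y * T z) := by
    intro y z
    have h3 := hbil p B (fun i j => (hB i j).1) hWB y z
    rw [hpθ, hpθ] at h3
    have e3 : θ * a * y * z = θ * (a * y * z) := by ring
    have e4 : θ * a * T y * T z = θ * (a * T y * T z) := by ring
    rw [e3, e4, h3]
  have hTi : Function.Injective T := by
    rw [injective_iff_map_eq_zero]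
    intro y hy
    by_contra hne
    apply hq0
    ext w
    have h3 := h1 y ((a * y)⁻¹ * w)
    rw [hy, mul_zero, zero_mul, map_zero, mul_inv_cancel_left₀ (mul_ne_zero ha hne)] at h3
    exact h3
  have hTs : Function.Surjective T := LinearMap.injective_iff_surjective.1 hTi
  obtain ⟨τ, hτ⟩ := rigid hd ha ha hθ hq0 hTs h1 h2
  have hW0 : ∀ i, W i 0 = (1 : M3 K) i 0 := by
    intro i
    rw [hW, hV, hU', Matrix.one_apply]
    fin_cases i <;> simp [Un, Matrix.mul_apply, Fin.sum_univ_three]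
  have hT0 : T (x 0) = x 0 := by
    rw [hTx]
    simp only [hW0]
    rw [Fin.sum_univ_three]
    simp
  have hτ1 : τ = 1 := by
    have h3 := hτ (x 0)
    rw [hT0] at h3
    have h4 : x 0 ≠ 0 := hx.ne_zero 0
    exact mul_right_cancel₀ h4 (by rw [one_mul]; exact h3.symm)
  have hW1 : W = 1 := by
    ext i j
    have h3 : ∑ i, (W i j - (1 : M3 K) i j) • x i = 0 := by
      simp only [sub_smul, Finset.sum_sub_distrib]
      rw [← hTx, hτ, hτ1, one_mul, sub_eq_zero]
      simp [Matrix.one_apply]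
    exact sub_eq_zero.1 (Fintype.linearIndependent_iff.1 hx _ h3 i)
  have hUV : U = V := by rw [← hWU, hW1, Matrix.one_mul]
  rw [hU, hV] at hUV
  refine ⟨rfl, ?_, ?_, ?_⟩
  · have := congrFun (congrFun hUV 0) 1
    simpa [Un] using this
  · have := congrFun (congrFun hUV 0) 2
    simpa [Un] using this
  · have := congrFun (congrFun hUV 1) 2
    simpa [Un] using this

end H88.SW
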