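import Pool.Agent.H88.SW.Defs

/-!
# [H88 SW TBB] Coordinates with respect to a basis of integral elements (90 min)

`F` a number field, `b` a `ℚ`-basis of integral elements, `‖φ (b i)‖ ≤ r i`.
`det_le'`: `Matrix.det_apply`, `norm_sum_le`, `‖∏‖ = ∏ ‖‖`, every product is at most `∏ r i` (`Equiv.prod_comp` for the permutation), number of permutations `(card ι)!` (`Fintype.card_perm`). Also for a matrix with rows and columns in different index types of the same cardinality (reindex).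
`zb`: index the integral basis `β = NumberField.integralBasis F` by `ι` (`e : Module.Free.ChooseBasisIndex ℤ (𝓞 F) ≃ ι` from the cardinalities, `Fintype.equivOfCardEq`, both are `finrank ℚ F`). `P` the integer matrix with `b j = ∑ i, P i j • β i` (`b j` is integral: the coordinates are integers, `NumberField.mem_span_integralBasis` or
`integralBasis_repr_apply`). `m = |det P|`, `m ≠ 0` (bases; over `ℚ` the matrix `P` is invertible). `Algebra.discr ℚ b = det P ^ 2 * Algebra.discr ℚ β` (`Algebra.discr_of_matrix_vecMul`, `Algebra.discr_reindex`), `NumberField.coe_discr`.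
(1): for `y` integral with the coordinate vector `z` (integers) in `β` and `u` in `b`: `P u = z`, so `det P * u = adjugate P * z` is integral.
(2), (3): for an indexing `ψ : ι ≃ (F →ₐ[ℚ] ℂ)` (`Algebra.discr_eq_det_embeddingsMatrixReindex_pow_two`): `A = (ψ i (b j))`, `det A ^ 2 = discr ℚ b`; `‖det A‖ = m √|disc F|`, at most `N! ∏ r` by `det_le'`. For `y = ∑ u j b j`: Cramer: `u j * det A = det (A with the column j replaced by ψ i (y))` (`Matrix.cramer_apply`,
`Matrix.cramer_eq_adjugate_mulVec`, `Matrix.adjugate_mul` : `A *ᵥ u = (ψ i y)_i`), at most `N! ∏_{k ≠ j} r k * Y = N! (∏ r) Y / r j`; `‖det A‖ ≥ √|disc F|` since `m ≥ 1`. Embeddings `F →ₐ[ℚ] ℂ` and `F →+* ℂ`: `RingHom.equivRatAlgHom`.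
-/

set_option autoImplicit false

open scoped NumberField nonZeroDivisors Matrix

noncomputable section

namespace H88.SW

theorem det_le' {ι : Type} [Fintype ι] [DecidableEq ι] (A : Matrix ι ι ℂ) (r : ι → ℝ) (h : ∀ i j, ‖A i j‖ ≤ r j) :
    ‖A.det‖ ≤ (Fintype.card ι).factorial * ∏ j, r j := by
  rw [Matrix.det_apply]
  refine (norm_sum_le _ _).trans ?_
  have h1 : ∀ σ ∈ (Finset.univ : Finset (Equiv.Perm ι)), ‖Equiv.Perm.sign σ • ∏ i, A (σ i) i‖ ≤ ∏ j, r j := by
    intro σ _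
    have h2 : ‖Equiv.Perm.sign σ • ∏ i, A (σ i) i‖ = ∏ i, ‖A (σ i) i‖ := by
      rcases Int.units_eq_one_or (Equiv.Perm.sign σ) with h | h <;> simp [h, norm_prod]
    rw [h2]
    exact Finset.prod_le_prod (fun i _ => norm_nonneg _) fun i _ => h _ _
  refine (Finset.sum_le_sum h1).trans (le_of_eq ?_)
  rw [Finset.sum_const, Finset.card_univ, Fintype.card_perm, nsmul_eq_mul]

theorem zb {F : Type} [Field F] [NumberField F] {ι : Type} [Fintype ι] [DecidableEq ι] (b : Module.Basis ι ℚ F) (hb : ∀ i, IsIntegral ℤ (b i))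
    (r : ι → ℝ) (hr : ∀ i, 0 < r i) (h : ∀ i, ∀ φ : F →+* ℂ, ‖φ (b i)‖ ≤ r i) :
    ∃ m : ℕ, 1 ≤ m ∧ (∀ y : F, IsIntegral ℤ y → ∀ i, ∃ z : ℤ, (m : ℚ) * b.repr y i = z) ∧
      (m : ℝ) * Real.sqrt |(NumberField.discr F : ℝ)| ≤ (Fintype.card ι).factorial * ∏ i, r i ∧
      ∀ (y : F) (Y : ℝ), (∀ φ : F →+* ℂ, ‖φ y‖ ≤ Y) → ∀ i,
        |(b.repr y i : ℝ)| * Real.sqrt |(NumberField.discr F : ℝ)| ≤ (Fintype.card ι).factorial * (∏ i, r i) * Y / r i := by
  classical
  -- the integral basis, indexed by `ι`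
  have hcard : Fintype.card (Module.Free.ChooseBasisIndex ℤ (𝓞 F)) = Fintype.card ι := by
    rw [← Module.finrank_eq_card_basis b, ← Module.finrank_eq_card_basis (NumberField.integralBasis F)]
  have e := Fintype.equivOfCardEq hcard
  obtain ⟨β, hβ⟩ : ∃ β : Module.Basis ι ℚ F, β = (NumberField.integralBasis F).reindex e := ⟨_, rfl⟩
  have hint : ∀ y : F, IsIntegral ℤ y → ∀ i, ∃ z : ℤ, β.repr y i = z := by
    intro y hy i
    obtain ⟨x, hx⟩ : ∃ x : 𝓞 F, algebraMap (𝓞 F) F x = y := ⟨⟨y, hy⟩, rfl⟩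
    refine ⟨(NumberField.RingOfIntegers.basis F).repr x (e.symm i), ?_⟩
    rw [hβ, Module.Basis.repr_reindex_apply, ← hx, NumberField.integralBasis_repr_apply]
    rfl
  have hP : ∀ i j, ∃ z : ℤ, β.toMatrix b i j = z := fun i j => hint (b j) (hb j) i
  choose P hP using hP
  have hPm : β.toMatrix b = (Matrix.of P).map (Int.cast : ℤ → ℚ) := by
    ext i j
    rw [hP]
    rfl
  obtain ⟨Q, hQ⟩ : ∃ Q : Matrix ι ι ℤ, Q = Matrix.of P := ⟨_, rfl⟩
  rw [← hQ] at hPm
  have hdet : (β.toMatrix b).det = (Q.det : ℚ) := by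
    rw [hPm]
    exact (Int.cast_det Q).symm
  -- discriminants
  have hdisc : Algebra.discr ℚ b = (Q.det : ℚ) ^ 2 * (NumberField.discr F : ℚ) := by
    have h1 := Algebra.discr_of_matrix_vecMul (A := ℚ) (β : ι → F) (β.toMatrix b)
    rw [Module.Basis.toMatrix_map_vecMul] at h1
    rw [h1, hdet, NumberField.coe_discr]
    congr 1
    rw [hβ, Module.Basis.coe_reindex]
    exact Algebra.discr_reindex ℚ (NumberField.integralBasis F) e
  have hdne : Q.det ≠ 0 := by
    intro h0
    have h1 := Algebra.discr_not_zero_of_basis ℚ b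
    rw [hdisc, h0] at h1
    simp at h1
  -- embeddings
  have hcard2 : Fintype.card ι = Fintype.card (F →ₐ[ℚ] ℂ) := by
    rw [AlgHom.card, Module.finrank_eq_card_basis b]
  have ψ := Fintype.equivOfCardEq hcard2
  obtain ⟨B, hB⟩ : ∃ B : Matrix ι ι ℂ, ∀ i j, B i j = ψ i (b j) := ⟨Matrix.of fun i j => ψ i (b j), fun _ _ => rfl⟩
  have hBt : B.det = (Algebra.embeddingsMatrixReindex ℚ ℂ b ψ).det := by
    rw [← Matrix.det_transpose]
    congr 1
    ext i j
    rw [Matrix.transpose_apply, hB]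
    rfl
  have hdB : ‖B.det‖ = (Q.det.natAbs : ℝ) * Real.sqrt |(NumberField.discr F : ℝ)| := by
    have h1 := Algebra.discr_eq_det_embeddingsMatrixReindex_pow_two ℚ ℂ b ψ
    rw [← hBt, hdisc] at h1
    have h2 : ‖B.det‖ ^ 2 = ((Q.det.natAbs : ℝ) * Real.sqrt |(NumberField.discr F : ℝ)|) ^ 2 := by
      rw [← norm_pow, ← h1, mul_pow, Real.sq_sqrt (abs_nonneg _)]
      have h3 : (algebraMap ℚ ℂ) ((Q.det : ℚ) ^ 2 * (NumberField.discr F : ℚ)) =
          ((((Q.det : ℝ) ^ 2 * (NumberField.discr F : ℝ) : ℝ)) : ℂ) := by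
        simp
      rw [h3, Complex.norm_real, Real.norm_eq_abs, abs_mul, abs_pow, Nat.cast_natAbs, Int.cast_abs]
    have h4 : 0 ≤ (Q.det.natAbs : ℝ) * Real.sqrt |(NumberField.discr F : ℝ)| := by positivity
    exact (pow_left_inj₀ (norm_nonneg _) h4 two_ne_zero).1 h2
  have hBr : ∀ i j, ‖B i j‖ ≤ r j := by
    intro i j
    rw [hB]
    exact h j (ψ i : F →+* ℂ)
  refine ⟨Q.det.natAbs, Nat.one_le_iff_ne_zero.2 (Int.natAbs_ne_zero.2 hdne), ?_, ?_, ?_⟩
  · intro y hy i
    have hz := hint y hy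
    choose z hz using hz
    have h1 : β.toMatrix b *ᵥ b.repr y = β.repr y := Module.Basis.toMatrix_mulVec_repr b β y
    have h2 : (β.repr y : ι → ℚ) = fun i => (z i : ℚ) := funext hz
    have h3 : (Q.det : ℚ) * b.repr y i = ((Q.adjugate *ᵥ z) i : ℤ) := by
      have h4 : (β.toMatrix b).adjugate *ᵥ (β.toMatrix b *ᵥ b.repr y) = (β.toMatrix b).det • (b.repr y : ι → ℚ) := by
        rw [Matrix.mulVec_mulVec, Matrix.adjugate_mul, Matrix.smul_mulVec, Matrix.one_mulVec]
      have h5 := congrFun h4 i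
      rw [h1, h2, hdet, Pi.smul_apply, smul_eq_mul] at h5
      rw [← h5, hPm]
      have h6 : (Q.map (Int.cast : ℤ → ℚ)).adjugate = (Q.adjugate).map (Int.cast : ℤ → ℚ) :=
        ((Int.castRingHom ℚ).map_adjugate Q).symm
      rw [h6]
      simp [Matrix.mulVec, dotProduct]
    rcases Int.natAbs_eq Q.det with h7 | h7
    · refine ⟨(Q.adjugate *ᵥ z) i, ?_⟩
      rw [← h3]
      congr 1
      exact (Int.cast_natCast _).symm.trans (congrArg (Int.cast : ℤ → ℚ) h7.symm)
    · refine ⟨-(Q.adjugate *ᵥ z) i, ?_⟩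
      rw [Int.cast_neg, ← h3, ← neg_mul]
      congr 1
      have h8 : ((Q.det.natAbs : ℕ) : ℤ) = -Q.det := by omega
      rw [← Int.cast_neg]
      exact (Int.cast_natCast _).symm.trans (congrArg (Int.cast : ℤ → ℚ) h8)
  · rw [← hdB]
    exact det_le' B r hBr
  · intro y Y hY i
    obtain ⟨v, hv⟩ : ∃ v : ι → ℂ, ∀ i, v i = ψ i y := ⟨fun i => ψ i y, fun _ => rfl⟩
    have h1 : B *ᵥ (fun j => ((b.repr y j : ℚ) : ℂ)) = v := by
      funext k
      rw [hv]
      have h2 := congrArg (ψ k) (b.sum_repr y)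
      rw [← h2, map_sum]
      simp only [Matrix.mulVec, dotProduct]
      refine Finset.sum_congr rfl fun j _ => ?_
      rw [hB, Algebra.smul_def, map_mul, AlgHom.commutes, mul_comm]
      rfl
    have h3 : B.det * ((b.repr y i : ℚ) : ℂ) = (B.updateCol i v).det := by
      rw [← Matrix.cramer_apply, Matrix.cramer_eq_adjugate_mulVec, ← h1, Matrix.mulVec_mulVec, Matrix.adjugate_mul,
        Matrix.smul_mulVec, Matrix.one_mulVec]
      rfl
    have h4 : ‖(B.updateCol i v).det‖ ≤ (Fintype.card ι).factorial * ∏ j, (Function.update r i Y) j := by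
      refine det_le' _ _ fun k j => ?_
      rw [Matrix.updateCol_apply, Function.update_apply]
      split_ifs with hj
      · rw [hv]
        exact hY (ψ k : F →+* ℂ)
      · exact hBr k j
    have h5 : ∏ j, (Function.update r i Y) j = (∏ j, r j) * Y / r i := by
      rw [eq_div_iff (hr i).ne', Finset.prod_update_of_mem (Finset.mem_univ i)]
      have h6 : (∏ j, r j) = (∏ j ∈ Finset.univ \ {i}, r j) * r i := by
        rw [Finset.sdiff_singleton_eq_erase, Finset.prod_erase_mul _ _ (Finset.mem_univ i)]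
      rw [h6]
      ring
    have h7 : ‖B.det * ((b.repr y i : ℚ) : ℂ)‖ = ‖B.det‖ * |(b.repr y i : ℝ)| := by
      rw [norm_mul]
      congr 1
      have h8 : (((b.repr y i : ℚ) : ℂ)) = (((b.repr y i : ℚ) : ℝ) : ℂ) := by simp
      rw [h8, Complex.norm_real, Real.norm_eq_abs]
    rw [← h3, h7, hdB, h5] at h4
    have h9 : (1 : ℝ) ≤ (Q.det.natAbs : ℝ) := by
      exact_mod_cast Nat.one_le_iff_ne_zero.2 (Int.natAbs_ne_zero.2 hdne)
    have h10 : |(b.repr y i : ℝ)| * Real.sqrt |(NumberField.discr F : ℝ)| ≤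
        (Q.det.natAbs : ℝ) * Real.sqrt |(NumberField.discr F : ℝ)| * |(b.repr y i : ℝ)| := by
      have h11 : 0 ≤ |(b.repr y i : ℝ)| * Real.sqrt |(NumberField.discr F : ℝ)| := by positivity
      nlinarith
    refine h10.trans (h4.trans (le_of_eq ?_))
    ring

end H88.SW
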