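import Pool.Agent.H88.SW.TbA
import Pool.Agent.H88.SW.TbB

/-!
# [H88 SW TBC] The structure `Tb` (75 min)

`t1, t2, T1, T2` from `tb_short` (constant `κ0`). `b0` = the `K`-basis `1, t1, t2` of `F` (`basisOfLinearIndependentOfCardEqFinrank`), `p`, `q` its coordinate functionals at `1 : Fin 3`, `2 : Fin 3` (`b0.coord`). `ω = NumberField.integralBasis K`, index type `ι0`, `c = 1 + ∑ i, ∑ ψ, ‖ψ (ω i)‖`. `b = ω.smulTower b0` (`Module.Basis.smulTower`,
`ℚ`-basis with index `ι0 × Fin 3`, `b (i, j) = ω i • b0 j`, `repr y (i, j) = ω.repr (b0.repr y j) i`), all integral, `‖φ (b (i, j))‖ ≤ c τ j`, `τ = (1, T1, T2)` (`φ` restricted to `K` is an embedding of `K`). `∏ r = c ^ (3 d) (T1 T2) ^ d` (`Fintype.prod_prod_type`). `zb`: `m`.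
`int`: `m p y = ∑ i, (m * repr y (i, 1)) ω i`, integers times integral elements. `du`: `√|disc F| ≤ m √|disc F| ≤ C (T1 T2) ^ d`, square. `mle`: `m √|disc F| ≤ C (T1 T2) ^ d ≤ C √κ0 √|disc F|`, `disc F ≠ 0` (`NumberField.discr_ne_zero`). `siz`: `|repr y (i, 1)| √|disc F| ≤ C (T1 T2) ^ d Y / (c T1) ≤ C √κ0 √|disc F| Y / T1`, divide; `‖ψ (p y)‖ ≤
∑ i, |repr y (i, 1)| ‖ψ (ω i)‖`. (`Y ≥ 0` because there is an embedding.) `dl`: `tb_short`. `κ` the maximum of the constants.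
-/

set_option autoImplicit false

open scoped NumberField nonZeroDivisors Matrix
open H88.A4 Pool.Agent.H67.WA

noncomputable section

namespace H88.SW

private theorem tbc_int {K : Type} [Field K] [NumberField K] (m : ℕ) (x : K)
    (h : ∀ i, ∃ z : ℤ, (m : ℚ) * (NumberField.integralBasis K).repr x i = z) : IsIntegral ℤ ((m : K) * x) := by
  choose z hz using h
  have h1 : (m : K) * x = ∑ i, (z i : K) * NumberField.integralBasis K i := by
    conv_lhs => rw [← (NumberField.integralBasis K).sum_repr x, Finset.mul_sum]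
    refine Finset.sum_congr rfl fun i _ => ?_
    rw [Algebra.smul_def, ← mul_assoc]
    congr 1
    have h2 := congrArg (algebraMap ℚ K) (hz i)
    rw [map_mul, map_natCast, map_intCast] at h2
    exact h2
  rw [h1]
  refine IsIntegral.sum _ fun i _ => ?_
  refine IsIntegral.mul ?_ ?_
  · rw [← map_intCast (algebraMap ℤ K)]
    exact isIntegral_algebraMap
  · rw [NumberField.integralBasis_apply]
    exact NumberField.RingOfIntegers.isIntegral_coe _

private theorem tbc_size {K : Type} [Field K] [NumberField K] (c : ℝ)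
    (hc : ∀ ψ : K →+* ℂ, ∑ i, ‖ψ (NumberField.integralBasis K i)‖ ≤ c) (x : K) (A : ℝ) (hA : 0 ≤ A)
    (h : ∀ i, |((NumberField.integralBasis K).repr x i : ℝ)| ≤ A) (ψ : K →+* ℂ) : ‖ψ x‖ ≤ A * c := by
  have h1 : ψ x = ∑ i, (((NumberField.integralBasis K).repr x i : ℚ) : ℂ) * ψ (NumberField.integralBasis K i) := by
    conv_lhs => rw [← (NumberField.integralBasis K).sum_repr x, map_sum]
    refine Finset.sum_congr rfl fun i _ => ?_
    rw [Algebra.smul_def, map_mul]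
    congr 1
    simp
  rw [h1]
  refine (norm_sum_le _ _).trans ?_
  refine (Finset.sum_le_sum (g := fun i => A * ‖ψ (NumberField.integralBasis K i)‖) fun i _ => ?_).trans ?_
  · rw [norm_mul]
    refine mul_le_mul_of_nonneg_right ?_ (norm_nonneg _)
    have h2 : ‖(((NumberField.integralBasis K).repr x i : ℚ) : ℂ)‖ = |((NumberField.integralBasis K).repr x i : ℝ)| := by
      rw [← Complex.ofReal_ratCast, Complex.norm_real, Real.norm_eq_abs]
    rw [h2]
    exact h i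
  · rw [← Finset.mul_sum]
    exact mul_le_mul_of_nonneg_left (hc ψ) hA

theorem tb_ex (K : Type) [Field K] [NumberField K] : ∃ κ : ℝ, 1 ≤ κ ∧ ∀ (F : Type) [Field F] [NumberField F] [Algebra K F],
    Module.finrank K F = 3 → ∃ (T1 T2 : ℝ) (t1 t2 : F) (p q : F →ₗ[K] K) (m : ℕ), Tb κ T1 T2 t1 t2 p q m := by
  classical
  obtain ⟨κ0, hκ0, hF⟩ := tb_short K
  obtain ⟨d, hd⟩ : ∃ d, d = Module.finrank ℚ K := ⟨_, rfl⟩
  obtain ⟨c, hc⟩ : ∃ c : ℝ, c = 1 + ∑ i, ∑ ψ : K →+* ℂ, ‖ψ (NumberField.integralBasis K i)‖ := ⟨_, rfl⟩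
  have hsum0 : ∀ i, 0 ≤ ∑ ψ : K →+* ℂ, ‖ψ (NumberField.integralBasis K i)‖ := fun i =>
    Finset.sum_nonneg fun ψ _ => norm_nonneg _
  have hc1 : 1 ≤ c := by
    rw [hc]
    exact le_add_of_nonneg_right (Finset.sum_nonneg fun i _ => hsum0 i)
  have hc0 : 0 < c := lt_of_lt_of_le one_pos hc1
  have hcs : ∀ ψ : K →+* ℂ, ∑ i, ‖ψ (NumberField.integralBasis K i)‖ ≤ c := by
    intro ψ
    rw [hc]
    have h1 : ∑ i, ‖ψ (NumberField.integralBasis K i)‖ ≤ ∑ i, ∑ ψ : K →+* ℂ, ‖ψ (NumberField.integralBasis K i)‖ :=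
      Finset.sum_le_sum fun i _ => Finset.single_le_sum (f := fun ψ : K →+* ℂ => ‖ψ (NumberField.integralBasis K i)‖)
        (fun ψ _ => norm_nonneg _) (Finset.mem_univ ψ)
    linarith
  have hci : ∀ (ψ : K →+* ℂ) i, ‖ψ (NumberField.integralBasis K i)‖ ≤ c := fun ψ i =>
    (Finset.single_le_sum (f := fun i => ‖ψ (NumberField.integralBasis K i)‖) (fun i _ => norm_nonneg _)
      (Finset.mem_univ i)).trans (hcs ψ)
  obtain ⟨A, hA⟩ : ∃ A : ℝ, A = ((d * 3).factorial : ℝ) * c ^ (d * 3) := ⟨_, rfl⟩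
  have hA0 : 0 < A := by
    rw [hA]
    exact mul_pos (by exact_mod_cast Nat.factorial_pos _) (pow_pos hc0 _)
  have hsq : 0 ≤ Real.sqrt κ0 := Real.sqrt_nonneg _
  refine ⟨κ0 + A * Real.sqrt κ0 + A ^ 2, ?_, ?_⟩
  · have := mul_nonneg hA0.le hsq
    nlinarith [sq_nonneg A]
  intro F _ _ _ hK3
  obtain ⟨t1, t2, T1, T2, hi1, hi2, hli, hT1, hT12, hs1, hs2, hdl⟩ := hF F hK3
  have hT1p : 0 < T1 := lt_of_lt_of_le one_pos hT1
  have hT2p : 0 < T2 := lt_of_lt_of_le hT1p hT12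
  have hcard : Fintype.card (Fin 3) = Module.finrank K F := by rw [hK3, Fintype.card_fin]
  obtain ⟨b0, hb0⟩ : ∃ b0 : Module.Basis (Fin 3) K F, (b0 : Fin 3 → F) = ![1, t1, t2] :=
    ⟨basisOfLinearIndependentOfCardEqFinrank hli hcard, coe_basisOfLinearIndependentOfCardEqFinrank hli hcard⟩
  have hb00 : b0 0 = 1 := by rw [hb0]; rfl
  have hb01 : b0 1 = t1 := by rw [hb0]; rfl
  have hb02 : b0 2 = t2 := by rw [hb0]; rfl
  obtain ⟨τ, hτ⟩ : ∃ τ : Fin 3 → ℝ, τ = ![1, T1, T2] := ⟨_, rfl⟩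
  have hτ0 : ∀ j, 0 < τ j := by
    intro j
    rw [hτ]
    fin_cases j
    · exact one_pos
    · exact hT1p
    · exact hT2p
  have hτb : ∀ (φ : F →+* ℂ) j, ‖φ (b0 j)‖ ≤ τ j := by
    intro φ j
    rw [hτ, hb0]
    fin_cases j
    · change ‖φ 1‖ ≤ 1
      rw [map_one, norm_one]
    · exact hs1 φ
    · exact hs2 φ
  have hτi : ∀ j, IsIntegral ℤ (b0 j) := by
    intro j
    rw [hb0]
    fin_cases j
    · exact isIntegral_one
    · exact hi1
    · exact hi2
  obtain ⟨b, hb⟩ : ∃ b : Module.Basis _ ℚ F, b = (NumberField.integralBasis K).smulTower b0 := ⟨_, rfl⟩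
  have hbr : ∀ (y : F) i j, b.repr y (i, j) = (NumberField.integralBasis K).repr (b0.repr y j) i := by
    intro y i j
    rw [hb, Module.Basis.smulTower_repr]
  have hba : ∀ i j, b (i, j) = algebraMap K F (NumberField.integralBasis K i) * b0 j := by
    intro i j
    rw [hb, Module.Basis.smulTower_apply, Algebra.smul_def]
  obtain ⟨r, hr⟩ : ∃ r : _ × Fin 3 → ℝ, ∀ x, r x = c * τ x.2 := ⟨fun x => c * τ x.2, fun _ => rfl⟩
  obtain ⟨m, hm1, hmi, hmD, hmS⟩ := zb b (fun x => by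
    obtain ⟨i, j⟩ := x
    rw [hba]
    refine IsIntegral.mul ?_ (hτi j)
    rw [NumberField.integralBasis_apply]
    exact (NumberField.RingOfIntegers.isIntegral_coe _).algebraMap) r (fun x => by
    rw [hr]
    exact mul_pos hc0 (hτ0 _)) (fun x φ => by
    obtain ⟨i, j⟩ := x
    rw [hba, hr, map_mul, norm_mul]
    exact mul_le_mul (hci (φ.comp (algebraMap K F)) i) (hτb φ j) (norm_nonneg _) hc0.le)
  have hcardι : Fintype.card (Module.Free.ChooseBasisIndex ℤ (𝓞 K)) = d := by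
    rw [hd, Module.finrank_eq_card_basis (NumberField.integralBasis K)]
  have hN : Fintype.card (Module.Free.ChooseBasisIndex ℤ (𝓞 K) × Fin 3) = d * 3 := by
    rw [Fintype.card_prod, hcardι, Fintype.card_fin]
  have hprod : ∏ x, r x = c ^ (d * 3) * (T1 * T2) ^ d := by
    have h1 : ∀ x, r x = c * τ x.2 := hr
    simp only [h1]
    rw [Finset.prod_mul_distrib, Finset.prod_const, Finset.card_univ, hN, Fintype.prod_prod_type]
    congr 1
    have h2 : ∏ y : Fin 3, τ y = T1 * T2 := by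
      rw [Fin.prod_univ_three, hτ]
      change 1 * T1 * T2 = T1 * T2
      rw [one_mul]
    change (∏ _x : Module.Free.ChooseBasisIndex ℤ (𝓞 K), ∏ y : Fin 3, τ y) = _
    rw [Finset.prod_const, Finset.card_univ, hcardι, h2]
  rw [hN, hprod, ← mul_assoc, ← hA] at hmD
  obtain ⟨Q, hQ⟩ : ∃ Q : ℝ, Q = Real.sqrt |(NumberField.discr F : ℝ)| := ⟨_, rfl⟩
  have hD0 : 0 < |(NumberField.discr F : ℝ)| := by
    rw [abs_pos]
    exact_mod_cast NumberField.discr_ne_zero F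
  have hQ0 : 0 < Q := by
    rw [hQ]
    exact Real.sqrt_pos.2 hD0
  have hQ2 : Q ^ 2 = |(NumberField.discr F : ℝ)| := by
    rw [hQ, Real.sq_sqrt hD0.le]
  have hTQ : (T1 * T2) ^ d ≤ Real.sqrt κ0 * Q := by
    rw [hQ, ← Real.sqrt_mul (by linarith), ← Real.sqrt_sq (pow_nonneg (mul_pos hT1p hT2p).le d)]
    refine Real.sqrt_le_sqrt ?_
    rw [← pow_mul, mul_comm d 2, hd]
    exact hdl
  rw [← hQ] at hmD
  have hm1' : (1 : ℝ) ≤ m := by exact_mod_cast hm1
  have hmle : (m : ℝ) ≤ A * Real.sqrt κ0 := by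
    have h1 : (m : ℝ) * Q ≤ A * Real.sqrt κ0 * Q := by
      refine hmD.trans ?_
      rw [mul_assoc A]
      exact mul_le_mul_of_nonneg_left hTQ hA0.le
    exact le_of_mul_le_mul_right h1 hQ0
  have hAk : 0 ≤ A * Real.sqrt κ0 := mul_nonneg hA0.le hsq
  -- the sizes
  have hsz : ∀ (y : F) (Y : ℝ), (∀ φ : F →+* ℂ, ‖φ y‖ ≤ Y) → ∀ j i,
      |((NumberField.integralBasis K).repr (b0.repr y j) i : ℝ)| ≤ A * Real.sqrt κ0 * Y / (c * τ j) := by
    intro y Y hy j i
    have h1 := hmS y Y hy (i, j)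
    rw [hbr, hN, hprod, ← mul_assoc, ← hA, hr, ← hQ] at h1
    obtain ⟨φ⟩ : Nonempty (F →+* ℂ) := inferInstance
    have hY0 : 0 ≤ Y := (norm_nonneg _).trans (hy φ)
    have h2 : A * (T1 * T2) ^ d * Y / (c * τ j) ≤ A * Real.sqrt κ0 * Y / (c * τ j) * Q := by
      rw [div_mul_eq_mul_div]
      refine div_le_div_of_nonneg_right ?_ (mul_pos hc0 (hτ0 j)).le
      have h3 := mul_le_mul_of_nonneg_left hTQ (mul_nonneg hA0.le hY0)
      linarith
    exact le_of_mul_le_mul_right (h1.trans h2) hQ0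
  have hsz' : ∀ (y : F) (Y : ℝ), (∀ φ : F →+* ℂ, ‖φ y‖ ≤ Y) → ∀ (ψ : K →+* ℂ) (j : Fin 3),
      ‖ψ (b0.repr y j)‖ ≤ (κ0 + A * Real.sqrt κ0 + A ^ 2) * Y / τ j := by
    intro y Y hy ψ j
    obtain ⟨φ⟩ : Nonempty (F →+* ℂ) := inferInstance
    have hY0 : 0 ≤ Y := (norm_nonneg _).trans (hy φ)
    have h1 := tbc_size c hcs (b0.repr y j) (A * Real.sqrt κ0 * Y / (c * τ j))
      (div_nonneg (mul_nonneg hAk hY0) (mul_pos hc0 (hτ0 j)).le) (hsz y Y hy j) ψ
    refine h1.trans ?_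
    have h2 : A * Real.sqrt κ0 * Y / (c * τ j) * c = A * Real.sqrt κ0 * Y / τ j := by
      field_simp
    rw [h2]
    refine div_le_div_of_nonneg_right ?_ (hτ0 j).le
    refine mul_le_mul_of_nonneg_right ?_ hY0
    nlinarith [sq_nonneg A]
  refine ⟨T1, T2, t1, t2, b0.coord 1, b0.coord 2, m, ?_⟩
  refine ⟨hi1, hi2, fun y => ⟨b0.repr y 0, ?_⟩, ?_, ?_, ?_, ?_, ?_, ?_, hT1, hT12, hs1, hs2, hm1, ?_, ?_, ?_, ?_, ?_⟩
  · have h1 := b0.sum_repr y
    rw [Fin.sum_univ_three, hb00, hb01, hb02, Algebra.smul_def, Algebra.smul_def, Algebra.smul_def, mul_one] at h1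
    exact h1.symm
  · rw [← hb00, Module.Basis.coord_apply, Module.Basis.repr_self, Finsupp.single_apply, if_neg (by decide)]
  · rw [← hb00, Module.Basis.coord_apply, Module.Basis.repr_self, Finsupp.single_apply, if_neg (by decide)]
  · rw [← hb01, Module.Basis.coord_apply, Module.Basis.repr_self, Finsupp.single_apply, if_pos rfl]
  · rw [← hb01, Module.Basis.coord_apply, Module.Basis.repr_self, Finsupp.single_apply, if_neg (by decide)]
  · rw [← hb02, Module.Basis.coord_apply, Module.Basis.repr_self, Finsupp.single_apply, if_neg (by decide)]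
  · rw [← hb02, Module.Basis.coord_apply, Module.Basis.repr_self, Finsupp.single_apply, if_pos rfl]
  · nlinarith [sq_nonneg A]
  · intro y hy
    have h1 : ∀ j, IsIntegral ℤ ((m : K) * b0.repr y j) := by
      intro j
      refine tbc_int m _ fun i => ?_
      obtain ⟨z, hz⟩ := hmi y hy (i, j)
      rw [hbr] at hz
      exact ⟨z, hz⟩
    exact ⟨h1 1, h1 2⟩
  · intro y Y hy ψ
    have h1 := hsz' y Y hy ψ 1
    have h2 := hsz' y Y hy ψ 2
    have e1 : τ 1 = T1 := by rw [hτ]; rfl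
    have e2 : τ 2 = T2 := by rw [hτ]; rfl
    rw [e1] at h1
    rw [e2] at h2
    exact ⟨h1, h2⟩
  · refine hdl.trans (mul_le_mul_of_nonneg_right ?_ hD0.le)
    nlinarith [sq_nonneg A]
  · have h1 : Q ≤ A * (T1 * T2) ^ d := by
      refine le_trans ?_ hmD
      nlinarith
    have h2 : Q ^ 2 ≤ (A * (T1 * T2) ^ d) ^ 2 := pow_le_pow_left₀ hQ0.le h1 2
    rw [← hQ2]
    refine h2.trans ?_
    rw [mul_pow, ← pow_mul, mul_comm d 2, ← hd]
    refine mul_le_mul_of_nonneg_right ?_ (pow_nonneg (mul_pos hT1p hT2p).le _)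
    nlinarith

end H88.SW
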